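import Pool.Agent.V11111.AW.Eqv

/-!
From Kaplansky's axioms to annihilators.
-/

set_option autoImplicit false
set_option linter.unusedSimpArgs false
set_option linter.unusedVariables false

namespace Pool.Agent.V11111.AW

variable {A : Type*} [CStarAlgebra A]

/-- commutative star subalgebra -/
def Cm (B : StarSubalgebra ℂ A) : Prop := ∀ x ∈ B, ∀ y ∈ B, x * y = y * x

/-- maximal commutative star subalgebra -/
def Masa (B : StarSubalgebra ℂ A) : Prop := Cm B ∧ ∀ C : StarSubalgebra ℂ A, Cm C → B ≤ C → C = B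

lemma exists_masa (S : Set A) (hS : ∀ x ∈ S, star x = x) (hc : ∀ x ∈ S, ∀ y ∈ S, x * y = y * x) :
    ∃ B : StarSubalgebra ℂ A, Masa B ∧ S ⊆ B := by
  have h0 : Cm (StarAlgebra.adjoin ℂ S) := by
    have hcomm := StarAlgebra.isMulCommutative_adjoin ℂ (s := S) hc (by
      intro a ha b hb; rw [hS b hb]; exact hc a ha b hb)
    intro x hx y hy
    have := hcomm.is_comm.comm (⟨x, hx⟩ : StarAlgebra.adjoin ℂ S) ⟨y, hy⟩
    exact congrArg Subtype.val this
  obtain ⟨B, hSB, hB⟩ := zorn_le_nonempty₀ {B : StarSubalgebra ℂ A | Cm B} (by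
    intro c hc' hchain y hy
    let U : StarSubalgebra ℂ A :=
      { carrier := {x | ∃ B ∈ c, x ∈ B}
        mul_mem' := by
          rintro a b ⟨B, hB, ha⟩ ⟨C, hC, hb⟩
          rcases hchain.total hB hC with h | h
          · exact ⟨C, hC, mul_mem (h ha) hb⟩
          · exact ⟨B, hB, mul_mem ha (h hb)⟩
        one_mem' := ⟨y, hy, one_mem _⟩
        add_mem' := by
          rintro a b ⟨B, hB, ha⟩ ⟨C, hC, hb⟩
          rcases hchain.total hB hC with h | h
          · exact ⟨C, hC, add_mem (h ha) hb⟩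
          · exact ⟨B, hB, add_mem ha (h hb)⟩
        zero_mem' := ⟨y, hy, zero_mem _⟩
        algebraMap_mem' := fun r => ⟨y, hy, algebraMap_mem _ r⟩
        star_mem' := by
          rintro a ⟨B, hB, ha⟩
          exact ⟨B, hB, star_mem ha⟩ }
    refine ⟨U, ?_, ?_⟩
    · rintro a ⟨B, hB, ha⟩ b ⟨C, hC, hb⟩
      rcases hchain.total hB hC with h | h
      · exact hc' hC a (h ha) b hb
      · exact hc' hB a ha b (h hb)
    · intro z hz x hx
      exact ⟨z, hz, hx⟩) _ h0
  refine ⟨B, ⟨hB.1, fun C hC hBC => le_antisymm (hB.2 hC hBC) hBC⟩, ?_⟩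
  exact (StarAlgebra.subset_adjoin ℂ S).trans hSB

lemma norm_le_max_aux [PartialOrder A] [StarOrderedRing A] {y p : A} (hp : Pr p)
    (hyp : y * p = p * y) {m : ℝ} (hm : 0 ≤ m) (h1 : ‖y * p‖ ≤ m) (h2 : ‖y * (1 - p)‖ ≤ m) :
    ‖y‖ ≤ m := by
  have gen : ∀ q : A, Pr q → ‖y * q‖ ≤ m → star (y * q) * (y * q) ≤ (m ^ 2) • q := by
    intro q hq hn
    have e1 : star (y * q) * (y * q) ≤ algebraMap ℝ A (m ^ 2) := by
      refine (CStarAlgebra.norm_le_iff_le_algebraMap _ (by positivity)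
        (star_mul_self_nonneg _)).1 ?_
      rw [CStarRing.norm_star_mul_self, ← sq]
      exact pow_le_pow_left₀ (norm_nonneg _) hn 2
    have e2 := star_left_conjugate_le_conjugate e1 q
    rw [Algebra.algebraMap_eq_smul_one, mul_smul_comm, mul_one, smul_mul_assoc, hq.1, hq.2] at e2
    have e3 : q * (star (y * q) * (y * q)) * q = star (y * q) * (y * q) := by
      rw [star_mul, hq.1]
      calc q * (q * star y * (y * q)) * q = (q * q) * star y * y * (q * q) := by
            simp only [mul_assoc]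
        _ = _ := by rw [hq.2]; simp only [mul_assoc]
    rwa [e3] at e2
  have h3 := gen p hp h1
  have h4 := gen (1 - p) hp.compl h2
  have hsyp : star y * p = p * star y := by
    have := congrArg star hyp
    rw [star_mul, star_mul, hp.1] at this
    exact this.symm
  have h5 : star y * y = star (y * p) * (y * p) + star (y * (1 - p)) * (y * (1 - p)) := by
    have e1 : star (y * p) * (y * p) = star y * y * p := by
      rw [star_mul, hp.1, ← hsyp, mul_assoc, ← mul_assoc p, ← hyp, mul_assoc y, hp.2, mul_assoc]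
    have e2 : star (y * (1 - p)) * (y * (1 - p)) = star y * y * (1 - p) := by
      have a1 : star y * (1 - p) = (1 - p) * star y := by
        rw [mul_sub, sub_mul, hsyp]; simp
      have a2 : y * (1 - p) = (1 - p) * y := by rw [mul_sub, sub_mul, hyp]; simp
      rw [star_mul, hp.compl.1, ← a1, mul_assoc, ← mul_assoc (1 - p), ← a2, mul_assoc y,
        hp.compl.2, mul_assoc]
    rw [e1, e2, ← mul_add, add_sub_cancel, mul_one]
  have h6 : star y * y ≤ algebraMap ℝ A (m ^ 2) := by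
    rw [h5, Algebra.algebraMap_eq_smul_one]
    calc _ ≤ (m ^ 2) • p + (m ^ 2) • (1 - p) := add_le_add h3 h4
      _ = (m ^ 2) • (1 : A) := by rw [← smul_add, add_sub_cancel]
  have h7 := (CStarAlgebra.norm_le_iff_le_algebraMap _ (by positivity)
    (star_mul_self_nonneg y)).2 h6
  rw [CStarRing.norm_star_mul_self, ← sq] at h7
  exact le_of_sq_le_sq h7 hm

lemma norm_le_max {y p : A} (hp : Pr p) (hyp : y * p = p * y) {m : ℝ} (hm : 0 ≤ m)
    (h1 : ‖y * p‖ ≤ m) (h2 : ‖y * (1 - p)‖ ≤ m) : ‖y‖ ≤ m := by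
  let _ := CStarAlgebra.spectralOrder A
  have _ := CStarAlgebra.spectralOrderedRing A
  exact norm_le_max_aux hp hyp hm h1 h2

/-- a nonzero element of a projection-generated commutative algebra has a nonzero projection
as a multiple -/
lemma proj_below {B : StarSubalgebra ℂ A} (hB : Cm B)
    (hgen : B = (StarAlgebra.adjoin ℂ {p : A | p ∈ B ∧ Pr p}).topologicalClosure)
    {a : A} (ha : a ∈ B) (ha0 : a ≠ 0) :
    ∃ q b : A, Pr q ∧ q ≠ 0 ∧ q = b * a ∧ q = a * b := by
  set M : ℝ := ‖a‖ with hM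
  have hM0 : 0 < M := norm_pos_iff.2 ha0
  have key : ∀ x ∈ StarAlgebra.adjoin ℂ {p : A | p ∈ B ∧ Pr p}, x ∈ B ∧
      ∀ q, q ∈ B → Pr q → ‖a * q‖ = M → ∃ q' ∈ B, Pr q' ∧ q * q' = q' ∧ ‖a * q'‖ = M ∧
        ∃ l : ℂ, x * q' = l • q' := by
    intro x hx
    induction hx using StarAlgebra.adjoin_induction with
    | mem p hp =>
      refine ⟨hp.1, fun q hqB hq hqM => ?_⟩
      have hcomm : p * q = q * p := hB p hp.1 q hqB
      have h1 : Pr (q * p) := by
        refine ⟨by rw [star_mul, hq.1, hp.2.1, hcomm], ?_⟩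
        calc q * p * (q * p) = q * (p * q) * p := by simp only [mul_assoc]
          _ = (q * q) * (p * p) := by rw [hcomm]; simp only [mul_assoc]
          _ = _ := by rw [hq.2, hp.2.2]
      have h2 : Pr (q * (1 - p)) := by
        have : q * (1 - p) = q - q * p := by rw [mul_sub, mul_one]
        rw [this]
        exact h1.sub hq (by rw [← mul_assoc, hq.2])
      have haq : a * q * p = p * (a * q) := by
        rw [mul_assoc, ← hcomm, ← mul_assoc, hB a ha p hp.1, mul_assoc]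
      have l1 : ‖a * q * p‖ ≤ M := by
        calc ‖a * q * p‖ ≤ ‖a * q‖ * ‖p‖ := norm_mul_le _ _
          _ ≤ M * 1 := by rw [hqM]; have := hp.2.norm_le; gcongr
          _ = M := mul_one M
      have l2 : ‖a * q * (1 - p)‖ ≤ M := by
        calc ‖a * q * (1 - p)‖ ≤ ‖a * q‖ * ‖1 - p‖ := norm_mul_le _ _
          _ ≤ M * 1 := by rw [hqM]; have := hp.2.compl.norm_le; gcongr
          _ = M := mul_one M
      by_cases hc1 : ‖a * q * p‖ = M
      · refine ⟨q * p, mul_mem hqB hp.1, h1, by rw [← mul_assoc, hq.2],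
          by rw [← mul_assoc]; exact hc1, 1, ?_⟩
        rw [← mul_assoc, hcomm, mul_assoc, hp.2.2, one_smul]
      by_cases hc2 : ‖a * q * (1 - p)‖ = M
      · refine ⟨q * (1 - p), mul_mem hqB (sub_mem (one_mem B) hp.1), h2,
          by rw [← mul_assoc, hq.2], by rw [← mul_assoc]; exact hc2, 0, ?_⟩
        rw [← mul_assoc, hcomm, mul_assoc, mul_sub, mul_one, hp.2.2, sub_self, mul_zero,
          zero_smul]
      exfalso
      have g1 : ‖a * q * p‖ < M := lt_of_le_of_ne l1 hc1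
      have g2 : ‖a * q * (1 - p)‖ < M := lt_of_le_of_ne l2 hc2
      have := norm_le_max hp.2 haq (m := max ‖a * q * p‖ ‖a * q * (1 - p)‖)
        ((norm_nonneg _).trans (le_max_left _ _)) (le_max_left _ _) (le_max_right _ _)
      rw [hqM] at this
      exact absurd (this.trans_lt (max_lt g1 g2)) (lt_irrefl _)
    | algebraMap r =>
      refine ⟨algebraMap_mem B r, fun q hqB hq hqM => ⟨q, hqB, hq, hq.2, hqM, r, ?_⟩⟩
      rw [Algebra.algebraMap_eq_smul_one, smul_mul_assoc, one_mul]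
    | add x y hx hy ihx ihy =>
      refine ⟨add_mem ihx.1 ihy.1, fun q hqB hq hqM => ?_⟩
      obtain ⟨q1, h1, h2, h3, h4, l, h5⟩ := ihx.2 q hqB hq hqM
      obtain ⟨q2, k1, k2, k3, k4, l', k5⟩ := ihy.2 q1 h1 h2 h4
      refine ⟨q2, k1, k2, by rw [← k3, ← mul_assoc, h3], k4, l + l', ?_⟩
      rw [add_mul, k5, add_smul]
      congr 1
      rw [← k3, ← mul_assoc, h5, smul_mul_assoc]
    | mul x y hx hy ihx ihy =>
      refine ⟨mul_mem ihx.1 ihy.1, fun q hqB hq hqM => ?_⟩
      obtain ⟨q1, h1, h2, h3, h4, l, h5⟩ := ihx.2 q hqB hq hqM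
      obtain ⟨q2, k1, k2, k3, k4, l', k5⟩ := ihy.2 q1 h1 h2 h4
      refine ⟨q2, k1, k2, by rw [← k3, ← mul_assoc, h3], k4, l' * l, ?_⟩
      have : x * q2 = l • q2 := by rw [← k3, ← mul_assoc, h5, smul_mul_assoc]
      rw [mul_assoc, k5, mul_smul_comm, this, smul_smul]
    | star x hx ihx =>
      refine ⟨star_mem ihx.1, fun q hqB hq hqM => ?_⟩
      obtain ⟨q1, h1, h2, h3, h4, l, h5⟩ := ihx.2 q hqB hq hqM
      refine ⟨q1, h1, h2, h3, h4, star l, ?_⟩
      have h6 := congrArg star h5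
      rw [star_mul, h2.1, star_smul, h2.1] at h6
      rw [hB _ (star_mem ihx.1) _ h1]
      exact h6
  obtain ⟨x, hx, hax⟩ : ∃ x ∈ StarAlgebra.adjoin ℂ {p : A | p ∈ B ∧ Pr p}, ‖a - x‖ < M / 4 := by
    have h1 : a ∈ (StarAlgebra.adjoin ℂ {p : A | p ∈ B ∧ Pr p}).topologicalClosure := by
      rw [← hgen]; exact ha
    have h2 : a ∈ closure ((StarAlgebra.adjoin ℂ {p : A | p ∈ B ∧ Pr p} : StarSubalgebra ℂ A) :
      Set A) := h1
    obtain ⟨x, hx, hd⟩ := Metric.mem_closure_iff.1 h2 (M / 4) (by positivity)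
    exact ⟨x, hx, by rwa [dist_eq_norm] at hd⟩
  obtain ⟨hxB, hx2⟩ := key x hx
  obtain ⟨q, hqB, hq, -, hqM, l, hl⟩ := hx2 1 (one_mem B) Pr.one (by rw [mul_one])
  have hqn : ‖q‖ ≤ 1 := hq.norm_le
  have hdiff : ‖a * q - l • q‖ ≤ M / 4 := by
    rw [← hl, ← sub_mul]
    calc ‖(a - x) * q‖ ≤ ‖a - x‖ * ‖q‖ := norm_mul_le _ _
      _ ≤ M / 4 * 1 := by gcongr
      _ = _ := mul_one _
  have hln : 3 * M / 4 ≤ ‖l‖ := by
    have h1 : ‖a * q‖ ≤ ‖a * q - l • q‖ + ‖l • q‖ := by
      calc ‖a * q‖ = ‖(a * q - l • q) + l • q‖ := by rw [sub_add_cancel]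
        _ ≤ _ := norm_add_le _ _
    have h2 : ‖l • q‖ ≤ ‖l‖ * 1 := by rw [norm_smul]; gcongr
    rw [hqM] at h1
    linarith
  have hl0 : l ≠ 0 := by
    rintro rfl; rw [norm_zero] at hln; linarith
  have hln0 : 0 < ‖l‖ := norm_pos_iff.2 hl0
  have hq0 : q ≠ 0 := by
    rintro rfl; rw [mul_zero, norm_zero] at hqM; linarith
  set r : A := l⁻¹ • (a * q - l • q) with hr
  have hrn : ‖r‖ < 1 := by
    rw [hr, norm_smul, norm_inv]
    calc ‖l‖⁻¹ * ‖a * q - l • q‖ ≤ ‖l‖⁻¹ * (M / 4) := by gcongr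
      _ < ‖l‖⁻¹ * ‖l‖ := by
          have : 0 < ‖l‖⁻¹ := by positivity
          have : M / 4 < ‖l‖ := by linarith
          gcongr
      _ = 1 := inv_mul_cancel₀ hln0.ne'
  have hu : IsUnit (1 + r) := by
    have : IsUnit (1 - (-r)) := isUnit_one_sub_of_norm_lt_one (by rwa [norm_neg])
    rwa [sub_neg_eq_add] at this
  obtain ⟨u, hu⟩ := hu
  have hrB : r ∈ B := by
    rw [hr]; exact B.smul_mem (sub_mem (mul_mem ha hqB) (B.smul_mem hqB l)) _
  have huB : (u : A) ∈ B := by rw [hu]; exact add_mem (one_mem B) hrB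
  have hau : a * (u : A) = u * a := hB a ha u huB
  have hau' : a * (↑u⁻¹ : A) = ↑u⁻¹ * a := by
    have : Commute a (u : A) := hau
    exact this.units_inv_right.eq
  have haq : a * q = q * a := hB a ha q hqB
  have huq : (u : A) * q = l⁻¹ • (a * q) := by
    rw [hu, add_mul, one_mul, hr, smul_mul_assoc, sub_mul, mul_assoc, hq.2, smul_mul_assoc, hq.2,
      smul_sub, smul_smul, inv_mul_cancel₀ hl0, one_smul]
    abel
  have hqq : q = ↑u⁻¹ * (l⁻¹ • (a * q)) := by
    rw [← huq, ← mul_assoc, Units.inv_mul, one_mul]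
  refine ⟨q, ↑u⁻¹ * (l⁻¹ • q), hq, hq0, ?_, ?_⟩
  · nth_rw 1 [hqq]
    rw [haq, mul_assoc, smul_mul_assoc]
  · nth_rw 1 [hqq]
    rw [← mul_assoc a, hau', mul_assoc, mul_smul_comm l⁻¹ a q]

/-- the annihilator property of suprema -/
lemma sup_ann
    (hM : ∀ B : StarSubalgebra ℂ A, Masa B →
      B = (StarAlgebra.adjoin ℂ {p : A | p ∈ B ∧ Pr p}).topologicalClosure)
    {S : Set A} (hS : ∀ p ∈ S, Pr p) (hSo : ∀ p ∈ S, ∀ q ∈ S, p ≠ q → p * q = 0)
    {e : A} (he : Pr e) (h1 : ∀ p ∈ S, e * p = p)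
    (h2 : ∀ f, Pr f → (∀ p ∈ S, f * p = p) → f * e = e) {y : A} (hy : ∀ p ∈ S, y * p = 0) :
    y * e = 0 := by
  set a : A := star (y * e) * (y * e) with ha
  have hasa : star a = a := by rw [ha]; simp
  have hap : ∀ p ∈ S, a * p = 0 := by
    intro p hp
    rw [ha, mul_assoc, mul_assoc, h1 p hp, hy p hp, mul_zero]
  have hpa : ∀ p ∈ S, p * a = 0 := by
    intro p hp
    have := congrArg star (hap p hp)
    rwa [star_mul, hasa, (hS p hp).1, star_zero] at this
  have hae : a * e = a := by rw [ha, mul_assoc, mul_assoc, he.2]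
  have hea : e * a = a := by
    have := congrArg star hae; rwa [star_mul, hasa, he.1] at this
  have hpe : ∀ p ∈ S, p * e = p := fun p hp => (hS p hp).comm_le he (h1 p hp)
  obtain ⟨B, hB, hSB⟩ := exists_masa (insert a (insert e S)) (by
    intro x hx
    rcases hx with rfl | rfl | hx
    · exact hasa
    · exact he.1
    · exact (hS x hx).1) (by
    intro x hx y' hy'
    rcases hx with hx | hx | hx <;> rcases hy' with hy' | hy' | hy'
    · rw [hx, hy']
    · rw [hx, hy', hae, hea]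
    · rw [hx, hap _ hy', hpa _ hy']
    · rw [hx, hy', hae, hea]
    · rw [hx, hy']
    · rw [hx, h1 _ hy', hpe _ hy']
    · rw [hy', hap _ hx, hpa _ hx]
    · rw [hy', h1 _ hx, hpe _ hx]
    · by_cases hxy : x = y'
      · rw [hxy]
      · rw [hSo x hx y' hy' hxy, hSo y' hy' x hx (Ne.symm hxy)])
  by_cases ha0 : a = 0
  · exact star_self_zero ha0
  exfalso
  obtain ⟨q, b, hq, hq0, hqba, hqab⟩ := proj_below hB.1 (hM B hB)
    (hSB (Set.mem_insert _ _)) ha0
  have heq : e * q = q := by rw [hqab, ← mul_assoc, hea]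
  have hqp : ∀ p ∈ S, q * p = 0 := by
    intro p hp; rw [hqba, mul_assoc, hap p hp, mul_zero]
  have := h2 (e - q) (hq.sub he heq) (by
    intro p hp; rw [sub_mul, h1 p hp, hqp p hp, sub_zero])
  rw [sub_mul, he.2, hq.comm_le he heq] at this
  exact hq0 (sub_eq_self.1 this)

lemma baer_of_aw
    (hM : ∀ B : StarSubalgebra ℂ A, Masa B →
      B = (StarAlgebra.adjoin ℂ {p : A | p ∈ B ∧ Pr p}).topologicalClosure)
    (hsup : ∀ S : Set A, (∀ p ∈ S, Pr p) → (∀ p ∈ S, ∀ q ∈ S, p ≠ q → p * q = 0) →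
      ∃ e, Pr e ∧ (∀ p ∈ S, e * p = p) ∧ ∀ f, Pr f → (∀ p ∈ S, f * p = p) → f * e = e) :
    Baer A := by
  intro S
  let C : Set (Set A) := {W | (∀ p ∈ W, Pr p ∧ p ≠ 0 ∧ ∀ s ∈ S, s * p = 0) ∧
    ∀ p ∈ W, ∀ q ∈ W, p ≠ q → p * q = 0}
  obtain ⟨W, hW⟩ : ∃ W, Maximal (fun W => W ∈ C) W := by
    refine zorn_subset C ?_
    intro c hc hchain
    refine ⟨⋃₀ c, ⟨?_, ?_⟩, fun s hs => Set.subset_sUnion_of_mem hs⟩
    · rintro v ⟨s, hs, hvs⟩
      exact (hc hs).1 v hvs
    · rintro v ⟨s, hs, hvs⟩ w ⟨t, ht, hwt⟩ hvw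
      rcases hchain.total hs ht with h | h
      · exact (hc ht).2 v (h hvs) w hwt hvw
      · exact (hc hs).2 v hvs w (h hwt) hvw
  obtain ⟨⟨hW1, hW2⟩, hWmax⟩ := hW
  obtain ⟨e, he, h1, h2⟩ := hsup W (fun p hp => (hW1 p hp).1) hW2
  have hse : ∀ s ∈ S, s * e = 0 := fun s hs =>
    sup_ann hM (fun p hp => (hW1 p hp).1) hW2 he h1 h2 (fun p hp => (hW1 p hp).2.2 s hs)
  refine ⟨e, he, fun x => ⟨fun hx => ?_, fun hx s hs => ?_⟩⟩
  · by_contra hne
    set z : A := x - e * x with hz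
    have hz0 : z ≠ 0 := by
      intro h; rw [hz, sub_eq_zero] at h; exact hne h.symm
    have hez : e * z = 0 := by rw [hz, mul_sub, ← mul_assoc, he.2, sub_self]
    have hsz : ∀ s ∈ S, s * z = 0 := by
      intro s hs; rw [hz, mul_sub, hx s hs, ← mul_assoc, hse s hs]; simp
    have hc0 : z * star z ≠ 0 := by
      intro h
      have h3 : star (star z) * star z = 0 := by rwa [star_star]
      have := star_self_zero h3
      exact hz0 (by rw [← star_star z, this, star_zero])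
    obtain ⟨B, hB, hSB⟩ := exists_masa {z * star z} (by
      intro x hx; rw [Set.mem_singleton_iff.1 hx]; simp) (by
      intro x hx y hy; rw [Set.mem_singleton_iff.1 hx, Set.mem_singleton_iff.1 hy])
    obtain ⟨q, b, hq, hq0, hqba, hqab⟩ := proj_below hB.1 (hM B hB)
      (hSB (Set.mem_singleton _)) hc0
    have heq : e * q = 0 := by rw [hqab, ← mul_assoc, ← mul_assoc, hez]; simp
    have hsq : ∀ s ∈ S, s * q = 0 := by
      intro s hs; rw [hqab, ← mul_assoc, ← mul_assoc, hsz s hs]; simp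
    have hpq : ∀ p ∈ W, p * q = 0 := by
      intro p hp
      rw [← (hW1 p hp).1.comm_le he (h1 p hp), mul_assoc, heq, mul_zero]
    have hins : insert q W ∈ C := by
      refine ⟨?_, ?_⟩
      · intro p hp
        rcases Set.mem_insert_iff.1 hp with h | h
        · rw [h]; exact ⟨hq, hq0, hsq⟩
        · exact hW1 p h
      · intro p hp p' hp' hne'
        rcases Set.mem_insert_iff.1 hp with h | h <;>
          rcases Set.mem_insert_iff.1 hp' with h' | h'
        · exact absurd (h.trans h'.symm) hne'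
        · rw [h]; exact hq.comm_zero (hW1 p' h').1 (hpq p' h')
        · rw [h']; exact hpq p h
        · exact hW2 p h p' h' hne'
    have hmem := hWmax hins (Set.subset_insert q W) (Set.mem_insert q W)
    apply hq0
    rw [← h1 q hmem, heq]
  · rw [← hx, ← mul_assoc, hse s hs, zero_mul]

lemma prime_of_center (hB : Baer A)
    (hc : ∀ z : A, (∀ x, z * x = x * z) → ∃ c : ℂ, z = c • (1 : A)) : Prime' A := by
  intro a b hab
  by_cases ha : a = 0
  · left; exact ha
  right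
  obtain ⟨p, hp, h⟩ := hB {s | ∃ x, s = a * x}
  have h1 : ∀ x, a * x * p = 0 := fun x => (h p).2 hp.2 _ ⟨x, rfl⟩
  have h2 : ∀ y, p * (y * p) = y * p := by
    intro y
    refine (h _).1 ?_
    rintro s ⟨x, rfl⟩
    rw [← mul_assoc, mul_assoc a]; exact h1 _
  have h3 : ∀ y, p * y = y * p := by
    intro y
    have h4 := congrArg star (h2 (star y))
    rw [star_mul, star_mul, star_star, hp.1, mul_assoc] at h4
    exact h4.symm.trans (h2 y)
  obtain ⟨c, hc'⟩ := hc p h3
  have hpb : p * b = b := by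
    refine (h b).1 ?_
    rintro s ⟨x, rfl⟩
    exact hab x
  have h5 : c = 0 ∨ c = 1 ∨ (1 : A) = 0 := by
    by_cases h1 : (1 : A) = 0
    · exact Or.inr (Or.inr h1)
    have h6 := hp.2
    rw [hc', smul_mul_assoc, one_mul, smul_smul] at h6
    have h7 : (c * c - c) • (1 : A) = 0 := by rw [sub_smul, h6, sub_self]
    rcases smul_eq_zero.1 h7 with h8 | h8
    · have : c * (c - 1) = 0 := by rw [← h8]; ring
      rcases mul_eq_zero.1 this with h9 | h9
      · exact Or.inl h9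
      · exact Or.inr (Or.inl (sub_eq_zero.1 h9))
    · exact absurd h8 h1
  rcases h5 with h6 | h6 | h6
  · rw [← hpb, hc', h6, zero_smul, zero_mul]
  · exfalso
    apply ha
    have := h1 1
    rwa [hc', h6, one_smul, mul_one, mul_one] at this
  · rw [← mul_one b, h6, mul_zero]

end Pool.Agent.V11111.AW
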