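import Mathlib

/-!
Baer C*-algebras: spectral splitting, polar decomposition of elements that are bounded below.
-/

set_option autoImplicit false
set_option linter.unusedSimpArgs false
set_option linter.unusedVariables false

namespace Pool.Agent.V11111.AW

/-- A projection: self-adjoint idempotent. -/
def Pr {A : Type*} [Mul A] [Star A] (p : A) : Prop := star p = p ∧ p * p = p

/-- A Baer *-ring: right annihilators are generated by projections. -/
def Baer (A : Type*) [MulZeroClass A] [Star A] : Prop :=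
  ∀ S : Set A, ∃ p : A, Pr p ∧ ∀ x : A, (∀ s ∈ S, s * x = 0) ↔ p * x = x

section ring

variable {A : Type*} [Ring A] [StarRing A]

lemma Pr.one : Pr (1 : A) := ⟨star_one A, one_mul 1⟩

lemma Pr.zero : Pr (0 : A) := ⟨star_zero A, zero_mul 0⟩

lemma Pr.compl {p : A} (hp : Pr p) : Pr (1 - p) := by
  refine ⟨by rw [star_sub, star_one, hp.1], ?_⟩
  rw [mul_sub, mul_one, sub_mul, one_mul, hp.2, sub_self, sub_zero]

/-- `p ≤ q` one side gives the other. -/
lemma Pr.comm_le {p q : A} (hp : Pr p) (hq : Pr q) (h : q * p = p) : p * q = p := by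
  have := congrArg star h
  rwa [star_mul, hp.1, hq.1] at this

lemma Pr.comm_zero {p q : A} (hp : Pr p) (hq : Pr q) (h : q * p = 0) : p * q = 0 := by
  have := congrArg star h
  rwa [star_mul, hp.1, hq.1, star_zero] at this

lemma Pr.sub {p q : A} (hp : Pr p) (hq : Pr q) (h : q * p = p) : Pr (q - p) := by
  refine ⟨by rw [star_sub, hp.1, hq.1], ?_⟩
  rw [sub_mul, mul_sub, mul_sub, hq.2, h, hp.comm_le hq h, hp.2]; abel

lemma Pr.add {p q : A} (hp : Pr p) (hq : Pr q) (h : q * p = 0) : Pr (p + q) := by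
  refine ⟨by rw [star_add, hp.1, hq.1], ?_⟩
  rw [add_mul, mul_add, mul_add, hp.2, hq.2, h, hp.comm_zero hq h]; abel

end ring

section cstar

variable {A : Type*} [CStarAlgebra A]

lemma star_self_zero {x : A} (h : star x * x = 0) : x = 0 :=
  CStarRing.star_mul_self_eq_zero_iff x |>.1 h

lemma Pr.norm_le {p : A} (hp : Pr p) : ‖p‖ ≤ 1 := by
  have h : ‖p‖ * ‖p‖ = ‖p‖ := by
    have := CStarRing.norm_star_mul_self (x := p)
    rw [hp.1, hp.2] at this
    exact this.symm
  nlinarith [norm_nonneg p]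

lemma pi_right {v e : A} (he : Pr e) (hv : star v * v = e) : v * e = v := by
  have h : v * (1 - e) = 0 := by
    apply star_self_zero
    rw [star_mul, he.compl.1]
    have : (1 - e) * star v * (v * (1 - e)) = (1 - e) * (star v * v) * (1 - e) := by
      simp only [mul_assoc]
    rw [this, hv, sub_mul, one_mul, he.2, sub_self, zero_mul]
  rw [mul_sub, mul_one, sub_eq_zero] at h
  exact h.symm

lemma pi_range {v e : A} (he : Pr e) (hv : star v * v = e) : Pr (v * star v) := by
  refine ⟨by simp, ?_⟩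
  rw [mul_assoc, ← mul_assoc (star v), hv, ← mul_assoc, pi_right he hv]

lemma norm_isometry_le {v : A} (hv : star v * v = 1) : ‖v‖ ≤ 1 := by
  have h := CStarRing.norm_star_mul_self (x := v)
  rw [hv] at h
  have h1 : ‖(1 : A)‖ ≤ 1 := Pr.norm_le Pr.one
  nlinarith [norm_nonneg v]

lemma norm_pi_le {v e : A} (he : Pr e) (hv : star v * v = e) : ‖v‖ ≤ 1 := by
  have h := CStarRing.norm_star_mul_self (x := v)
  rw [hv] at h
  have h1 : ‖e‖ ≤ 1 := he.norm_le
  nlinarith [norm_nonneg v]

section order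

variable [PartialOrder A] [StarOrderedRing A]

/-- spectral splitting of a self-adjoint element -/
lemma split_aux (hB : Baer A) {a Q : A} (ha : star a = a) (hQ : Pr Q) (hQa : Q * a = a) :
    ∃ e : A, Pr e ∧ Q * e = e ∧ a * e = a⁺ ∧ e * a = a⁺ ∧ e * a⁺ = a⁺ ∧ a⁺ * e = a⁺ := by
  obtain ⟨p, hp, h⟩ := hB {a⁺}
  have hsa : IsSelfAdjoint a := ha
  have hpos : star (a⁺) = a⁺ := (CFC.posPart_nonneg a).isSelfAdjoint.star_eq
  have hneg : star (a⁻) = a⁻ := (CFC.negPart_nonneg a).isSelfAdjoint.star_eq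
  have h1 : a⁺ * p = 0 := by
    have := (h p).2 hp.2
    exact this _ rfl
  have h1' : p * a⁺ = 0 := by
    have := congrArg star h1
    rwa [star_mul, hp.1, hpos, star_zero] at this
  have h2 : p * a⁻ = a⁻ := by
    refine (h _).1 ?_
    intro s hs
    rw [Set.mem_singleton_iff.1 hs]
    exact CFC.posPart_mul_negPart a
  have h2' : a⁻ * p = a⁻ := by
    have := congrArg star h2
    rwa [star_mul, hp.1, hneg] at this
  have ha' : a = a⁺ - a⁻ := (CFC.posPart_sub_negPart a hsa).symm
  have h3 : a⁺ * a⁺ = a⁺ * a := by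
    calc a⁺ * a⁺ = a⁺ * (a⁺ - a⁻) := by
          rw [mul_sub, CFC.posPart_mul_negPart, sub_zero]
      _ = a⁺ * a := by rw [CFC.posPart_sub_negPart a hsa]
  have h3' : a * (1 - Q) = 0 := by
    have := congrArg star hQa
    rw [star_mul, hQ.1, ha] at this
    rw [mul_sub, mul_one, this, sub_self]
  have h4 : a⁺ * (1 - Q) = 0 := by
    apply star_self_zero
    rw [star_mul, hpos, hQ.compl.1]
    calc (1 - Q) * a⁺ * (a⁺ * (1 - Q)) = (1 - Q) * (a⁺ * a⁺) * (1 - Q) := by
          simp only [mul_assoc]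
      _ = (1 - Q) * a⁺ * (a * (1 - Q)) := by rw [h3]; simp only [mul_assoc]
      _ = 0 := by rw [h3', mul_zero]
  have h5 : p * (1 - Q) = 1 - Q := by
    refine (h _).1 ?_
    intro s hs
    rw [Set.mem_singleton_iff.1 hs]
    exact h4
  have h5' : (1 - Q) * p = 1 - Q := by
    have := congrArg star h5
    rwa [star_mul, hp.1, hQ.compl.1] at this
  refine ⟨1 - p, hp.compl, ?_, ?_, ?_, ?_, ?_⟩
  · have : (1 - Q) * (1 - p) = 0 := by rw [mul_sub, h5', mul_one, sub_self]
    rw [sub_mul, one_mul, sub_eq_zero] at this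
    exact this.symm
  · calc a * (1 - p) = (a⁺ - a⁻) * (1 - p) := by rw [CFC.posPart_sub_negPart a hsa]
      _ = a⁺ := by rw [sub_mul, mul_sub, mul_sub, h1, h2']; simp
  · calc (1 - p) * a = (1 - p) * (a⁺ - a⁻) := by rw [CFC.posPart_sub_negPart a hsa]
      _ = a⁺ := by rw [sub_mul, mul_sub, mul_sub, h1', h2]; simp
  · rw [sub_mul, h1']; simp
  · rw [mul_sub, h1]; simp

/-- an element bounded below by a positive scalar has a good inverse square root -/
lemma root_aux {m : A} {c : ℝ} (hc : 0 < c) (hm : (algebraMap ℝ A c) ≤ m) :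
    ∃ g : A, star g = g ∧ g * m * g = 1 ∧ ∀ z, z * m = m * z → z * g = g * z := by
  have h0 : IsStrictlyPositive m := by
    refine IsStrictlyPositive.of_le ?_ hm
    rw [IsStrictlyPositive.iff_of_unital]
    refine ⟨algebraMap_nonneg A hc.le, ?_⟩
    exact (IsUnit.mk0 c hc.ne').map (algebraMap ℝ A)
  refine ⟨m ^ (-(1 / 2) : ℝ), ?_, CFC.conjugate_rpow_neg_one_half m h0, ?_⟩
  · exact (CFC.rpow_nonneg (a := m) (y := -(1/2))).isSelfAdjoint.star_eq
  · intro z hz
    have : Commute m z := hz.symm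
    exact (this.cfc_nnreal _).symm.eq

end order

end cstar

end Pool.Agent.V11111.AW
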