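import Pool.Agent.V11111.AW.Toep

/-!
Big projections: one of two complementary projections is big.
-/

set_option autoImplicit false
set_option linter.unusedSimpArgs false
set_option linter.unusedVariables false

namespace Pool.Agent.V11111.AW

variable {A : Type*} [CStarAlgebra A]

/-- one of two complementary projections is big -/
lemma big_or (hB : Baer A) (hA : Prime' A) {s1 s2 : A} (hs : Cz s1 s2) {p : A} (hp : Pr p) :
    Sub 1 p ∨ Sub 1 (1 - p) := by
  obtain ⟨c11, c22, c12, c21, css⟩ := hs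
  set P : A := s1 * star s1 with hP
  set Q : A := s2 * star s2 with hQ
  have hPp : Pr P := pi_range Pr.one c11
  have hQp : Pr Q := pi_range Pr.one c22
  have hPQ : P * Q = 0 := by
    rw [hP, hQ, mul_assoc, ← mul_assoc (star s1), c12]; simp
  have hQP : Q * P = 0 := hQp.comm_zero hPp hPQ
  have hQ1 : Q = 1 - P := by rw [← css]; abel
  set p' : A := 1 - p with hp'
  have hp'p : Pr p' := hp.compl
  have hpp' : p * p' = 0 := by rw [hp', mul_sub, mul_one, hp.2, sub_self]
  have hsum1 : ∀ f : A, Pr f → f * (star p' * p' + star p * p) * f = f := by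
    intro f hf
    rw [hp'p.1, hp'p.2, hp.1, hp.2, hp', sub_add_cancel, mul_one, hf.2]
  have hsum2 : ∀ f : A, Pr f → f * (star P * P + star Q * Q) * f = f := by
    intro f hf
    rw [hPp.1, hPp.2, hQp.1, hQp.2, css, mul_one, hf.2]
  obtain ⟨e, y, he, hPe, hyx, hey, hyn, hsm, hco⟩ :=
    spec hB p' hPp (s := 3 / 5) (by norm_num)
  have heP : e * P = e := he.comm_le hPp hPe
  set Y : A := P - e with hY
  have hYp : Pr Y := he.sub hPp hPe
  have hPY : P * Y = Y := by rw [hY, mul_sub, hPp.2, hPe]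
  have hYP : Y * P = Y := hYp.comm_le hPp hPY
  have hyxe : y * p' * e = e := by
    have := congrArg (· * e) hyx
    simp only [mul_assoc, hPe, he.2] at this
    rwa [← mul_assoc] at this
  have hYe : Y * p' * e = 0 := by
    have h := hco
    rw [hp'p.1, hp'p.2] at h; exact h
  obtain ⟨v1, k1, m1, v1v1, v1eq, v1m, ek1, wk1, k1s⟩ := pol he hyxe
  have v1e : v1 * e = v1 := pi_right he v1v1
  set f : A := v1 * star v1 with hf
  have hfp : Pr f := pi_range he v1v1
  have fv1 : f * v1 = v1 := by rw [hf, mul_assoc, v1v1, v1e]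
  have p'v1 : p' * v1 = v1 := by rw [v1eq, ← mul_assoc, ← mul_assoc, hp'p.2]
  have p'f : p' * f = f := by rw [hf, ← mul_assoc, p'v1]
  have fp' : f * p' = f := hfp.comm_le hp'p p'f
  have Yf : Y * f = 0 := by
    rw [hf, v1eq]; simp only [← mul_assoc]; rw [hYe]; simp
  have fe : f * (p' * e) = p' * e := by
    rw [v1m, ← mul_assoc, fv1]
  set X : A := p' - f with hX
  have hXp : Pr X := hfp.sub hp'p p'f
  have p'X : p' * X = X := by rw [hX, mul_sub, hp'p.2, p'f]
  have Xp' : X * p' = X := hXp.comm_le hp'p p'X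
  have Xe : X * e = 0 := by
    have : X * (p' * e) = 0 := by
      rw [hX, sub_mul, ← mul_assoc, hp'p.2, fe, sub_self]
    rwa [← mul_assoc, Xp'] at this
  have eX : e * X = 0 := he.comm_zero hXp Xe
  have hfX : f * X = 0 := by rw [hX, mul_sub, fp', hfp.2, sub_self]
  -- p Y bounded below
  obtain ⟨y2, hy2, hy2', -⟩ := compl_below (x := p') (x' := p) hYp (hsum1 Y hYp) (s := 3 / 5)
    (by norm_num) (by norm_num) hsm
  obtain ⟨v2, k2, m2, v2v2, v2eq, v2m, ek2, wk2, k2s⟩ := pol (x := p) hYp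
    (y := y2) (by rw [mul_assoc, hy2])
  have v2Y : v2 * Y = v2 := pi_right hYp v2v2
  have pv2 : p * v2 = v2 := by rw [v2eq, ← mul_assoc, ← mul_assoc, hp.2]
  set g : A := v2 * star v2 with hg
  have hgp : Pr g := pi_range hYp v2v2
  have gv2 : g * v2 = v2 := by rw [hg, mul_assoc, v2v2, v2Y]
  have pg : p * g = g := by rw [hg, ← mul_assoc, pv2]
  -- Q X bounded below
  have hPX : ‖P * X‖ ≤ 3 / 5 := by
    have h1 : P * X = Y * p' * X := by
      rw [mul_assoc Y, p'X, hY, sub_mul, eX, sub_zero]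
    have h2 : ‖Y * p'‖ ≤ 3 / 5 := by
      have : Y * p' = star (p' * Y) := by rw [star_mul, hYp.1, hp'p.1]
      rw [this, norm_star]; exact hsm
    calc ‖P * X‖ = ‖Y * p' * X‖ := by rw [h1]
      _ ≤ ‖Y * p'‖ * ‖X‖ := norm_mul_le _ _
      _ ≤ 3 / 5 * 1 := mul_le_mul h2 hXp.norm_le (norm_nonneg _) (by norm_num)
      _ = _ := by norm_num
  obtain ⟨y3, hy3, hy3', -⟩ := compl_below (x := P) (x' := Q) hXp (hsum2 X hXp) (s := 3 / 5)
    (by norm_num) (by norm_num) hPX
  obtain ⟨v3, k3, m3, v3v3, v3eq, v3m, ek3, wk3, k3s⟩ := pol (x := Q) hXp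
    (y := y3) (by rw [mul_assoc, hy3])
  have v3X : v3 * X = v3 := pi_right hXp v3v3
  have Qv3 : Q * v3 = v3 := by rw [v3eq, ← mul_assoc, ← mul_assoc, hQp.2]
  set h : A := v3 * star v3 with hh
  have hhp : Pr h := pi_range hXp v3v3
  have hv3 : h * v3 = v3 := by rw [hh, mul_assoc, v3v3, v3X]
  have Qh : Q * h = h := by rw [hh, ← mul_assoc, Qv3]
  have hQ' : h * Q = h := hhp.comm_le hQp Qh
  set z : A := Q - h with hz
  have hzp : Pr z := hhp.sub hQp Qh
  have Qz : Q * z = z := by rw [hz, mul_sub, hQp.2, Qh]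
  have zQ : z * Q = z := hzp.comm_le hQp Qz
  have zX : z * X = 0 := by
    have h1 : z * (Q * X) = 0 := by
      rw [v3m, ← mul_assoc, hz, sub_mul, Qv3, hv3, sub_self, zero_mul]
    rwa [← mul_assoc, zQ] at h1
  have Xz : X * z = 0 := hXp.comm_zero hzp zX
  have p'z : p' * z = f * z := by
    have : p' = f + X := by rw [hX]; abel
    rw [this, add_mul, Xz, add_zero]
  have Pz : P * z = 0 := by rw [← Qz, ← mul_assoc, hPQ, zero_mul]
  have ez : e * z = 0 := by rw [← heP, mul_assoc, Pz, mul_zero]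
  have Yz : Y * z = 0 := by rw [← hYP, mul_assoc, Pz, mul_zero]
  -- f (1 - e) small
  have hpe : ‖p * e‖ ^ 2 ≤ 1 - (3 / 5 : ℝ) ^ 2 :=
    compl_above (x := p') (x' := p) he hyxe (by norm_num) (by norm_num) hyn (hsum1 e he)
  have hfe : ‖(1 - e) * v1‖ ^ 2 ≤ 1 - (3 / 5 : ℝ) ^ 2 := by
    have h1 : star ((1 - e) * v1) * ((1 - e) * v1) = star (p * e) * (p * e) := by
      have hw : star (p' * e) * (p' * e) = e * p' * e := by
        rw [star_mul, he.1, hp'p.1, mul_assoc, ← mul_assoc p', hp'p.2, ← mul_assoc]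
      rw [hw] at wk1
      have hkk : k1 * (e * p' * e) * k1 = e := by
        have h2 := v1v1
        rw [v1eq, star_mul, k1s] at h2
        calc k1 * (e * p' * e) * k1 = k1 * (star (p' * e) * (p' * e)) * k1 := by rw [hw]
          _ = k1 * star (p' * e) * (p' * e * k1) := by simp only [mul_assoc]
          _ = e := h2
      have h3 : star v1 * e * v1 = e * p' * e := by
        have h4 : star v1 = k1 * (e * p') := by
          rw [v1eq, star_mul, star_mul, k1s, he.1, hp'p.1]
        calc star v1 * e * v1 = k1 * ((e * p' * e) * (e * p' * e)) * k1 := by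
              rw [h4, v1eq]
              have e1 : e * p' * e * (e * p' * e) = e * p' * e * p' * e := by
                calc e * p' * e * (e * p' * e) = e * p' * (e * e) * p' * e := by
                      simp only [mul_assoc]
                  _ = _ := by rw [he.2]
              rw [e1]; simp only [mul_assoc]
          _ = (k1 * (e * p' * e) * k1) * (e * p' * e) := by
              rw [← mul_assoc k1, mul_assoc (k1 * (e * p' * e)), wk1, ← mul_assoc]
          _ = e * (e * p' * e) := by rw [hkk]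
          _ = _ := by rw [← mul_assoc, ← mul_assoc, he.2]
      calc star ((1 - e) * v1) * ((1 - e) * v1) = star v1 * ((1 - e) * (1 - e)) * v1 := by
            rw [star_mul, he.compl.1]; simp only [mul_assoc]
        _ = star v1 * v1 - star v1 * e * v1 := by
            rw [he.compl.2, mul_sub, sub_mul, mul_one]
        _ = e - e * p' * e := by rw [v1v1, h3]
        _ = e * p * e := by
            rw [hp', mul_sub, sub_mul, mul_one, he.2]; abel
        _ = star (p * e) * (p * e) := by
            rw [star_mul, he.1, hp.1, mul_assoc, mul_assoc, ← mul_assoc p p, hp.2]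
    rw [sq, ← CStarRing.norm_star_mul_self, h1, CStarRing.norm_star_mul_self, ← sq]
    exact hpe
  have hfe' : ‖(1 - e) * v1‖ ≤ 4 / 5 := by
    nlinarith [norm_nonneg ((1 - e) * v1)]
  have hp'z : ‖p' * z‖ ≤ 4 / 5 := by
    have h1 : p' * z = v1 * (star ((1 - e) * v1) * z) := by
      have h2 : (1 - e) * z = z := by rw [sub_mul, one_mul, ez, sub_zero]
      rw [p'z, hf, star_mul, he.compl.1, mul_assoc (star v1), h2, mul_assoc]
    rw [h1]
    calc ‖v1 * (star ((1 - e) * v1) * z)‖ ≤ ‖v1‖ * (‖star ((1 - e) * v1)‖ * ‖z‖) :=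
          (norm_mul_le _ _).trans (mul_le_mul_of_nonneg_left (norm_mul_le _ _) (norm_nonneg _))
      _ ≤ 1 * (4 / 5 * 1) := by
          rw [norm_star]
          have a1 := norm_pi_le he v1v1
          have a2 := hzp.norm_le
          gcongr
      _ = _ := by norm_num
  obtain ⟨y4, hy4, hy4', -⟩ := compl_below (x := p') (x' := p) hzp (hsum1 z hzp) (s := 4 / 5)
    (by norm_num) (by norm_num) hp'z
  obtain ⟨v4, k4, m4, v4v4, v4eq, v4m, ek4, wk4, k4s⟩ := pol (x := p) hzp
    (y := y4) (by rw [mul_assoc, hy4])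
  have pv4 : p * v4 = v4 := by rw [v4eq, ← mul_assoc, ← mul_assoc, hp.2]
  have gv4 : g * v4 = 0 := by
    have h1 : star v2 * (p * z) = 0 := by
      have h2 : star v2 = k2 * (Y * p) := by
        rw [v2eq, star_mul, star_mul, k2s, hYp.1, hp.1]
      have h3 : Y * p * (p * z) = 0 := by
        rw [mul_assoc, ← mul_assoc p, hp.2]
        have h4 : p * z = z - p' * z := by rw [hp', sub_mul, one_mul]; abel
        rw [h4, p'z, mul_sub, Yz, ← mul_assoc, Yf, zero_mul, sub_zero]
      rw [h2, mul_assoc, h3, mul_zero]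
    rw [hg, v4eq, mul_assoc, ← mul_assoc (star v2), h1]; simp
  have hpgp : Pr (p - g) := hgp.sub hp pg
  have hv4' : (p - g) * v4 = v4 := by rw [sub_mul, pv4, gv4, sub_zero]
  have hhY : h * Y = 0 := by
    rw [← hQ', ← hPY, mul_assoc, ← mul_assoc Q, hQP]; simp
  have S1 : Sub 1 P := ⟨s1, c11, by rw [hP, mul_assoc, c11, mul_one]⟩
  have S2 : Sub 1 Q := ⟨s2, c22, by rw [hQ, mul_assoc, c22, mul_one]⟩
  rcases compar hB hA hhp hYp hhY with hc | hc
  · -- h ≲ Y : Q ≲ p
    left
    have h1 : Sub h g := hc.trans hhp ⟨v2, v2v2, gv2⟩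
    have h2 : Sub z (p - g) := ⟨v4, v4v4, hv4'⟩
    have h3 : Sub (h + z) (g + (p - g)) := by
      refine Sub.add hgp hpgp ?_ h1 h2
      rw [mul_sub, hgp.comm_le hp pg, hgp.2, sub_self]
    have h4 : h + z = Q := by rw [hz]; abel
    have h5 : g + (p - g) = p := by abel
    rw [h4, h5] at h3
    exact S2.trans Pr.one h3
  · -- Y ≲ h : P ≲ 1 - p
    right
    have h1 : Sub Y X := by
      refine hc.trans hYp ⟨star v3, by rw [star_star], ?_⟩
      have := congrArg star v3X
      rwa [star_mul, hXp.1] at this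
    have h2 : Sub e f := ⟨v1, v1v1, fv1⟩
    have h3 : Sub (e + Y) (f + X) := Sub.add hfp hXp hfX h2 h1
    have h4 : e + Y = P := by rw [hY]; abel
    have h5 : f + X = p' := by rw [hX]; abel
    rw [h4, h5] at h3
    exact S1.trans Pr.one h3

/-- splitting a big projection -/
lemma big_split (hB : Baer A) (hA : Prime' A) {s1 s2 : A} (hs : Cz s1 s2) {P e : A}
    (hP : Pr P) (he : Pr e) (hPe : P * e = e) (hbig : Sub 1 P) : Sub 1 e ∨ Sub 1 (P - e) := by
  obtain ⟨v, hv1, hv2⟩ := hbig
  have hf : Pr (P - e) := he.sub hP hPe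
  -- general claim
  have claim : ∀ (x f : A), Pr f → f * x = x → (∃ q y : A, Sub 1 q ∧ Pr q ∧ y * (x * q) = q) →
      Sub 1 f := by
    rintro x f hf hfx ⟨q, y, ⟨w, hw1, hw2⟩, hq, hy⟩
    have h1 : (star w * y) * (x * w) * 1 = 1 := by
      calc (star w * y) * (x * w) * 1 = star w * (y * (x * q)) * w := by
            rw [mul_one]; nth_rw 2 [← hw2]; simp only [mul_assoc]
        _ = star w * (q * w) := by rw [hy, mul_assoc]
        _ = 1 := by rw [hw2, hw1]
    obtain ⟨u, k, m, hu1, hu2, -⟩ := pol Pr.one h1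
    refine ⟨u, hu1, ?_⟩
    rw [hu2]; simp only [mul_one]; rw [← mul_assoc, ← mul_assoc, hfx]
  obtain ⟨q, y, hq, h1q, hyx, hqy, hyn, hsm, hco⟩ :=
    spec hB (e * v) Pr.one (s := 1 / 2) (by norm_num)
  rcases big_or hB hA hs hq with hb | hb
  · left
    refine claim (e * v) e he (by rw [← mul_assoc, he.2]) ⟨q, y, hb, hq, ?_⟩
    have := congrArg (· * q) hyx
    simp only [mul_one, hq.2] at this
    rwa [mul_assoc] at this
  · right
    refine claim ((P - e) * v) (P - e) hf (by rw [← mul_assoc, hf.2]) ?_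
    obtain ⟨y', hy', -, -⟩ := compl_below (x := e * v) (x' := (P - e) * v) hq.compl (by
      have : star (e * v) * (e * v) + star ((P - e) * v) * ((P - e) * v) = 1 := by
        rw [star_mul, star_mul, he.1, hf.1, mul_assoc, ← mul_assoc e, he.2, mul_assoc,
          ← mul_assoc (P - e), hf.2, ← mul_add, ← add_mul, add_sub_cancel, hv2, hv1]
      rw [this, mul_one, hq.compl.2]) (s := 1 / 2) (by norm_num) (by norm_num) hsm
    exact ⟨1 - q, y', hb, hq.compl, hy'⟩

end Pool.Agent.V11111.AW
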