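import Pool.Agent.V11111.AW.Big

/-!
Elements far from scalars modulo small elements are clean.
-/

set_option autoImplicit false
set_option linter.unusedSimpArgs false
set_option linter.unusedVariables false

namespace Pool.Agent.V11111.AW

variable {A : Type*} [CStarAlgebra A]

/-- exchange -/
lemma exists_exch (hB : Baer A) (k : A) : ∃ q α β : A, Exch k q α β := by
  obtain ⟨g, g', hg, hgg, hgg', hsum⟩ := exch_root' k
  obtain ⟨e, y, he, -, hyx, hey, hyn, hsm, hco⟩ :=
    spec hB (k * g) Pr.one (s := 1 / 2) (by norm_num)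
  rw [mul_one] at hyx
  obtain ⟨y', hy', hy'', z, hz⟩ := compl_below (x := k * g) (x' := (1 - k) * g) he.compl (by
    rw [hsum, mul_one, he.compl.2]) (s := 1 / 2) (by norm_num) (by norm_num) hsm
  have h1 : y' * ((1 - k) * g) * e = 0 := by
    have h2 : star ((1 - k) * g) * ((1 - k) * g) = 1 - star (k * g) * (k * g) :=
      eq_sub_of_add_eq (by rw [add_comm]; exact hsum)
    calc y' * ((1 - k) * g) * e
        = z * ((1 - e) * (star ((1 - k) * g) * ((1 - k) * g)) * e) := by
          rw [hz, star_mul ((1 - k) * g), he.compl.1]; simp only [mul_assoc]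
      _ = z * ((1 - e) * e - (1 - e) * (star (k * g) * (k * g)) * e) := by
          rw [h2, mul_sub, mul_one, sub_mul (1 - e)]
      _ = 0 := by rw [hco, sub_mul, one_mul, he.2]; simp
  have h3 : y' * ((1 - k) * g) = 1 - e := by
    calc y' * ((1 - k) * g) = y' * ((1 - k) * g * (1 - e)) + y' * ((1 - k) * g) * e := by
          rw [mul_assoc y', ← mul_add, ← mul_add, sub_add_cancel, mul_one]
      _ = _ := by rw [hy', h1, add_zero]
  refine ⟨g * e * g', g * y, g * y', ?_, ?_, ?_, ?_, ?_⟩
  · calc g * y * k = g * (y * (k * g)) * g' := by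
          simp only [mul_assoc, hgg, mul_one]
      _ = _ := by rw [hyx]
  · calc g * y' * (1 - k) = g * (y' * ((1 - k) * g)) * g' := by
          simp only [mul_assoc, hgg, mul_one]
      _ = g * (1 - e) * g' := by rw [h3]
      _ = _ := by rw [mul_sub, sub_mul, mul_one, hgg]
  · calc g * e * g' * (g * y) = g * e * (g' * g) * y := by simp only [mul_assoc]
      _ = _ := by rw [hgg', mul_one, mul_assoc, hey]
  · calc g * e * g' * (g * y') = g * e * (g' * g) * y' := by simp only [mul_assoc]
      _ = g * (e * ((1 - e) * y')) := by rw [hgg', mul_one, mul_assoc, hy'']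
      _ = 0 := by rw [← mul_assoc e, mul_sub, mul_one, he.2, sub_self, zero_mul, mul_zero]
  · calc g * e * g' * (g * e * g') = g * e * (g' * g) * e * g' := by simp only [mul_assoc]
      _ = _ := by rw [hgg', mul_one, mul_assoc g, he.2]

/-- `T` moves a big part away from itself. -/
def CaseA (T : A) : Prop := ∃ v L : A, star v * v = 1 ∧ L * v = 0 ∧ L * T * v = 1

lemma caseA_clean (hB : Baer A) {s1 s2 : A} (hs : Cz s1 s2) {T : A} (h : CaseA T) :
    ∃ e : A, e * e = e ∧ IsUnit (T - e) := by
  obtain ⟨v, L, hv, hLv, hLTv⟩ := h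
  have hs0 := hs
  obtain ⟨h11, h22, h12, h21, hss⟩ := hs
  set D : A := star v - star v * (T * v) * L with hD
  set V : A := T * v with hV
  have DV : D * v = 1 := by rw [hD, sub_mul, hv, mul_assoc, hLv, mul_zero, sub_zero]
  have LV : L * V = 1 := by rw [hV, ← mul_assoc, hLTv]
  have DV' : D * V = 0 := by rw [hD, sub_mul, mul_assoc _ L, LV, mul_one, sub_self]
  set e5 : A := 1 - v * D - V * (s1 * star s1) * L with he5
  have e5v : e5 * v = 0 := by
    rw [he5, sub_mul, sub_mul, mul_assoc v, DV, mul_assoc _ L, hLv]; simp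
  have e5V : e5 * (V * s1) = 0 := by
    rw [he5, sub_mul, sub_mul]
    have e1 : v * D * (V * s1) = 0 := by rw [mul_assoc, ← mul_assoc D, DV']; simp
    have e2 : V * (s1 * star s1) * L * (V * s1) = V * s1 := by
      calc V * (s1 * star s1) * L * (V * s1) = V * s1 * (star s1 * ((L * V) * s1)) := by
            simp only [mul_assoc]
        _ = _ := by rw [LV, one_mul, h11, mul_one]
    rw [e1, e2]; simp
  have De5 : D * e5 = 0 := by
    rw [he5, mul_sub, mul_sub, ← mul_assoc D v, DV, one_mul, mul_one, ← mul_assoc D,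
      ← mul_assoc D V, DV']; simp
  have Le5 : star s1 * L * e5 = 0 := by
    have e1 : star s1 * L * (v * D) = 0 := by rw [mul_assoc, ← mul_assoc L, hLv]; simp
    have e2 : star s1 * L * (V * (s1 * star s1) * L) = star s1 * L := by
      calc star s1 * L * (V * (s1 * star s1) * L)
          = star s1 * ((L * V) * s1) * star s1 * L := by simp only [mul_assoc]
        _ = _ := by rw [LV, one_mul, h11, one_mul]
    rw [he5, mul_sub, mul_sub, e1, e2]; simp
  have e5e5 : e5 * e5 = e5 := by
    have e1 : e5 * (V * (s1 * star s1) * L) = 0 := by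
      calc e5 * (V * (s1 * star s1) * L) = (e5 * (V * s1)) * (star s1 * L) := by
            simp only [mul_assoc]
        _ = 0 := by rw [e5V, zero_mul]
    nth_rw 2 [he5]
    rw [mul_sub, mul_sub, mul_one, ← mul_assoc, e5v, e1]; simp
  obtain ⟨c1, c2, d1, d2, hc1, hc2, hc3, hc4, hc5, hc6⟩ := exists_absorb hB hs0 e5e5
  set B4 : A := v * s2 * d1 + d2 with hB4
  set d4 : A := c1 * star s2 * D + c2 * e5 with hd4
  let B : Fin 5 → A := ![v * (s1 * s1), v * (s1 * s2), V * (s1 * s1), V * (s1 * s2), B4]
  let d : Fin 5 → A := ![star s1 * star s1 * D, star s2 * star s1 * D,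
    star s1 * star s1 * L, star s2 * star s1 * L, d4]
  have De : D * d2 = 0 := by rw [← hc6, ← mul_assoc, De5, zero_mul]
  have Le : star s1 * (L * d2) = 0 := by
    rw [← hc6, ← mul_assoc L, ← mul_assoc, ← mul_assoc, Le5, zero_mul]
  have e5V' : e5 * (V * (s1 * s1)) = 0 := by rw [← mul_assoc V, ← mul_assoc, e5V, zero_mul]
  have e5V'' : e5 * (V * (s1 * s2)) = 0 := by rw [← mul_assoc V, ← mul_assoc, e5V, zero_mul]
  have hF : Frame B d := by
    constructor
    · intro i j
      fin_cases i <;> fin_cases j <;>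
      simp [B, d, hB4, hd4, mul_add, add_mul, mul_assoc, assoc_of DV, assoc_of LV,
        assoc_of DV', assoc_of hLv, DV, LV, DV', hLv, h11, h22, h12, h21, assoc_of h11,
        assoc_of h22, assoc_of h12, assoc_of h21, De, Le, e5V', e5V'', assoc_of e5v, hc6,
        assoc_of hc1, hc5]
    · have e1 : B4 * d4 = v * (s2 * star s2) * D + e5 := by
        have a1 : d1 * c1 = 1 := hc1
        calc B4 * d4 = v * s2 * (d1 * c1) * star s2 * D + v * s2 * (d1 * c2) * e5 +
              (d2 * c1) * star s2 * D + (d2 * c2) * e5 := by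
              rw [hB4, hd4]; simp only [add_mul, mul_add, mul_assoc]; abel
          _ = _ := by
              rw [hc1, hc2, hc3, hc4, e5e5]; simp [mul_assoc]
      have e2 : ∑ i, B i * d i = v * (s1 * (s1 * star s1 + s2 * star s2) * star s1) * D +
          V * (s1 * (s1 * star s1 + s2 * star s2) * star s1) * L + B4 * d4 := by
        simp only [Fin.sum_univ_five, B, d]
        simp [mul_add, add_mul, mul_assoc]; abel
      rw [e2, e1, hss, he5, mul_one]
      have e3 : v * (s1 * star s1) * D + v * (s2 * star s2) * D = v * D := by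
        rw [← add_mul, ← mul_add, hss, mul_one]
      have e4 : v * (s1 * star s1) * D + V * (s1 * star s1) * L +
        (v * (s2 * star s2) * D + (1 - v * D - V * (s1 * star s1) * L)) =
        (v * (s1 * star s1) * D + v * (s2 * star s2) * D) + (1 - v * D) := by abel
      rw [e4, e3]; abel
  obtain ⟨q, α, β, hx⟩ := exists_exch hB (d 4 * T * B 4)
  have hq1 : (1 - q) * (1 - q) = 1 - q := by
    rw [mul_sub, mul_one, sub_mul, one_mul, hx.hqq, sub_self, sub_zero]
  obtain ⟨_, _, _, _, habs⟩ := exists_absorb hB hs0 hx.hqq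
  obtain ⟨_, _, _, _, habs'⟩ := exists_absorb hB hs0 hq1
  exact clean_of_frame hF T (by simp [B, hV, mul_assoc]) (by simp [B, hV, mul_assoc]) hx
    h11 h12 h21 h22 hss habs habs'

end Pool.Agent.V11111.AW
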