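import Pool.Agent.V11111.AW.CaseA

/-!
Elements that are not in the first case are scalars plus small elements.
-/

set_option autoImplicit false
set_option linter.unusedSimpArgs false
set_option linter.unusedVariables false

namespace Pool.Agent.V11111.AW

variable {A : Type*} [CStarAlgebra A]

lemma nr1 (hB : Baer A) (hA : Prime' A) {s1 s2 : A} (hs : Cz s1 s2) {a P : A}
    (ha : star a = a) (hP : Pr P) (hbig : Sub 1 P) (n : ℕ) :
    ∃ (Q : A) (c : ℝ), Pr Q ∧ Sub 1 Q ∧ P * Q = Q ∧ ‖Q * a * Q - c • Q‖ ≤ ‖a‖ / 2 ^ n := by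
  induction n with
  | zero =>
    refine ⟨P, 0, hP, hbig, hP.2, ?_⟩
    rw [zero_smul, sub_zero, pow_zero, div_one]
    calc ‖P * a * P‖ ≤ ‖P‖ * ‖a‖ * ‖P‖ :=
          (norm_mul_le _ _).trans (mul_le_mul_of_nonneg_right (norm_mul_le _ _) (norm_nonneg _))
      _ ≤ 1 * ‖a‖ * 1 := by
          have := hP.norm_le
          gcongr
      _ = _ := by ring
  | succ n ih =>
    obtain ⟨Q, c, hQ, hQb, hPQ, hn⟩ := ih
    obtain ⟨e, he, hQe, h1, h2⟩ := halve hB ha hQ hn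
    have hl : ‖a‖ / 2 ^ n / 2 = ‖a‖ / 2 ^ (n + 1) := by
      rw [pow_succ]; field_simp
    rcases big_split hB hA hs hQ he hQe hQb with hb | hb
    · exact ⟨e, _, he, hb, by rw [← hQe, ← mul_assoc, hPQ], by rw [← hl]; exact h1⟩
    · refine ⟨Q - e, _, he.sub hQ hQe, hb, ?_, by rw [← hl]; exact h2⟩
      have : P * e = e := by rw [← hQe, ← mul_assoc, hPQ]
      rw [mul_sub, hPQ, this]

lemma nr2 (hB : Baer A) (hA : Prime' A) {s1 s2 : A} (hs : Cz s1 s2) {a P : A}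
    (ha : star a = a) (hP : Pr P) (hbig : Sub 1 P) {ε : ℝ} (hε : 0 < ε) :
    ∃ (Q : A) (c : ℝ), Pr Q ∧ Sub 1 Q ∧ P * Q = Q ∧ ‖Q * a * Q - c • Q‖ ≤ ε := by
  obtain ⟨n, hn⟩ : ∃ n : ℕ, ‖a‖ / 2 ^ n ≤ ε := by
    have h := tendsto_pow_atTop_nhds_zero_of_lt_one (r := (1 / 2 : ℝ)) (by norm_num)
      (by norm_num)
    have h2 := h.const_mul ‖a‖
    rw [mul_zero] at h2
    obtain ⟨n, hn⟩ := (h2.eventually (gt_mem_nhds hε)).exists
    refine ⟨n, ?_⟩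
    have : ‖a‖ / 2 ^ n = ‖a‖ * (1 / 2) ^ n := by rw [one_div, inv_pow]; rfl
    rw [this]; exact hn.le
  obtain ⟨Q, c, h1, h2, h3, h4⟩ := nr1 hB hA hs ha hP hbig n
  exact ⟨Q, c, h1, h2, h3, h4.trans hn⟩

lemma compress_le {Q P x : A} (hQ : Pr Q) (hP : Pr P) (hPQ : P * Q = Q) {c : ℂ} {ε : ℝ}
    (h : ‖P * x * P - c • P‖ ≤ ε) : ‖Q * x * Q - c • Q‖ ≤ ε := by
  have hQP : Q * P = Q := hQ.comm_le hP hPQ
  have h1 : Q * x * Q - c • Q = Q * (P * x * P - c • P) * Q := by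
    rw [mul_sub, sub_mul, mul_smul_comm, smul_mul_assoc, hQP, hQ.2]
    congr 1
    calc Q * x * Q = (Q * P) * x * (P * Q) := by rw [hQP, hPQ]
      _ = _ := by simp only [mul_assoc]
  rw [h1]
  calc ‖Q * (P * x * P - c • P) * Q‖ ≤ ‖Q‖ * ‖P * x * P - c • P‖ * ‖Q‖ :=
        (norm_mul_le _ _).trans (mul_le_mul_of_nonneg_right (norm_mul_le _ _) (norm_nonneg _))
    _ ≤ 1 * ε * 1 := by
        have := hQ.norm_le
        have hε0 : 0 ≤ ε := (norm_nonneg _).trans h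
        gcongr
    _ = _ := by ring

lemma nr3 (hB : Baer A) (hA : Prime' A) {s1 s2 : A} (hs : Cz s1 s2) (T : A) {P : A}
    (hP : Pr P) (hbig : Sub 1 P) {ε : ℝ} (hε : 0 < ε) :
    ∃ (Q : A) (c : ℂ), Pr Q ∧ Sub 1 Q ∧ P * Q = Q ∧ ‖Q * T * Q - c • Q‖ ≤ ε := by
  set a : A := (1 / 2 : ℂ) • (T + star T) with ha
  set b : A := (-Complex.I / 2 : ℂ) • (T - star T) with hb
  have has : star a = a := by
    rw [ha, star_smul, star_add, star_star, add_comm]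
    congr 1
    simp
  have hbs : star b = b := by
    rw [hb, star_smul, star_sub, star_star]
    have : star (-Complex.I / 2 : ℂ) = -(-Complex.I / 2 : ℂ) := by
      simp [neg_div]
    rw [this, neg_smul, ← smul_neg, neg_sub]
  have hT : T = a + Complex.I • b := by
    rw [ha, hb, smul_smul]
    have : Complex.I * (-Complex.I / 2) = 1 / 2 := by
      rw [mul_div_assoc', mul_neg, Complex.I_mul_I]; norm_num
    rw [this, ← smul_add]
    have h2 : T + star T + (T - star T) = (2 : ℂ) • T := by rw [two_smul]; abel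
    rw [h2, smul_smul]; norm_num
  obtain ⟨Q1, c1, hQ1, hb1, hPQ1, hn1⟩ := nr2 hB hA hs has hP hbig (ε := ε / 2) (by positivity)
  obtain ⟨Q, c2, hQ, hb2, hQQ, hn2⟩ := nr2 hB hA hs hbs hQ1 hb1 (ε := ε / 2) (by positivity)
  have hn1' : ‖Q1 * a * Q1 - (c1 : ℂ) • Q1‖ ≤ ε / 2 := by
    have : (c1 : ℂ) • Q1 = c1 • Q1 := Complex.coe_smul c1 Q1
    rw [this]; exact hn1
  have hn3 : ‖Q * a * Q - (c1 : ℂ) • Q‖ ≤ ε / 2 := compress_le hQ hQ1 hQQ hn1'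
  have hn4 : ‖Q * b * Q - (c2 : ℂ) • Q‖ ≤ ε / 2 := by
    have : (c2 : ℂ) • Q = c2 • Q := Complex.coe_smul c2 Q
    rw [this]; exact hn2
  refine ⟨Q, (c1 : ℂ) + Complex.I * c2, hQ, hb2, by rw [← hQQ, ← mul_assoc, hPQ1], ?_⟩
  have h5 : Q * T * Q - ((c1 : ℂ) + Complex.I * c2) • Q =
      (Q * a * Q - (c1 : ℂ) • Q) + Complex.I • (Q * b * Q - (c2 : ℂ) • Q) := by
    rw [hT]
    simp only [mul_add, add_mul, mul_smul_comm, smul_mul_assoc, add_smul, smul_sub, smul_smul]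
    abel
  rw [h5]
  calc _ ≤ ‖Q * a * Q - (c1 : ℂ) • Q‖ + ‖Complex.I • (Q * b * Q - (c2 : ℂ) • Q)‖ :=
        norm_add_le _ _
    _ ≤ ε / 2 + ε / 2 := by
        refine add_le_add hn3 ?_
        rw [norm_smul, Complex.norm_I, one_mul]; exact hn4
    _ = ε := by ring

lemma nr4 (hB : Baer A) (hA : Prime' A) {s1 s2 : A} (hs : Cz s1 s2) {T : A}
    (hT : ¬ CaseA T) {Q : A} (hQ : Pr Q) (hbig : Sub 1 Q) {ε : ℝ} (hε : 0 < ε) :
    ∃ Q' : A, Pr Q' ∧ Sub 1 Q' ∧ Q * Q' = Q' ∧ ‖(1 - Q) * T * Q'‖ ≤ ε := by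
  obtain ⟨e, y, he, hQe, hyx, hey, hyn, hsm, hco⟩ := spec hB ((1 - Q) * T) hQ hε
  rcases big_split hB hA hs hQ he hQe hbig with hb | hb
  · exfalso
    apply hT
    obtain ⟨v, hv1, hv2⟩ := hb
    have hQv : Q * v = v := by rw [← hv2, ← mul_assoc, hQe]
    refine ⟨v, star v * y * (1 - Q), hv1, ?_, ?_⟩
    · rw [mul_assoc, sub_mul, one_mul, hQv, sub_self, mul_zero]
    · calc star v * y * (1 - Q) * T * v = star v * (y * ((1 - Q) * T) * Q) * v := by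
            nth_rw 2 [← hQv]; simp only [mul_assoc]
        _ = 1 := by rw [hyx, mul_assoc, hv2, hv1]
  · refine ⟨Q - e, he.sub hQ hQe, hb, by rw [mul_sub, hQ.2, hQe], hsm⟩

lemma nr5 (hB : Baer A) (hA : Prime' A) {s1 s2 : A} (hs : Cz s1 s2) {T : A}
    (hT : ¬ CaseA T) (hT' : ¬ CaseA (star T)) {P : A} (hP : Pr P) (hbig : Sub 1 P) {ε : ℝ}
    (hε : 0 < ε) :
    ∃ (Q : A) (c : ℂ), Pr Q ∧ Sub 1 Q ∧ P * Q = Q ∧ ‖T * Q - c • Q‖ ≤ ε ∧
      ‖Q * T - c • Q‖ ≤ ε := by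
  obtain ⟨Q0, c, hQ0, hb0, hPQ0, hn0⟩ := nr3 hB hA hs T hP hbig (ε := ε / 2) (by positivity)
  obtain ⟨Q1, hQ1, hb1, hQ01, hn1⟩ := nr4 hB hA hs hT hQ0 hb0 (ε := ε / 2) (by positivity)
  obtain ⟨Q2, hQ2, hb2, hQ12, hn2⟩ := nr4 hB hA hs hT' hQ1 hb1 (ε := ε / 2) (by positivity)
  have hQ02 : Q0 * Q2 = Q2 := by rw [← hQ12, ← mul_assoc, hQ01]
  have hn3 : ‖Q1 * T * Q1 - c • Q1‖ ≤ ε / 2 := compress_le hQ1 hQ0 hQ01 hn0
  have hQ21 : Q2 * Q1 = Q2 := hQ2.comm_le hQ1 hQ12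
  have hQ2n := hQ2.norm_le
  refine ⟨Q2, c, hQ2, hb2, by rw [← hQ02, ← mul_assoc, hPQ0], ?_, ?_⟩
  · have h1 : T * Q2 - c • Q2 = (Q0 * T * Q0 - c • Q0) * Q2 + (1 - Q0) * T * Q1 * Q2 := by
      rw [mul_assoc _ Q1, hQ12, sub_mul _ _ Q2, mul_assoc _ Q0, hQ02, smul_mul_assoc, hQ02,
        sub_mul 1 Q0 T, one_mul, sub_mul T]
      abel
    rw [h1]
    calc _ ≤ ‖(Q0 * T * Q0 - c • Q0) * Q2‖ + ‖(1 - Q0) * T * Q1 * Q2‖ := norm_add_le _ _
      _ ≤ ε / 2 * 1 + ε / 2 * 1 := by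
          refine add_le_add ?_ ?_
          · exact (norm_mul_le _ _).trans (mul_le_mul hn0 hQ2n (norm_nonneg _) (by positivity))
          · exact (norm_mul_le _ _).trans (mul_le_mul hn1 hQ2n (norm_nonneg _) (by positivity))
      _ = ε := by ring
  · have h1 : Q2 * T - c • Q2 = Q2 * (Q1 * T * Q1 - c • Q1) + star ((1 - Q1) * star T * Q2) := by
      rw [star_mul, star_mul, star_star, hQ2.1, hQ1.compl.1, mul_sub, mul_smul_comm,
        ← mul_assoc, ← mul_assoc, hQ21, mul_sub T, mul_one, mul_sub Q2, ← mul_assoc]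
      abel
    rw [h1]
    calc _ ≤ ‖Q2 * (Q1 * T * Q1 - c • Q1)‖ + ‖star ((1 - Q1) * star T * Q2)‖ :=
          norm_add_le _ _
      _ ≤ 1 * (ε / 2) + ε / 2 := by
          refine add_le_add ?_ ?_
          · exact (norm_mul_le _ _).trans (mul_le_mul hQ2n hn3 (norm_nonneg _) (by positivity))
          · rw [norm_star]; exact hn2
      _ = ε := by ring

lemma big_norm [Nontrivial A] {Q : A} (hQ : Pr Q) (h : Sub 1 Q) : ‖Q‖ = 1 := by
  have h0 : Q ≠ 0 := by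
    rintro rfl
    obtain ⟨v, hv, hv'⟩ := h
    rw [zero_mul] at hv'
    rw [← hv', mul_zero] at hv
    exact zero_ne_one hv
  have h1 : ‖Q‖ * ‖Q‖ = ‖Q‖ := by
    have := CStarRing.norm_star_mul_self (x := Q)
    rw [hQ.1, hQ.2] at this
    exact this.symm
  have h2 : ‖Q‖ ≠ 0 := norm_ne_zero_iff.2 h0
  exact mul_left_cancel₀ h2 (by rw [h1, mul_one])

lemma nr6 [Nontrivial A] (hB : Baer A) (hA : Prime' A) {s1 s2 : A} (hs : Cz s1 s2) {T : A}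
    (hT : ¬ CaseA T) (hT' : ¬ CaseA (star T)) :
    ∃ c : ℂ, ∀ ε : ℝ, 0 < ε → ∃ Q : A, Pr Q ∧ Sub 1 Q ∧ ‖T * Q - c • Q‖ ≤ ε ∧
      ‖Q * T - c • Q‖ ≤ ε := by
  have hF : ∀ (P : {P : A // Pr P ∧ Sub (1 : A) P}) (n : ℕ), ∃ (Q : {P : A // Pr P ∧ Sub (1 : A) P}) (c : ℂ), (P : A) * Q = Q ∧
      ‖T * Q - c • (Q : A)‖ ≤ (1 / 2) ^ n ∧ ‖(Q : A) * T - c • (Q : A)‖ ≤ (1 / 2) ^ n := by
    intro P n
    obtain ⟨Q, c, hQ, hb, h1, h2, h3⟩ := nr5 hB hA hs hT hT' P.2.1 P.2.2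
      (ε := (1 / 2) ^ n) (by positivity)
    exact ⟨⟨Q, hQ, hb⟩, c, h1, h2, h3⟩
  choose F cc h1 h2 h3 using hF
  obtain ⟨X, l, hXp, hXb, a1, a2, a3⟩ : ∃ (X : ℕ → A) (l : ℕ → ℂ), (∀ n, Pr (X n)) ∧
      (∀ n, Sub 1 (X n)) ∧ (∀ n, X n * X (n + 1) = X (n + 1)) ∧
      (∀ n, ‖T * X (n + 1) - l n • X (n + 1)‖ ≤ (1 / 2) ^ n) ∧
      (∀ n, ‖X (n + 1) * T - l n • X (n + 1)‖ ≤ (1 / 2) ^ n) := by
    let Y : ℕ → {P : A // Pr P ∧ Sub (1 : A) P} :=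
      fun n => Nat.rec ⟨1, Pr.one, ⟨1, by simp, by simp⟩⟩ (fun n P => F P n) n
    exact ⟨fun n => (Y n).1, fun n => cc (Y n) n, fun n => (Y n).2.1, fun n => (Y n).2.2,
      fun n => h1 (Y n) n, fun n => h2 (Y n) n, fun n => h3 (Y n) n⟩
  have hn : ∀ n, ‖X n‖ = 1 := fun n => big_norm (hXp n) (hXb n)
  have hdist : ∀ n, dist (l n) (l (n + 1)) ≤ 4 / 2 / 2 ^ n := by
    intro n
    have b1 : ‖T * X (n + 2) - l n • X (n + 2)‖ ≤ (1 / 2) ^ n := by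
      have : T * X (n + 2) - l n • X (n + 2) =
          (T * X (n + 1) - l n • X (n + 1)) * X (n + 2) := by
        rw [sub_mul, mul_assoc, a1 (n + 1), smul_mul_assoc, a1 (n + 1)]
      rw [this]
      refine (norm_mul_le _ _).trans ?_
      rw [hn, mul_one]; exact a2 n
    have b2 := a2 (n + 1)
    have b3 : ‖(l n - l (n + 1)) • X (n + 2)‖ ≤ (1 / 2) ^ n + (1 / 2) ^ (n + 1) := by
      have : (l n - l (n + 1)) • X (n + 2) =
          (T * X (n + 2) - l (n + 1) • X (n + 2)) -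
          (T * X (n + 2) - l n • X (n + 2)) := by
        rw [sub_smul]; abel
      rw [this]
      refine (norm_sub_le _ _).trans ?_
      rw [add_comm]
      exact add_le_add b1 b2
    rw [norm_smul, hn, mul_one] at b3
    rw [Complex.dist_eq]
    refine b3.trans ?_
    have : (4 / 2 / 2 ^ n : ℝ) = 2 * (1 / 2) ^ n := by
      rw [one_div, inv_pow]; ring
    rw [this, pow_succ]
    have : (0 : ℝ) ≤ (1 / 2) ^ n := by positivity
    linarith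
  have hcau := cauchySeq_of_le_geometric_two hdist
  obtain ⟨c, hc⟩ := cauchySeq_tendsto_of_complete hcau
  refine ⟨c, fun ε hε => ?_⟩
  obtain ⟨n, hn'⟩ : ∃ n : ℕ, 5 * (1 / 2 : ℝ) ^ n ≤ ε := by
    have h := tendsto_pow_atTop_nhds_zero_of_lt_one (r := (1 / 2 : ℝ)) (by norm_num)
      (by norm_num)
    have h2 := h.const_mul 5
    rw [mul_zero] at h2
    obtain ⟨n, hn⟩ := (h2.eventually (gt_mem_nhds hε)).exists
    exact ⟨n, hn.le⟩
  have hd : ‖l n - c‖ ≤ 4 * (1 / 2) ^ n := by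
    have := dist_le_of_le_geometric_two_of_tendsto hdist hc n
    rw [Complex.dist_eq] at this
    rw [one_div, inv_pow]
    exact this
  have gen : ∀ z : A, ‖z - l n • X (n + 1)‖ ≤ (1 / 2) ^ n →
      ‖z - c • X (n + 1)‖ ≤ ε := by
    intro z hz
    have : z - c • X (n + 1) = (z - l n • X (n + 1)) +
        (l n - c) • X (n + 1) := by rw [sub_smul]; abel
    rw [this]
    refine (norm_add_le _ _).trans ?_
    rw [norm_smul, hn, mul_one]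
    calc _ ≤ (1 / 2) ^ n + 4 * (1 / 2) ^ n := add_le_add hz hd
      _ = 5 * (1 / 2 : ℝ) ^ n := by ring
      _ ≤ ε := hn'
  exact ⟨X (n + 1), hXp _, hXb _, gen _ (a2 n), gen _ (a3 n)⟩

end Pool.Agent.V11111.AW
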