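import Pool.Agent.V11111.AW.Spec

/-!
Suprema, orthogonal additivity, orthogonal comparability.
-/

set_option autoImplicit false
set_option linter.unusedSimpArgs false
set_option linter.unusedVariables false

namespace Pool.Agent.V11111.AW

variable {A : Type*} [CStarAlgebra A]

/-- `E` is the supremum projection of the family. -/
def IsSup {ι : Type*} (e : ι → A) (E : A) : Prop :=
  Pr E ∧ (∀ i, e i * E = e i) ∧ ∀ y, (∀ i, y * e i = 0) → y * E = 0

lemma exists_sup (hB : Baer A) {ι : Type*} (e : ι → A) (he : ∀ i, star (e i) = e i) :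
    ∃ E, IsSup e E := by
  obtain ⟨p, hp, h⟩ := hB (Set.range e)
  refine ⟨1 - p, hp.compl, ?_, ?_⟩
  · intro i
    have := (h p).2 hp.2 (e i) ⟨i, rfl⟩
    rw [mul_sub, this, mul_one, sub_zero]
  · intro y hy
    have h1 : p * star y = star y := by
      refine (h _).1 ?_
      rintro s ⟨i, rfl⟩
      have := congrArg star (hy i)
      rwa [star_mul, star_zero, he] at this
    have h2 := congrArg star h1
    rw [star_mul, star_star, hp.1] at h2
    rw [mul_sub, mul_one, h2, sub_self]

lemma IsSup.left {ι : Type*} {e : ι → A} {E : A} (hE : IsSup e E) (he : ∀ i, star (e i) = e i)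
    (i : ι) : E * e i = e i := by
  have := congrArg star (hE.2.1 i)
  rwa [star_mul, he, hE.1.1] at this

lemma IsSup.zero_left {ι : Type*} {e : ι → A} {E : A} (hE : IsSup e E)
    (he : ∀ i, star (e i) = e i) {y : A} (hy : ∀ i, e i * y = 0) : E * y = 0 := by
  have h : star y * E = 0 := by
    refine hE.2.2 _ fun i => ?_
    have := congrArg star (hy i)
    rwa [star_mul, he, star_zero] at this
  have := congrArg star h
  rwa [star_mul, star_star, hE.1.1, star_zero] at this

/-- Murray-von Neumann subequivalence. -/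
def Sub (e f : A) : Prop := ∃ v : A, star v * v = e ∧ f * v = v

lemma Sub.trans {e f g : A} (he : Pr e) (h1 : Sub e f) (h2 : Sub f g) : Sub e g := by
  obtain ⟨v, hv1, hv2⟩ := h1
  obtain ⟨w, hw1, hw2⟩ := h2
  refine ⟨w * v, ?_, by rw [← mul_assoc, hw2]⟩
  rw [star_mul, mul_assoc, ← mul_assoc (star w), hw1, hv2, hv1]

lemma Sub.of_le {e f : A} (he : Pr e) (h : f * e = e) : Sub e f :=
  ⟨e, by rw [he.1, he.2], h⟩

lemma Sub.mono {e f g : A} (h1 : Sub e f) (h : g * f = f) : Sub e g := by
  obtain ⟨v, hv1, hv2⟩ := h1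
  exact ⟨v, hv1, by rw [← hv2, ← mul_assoc, h]⟩

lemma Sub.add {e f e' f' : A} (hf : Pr f) (hf' : Pr f') (hff : f * f' = 0)
    (h1 : Sub e f) (h2 : Sub e' f') : Sub (e + e') (f + f') := by
  obtain ⟨v, hv1, hv2⟩ := h1
  obtain ⟨w, hw1, hw2⟩ := h2
  have hff' : f' * f = 0 := by
    have := congrArg star hff
    rwa [star_mul, hf.1, hf'.1, star_zero] at this
  have h3 : f * w = 0 := by rw [← hw2, ← mul_assoc, hff, zero_mul]
  have h4 : f' * v = 0 := by rw [← hv2, ← mul_assoc, hff', zero_mul]
  have h5 : star v * w = 0 := by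
    have : star v * f = star v := by
      have := congrArg star hv2; rwa [star_mul, hf.1] at this
    rw [← this, mul_assoc, h3, mul_zero]
  have h6 : star w * v = 0 := by
    have := congrArg star h5
    rwa [star_mul, star_star, star_zero] at this
  refine ⟨v + w, ?_, ?_⟩
  · rw [star_add, add_mul, mul_add, mul_add, hv1, hw1, h5, h6]; abel
  · rw [add_mul, mul_add, mul_add, hv2, hw2, h3, h4]; abel

/-- orthogonal additivity -/
lemma orth_add (hB : Baer A) {ι : Type*} (v : ι → A)
    (hp : ∀ i, v i * (star (v i) * v i) = v i)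
    (h1 : ∀ i j, i ≠ j → star (v i) * v j = 0) (h2 : ∀ i j, i ≠ j → v i * star (v j) = 0)
    (h3 : ∀ i j, v i * v j = 0) {E F : A} (hE : IsSup (fun i => star (v i) * v i) E)
    (hF : IsSup (fun i => v i * star (v i)) F) : Sub E F := by
  set e : ι → A := fun i => star (v i) * v i with he
  set f : ι → A := fun i => v i * star (v i) with hf
  have hes : ∀ i, star (e i) = e i := fun i => by simp [he]
  have hfs : ∀ i, star (f i) = f i := fun i => by simp [hf]
  have h3s : ∀ i j, star (v i) * star (v j) = 0 := by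
    intro i j; rw [← star_mul, h3, star_zero]
  have hp1 : ∀ i, v i * e i = v i := hp
  have hp2 : ∀ i, f i * v i = v i := fun i => by rw [hf]; simp only []; rw [mul_assoc, hp i]
  have hp3 : ∀ i, e i * star (v i) = star (v i) := fun i => by
    have := congrArg star (hp1 i); rwa [star_mul, hes] at this
  have hp4 : ∀ i, star (v i) * f i = star (v i) := fun i => by
    have := congrArg star (hp2 i); rwa [star_mul, hfs] at this
  have ee : ∀ i, e i * e i = e i := fun i => by
    show star (v i) * v i * e i = _
    rw [mul_assoc, hp1]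
  have ff : ∀ i, f i * f i = f i := fun i => by
    show f i * (v i * star (v i)) = _
    rw [← mul_assoc, hp2]
  have ef : ∀ i j, e i * f j = 0 := fun i j => by
    show star (v i) * v i * (v j * star (v j)) = 0
    rw [mul_assoc, ← mul_assoc (v i), h3]; simp
  have fe : ∀ i j, f i * e j = 0 := fun i j => by
    have := congrArg star (ef j i); rwa [star_mul, hes, hfs, star_zero] at this
  have ev : ∀ i j, e i * v j = 0 := fun i j => by
    show star (v i) * v i * v j = 0
    rw [mul_assoc, h3, mul_zero]
  have sve : ∀ i j, star (v i) * e j = 0 := fun i j => by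
    have := congrArg star (ev j i); rwa [star_mul, hes, star_zero] at this
  have vf : ∀ i j, v i * f j = 0 := fun i j => by
    show v i * (v j * star (v j)) = 0
    rw [← mul_assoc, h3, zero_mul]
  have fsv : ∀ i j, f i * star (v j) = 0 := fun i j => by
    have := congrArg star (vf j i); rwa [star_mul, hfs, star_zero] at this
  set g : ι → A := fun i => (1 / 2 : ℝ) • (e i + f i + v i + star (v i)) with hg
  have hgs : ∀ i, star (g i) = g i := fun i => by
    rw [hg]; simp only [star_smul, star_add, hes, hfs, star_star, star_trivial]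
    congr 1; abel
  have eg : ∀ i, e i * g i = (1 / 2 : ℝ) • (e i + star (v i)) := fun i => by
    rw [hg]; simp only [mul_smul_comm, mul_add, ee, ef, ev, hp3, add_zero]
  have fg : ∀ i, f i * g i = (1 / 2 : ℝ) • (f i + v i) := fun i => by
    rw [hg]; simp only [mul_smul_comm, mul_add, ff, fe, hp2, fsv, add_zero, zero_add]
  have svg : ∀ i, star (v i) * g i = (1 / 2 : ℝ) • (star (v i) + e i) := fun i => by
    rw [hg]; simp only [mul_smul_comm, mul_add, sve, hp4, h3s, add_zero, zero_add]
    rfl
  have vg : ∀ i, v i * g i = (1 / 2 : ℝ) • (v i + f i) := fun i => by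
    rw [hg]; simp only [mul_smul_comm, mul_add, hp1, vf, h3, add_zero, zero_add]
    rfl
  have svf' : ∀ i j, i ≠ j → star (v i) * f j = 0 := fun i j hij => by
    show star (v i) * (v j * star (v j)) = 0
    rw [← mul_assoc, h1 i j hij, zero_mul]
  have ve' : ∀ i j, i ≠ j → v i * e j = 0 := fun i j hij => by
    show v i * (star (v j) * v j) = 0
    rw [← mul_assoc, h2 i j hij, zero_mul]
  have svg' : ∀ i j, i ≠ j → star (v i) * g j = 0 := fun i j hij => by
    rw [hg]; simp only [mul_smul_comm, mul_add, sve, svf' i j hij, h1 i j hij, h3s, add_zero,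
      smul_zero]
  have vg' : ∀ i j, i ≠ j → v i * g j = 0 := fun i j hij => by
    rw [hg]; simp only [mul_smul_comm, mul_add, vf, ve' i j hij, h2 i j hij, h3, add_zero,
      smul_zero]
  have eg' : ∀ i j, i ≠ j → e i * g j = 0 := fun i j hij => by
    show star (v i) * v i * g j = 0
    rw [mul_assoc, vg' i j hij, mul_zero]
  have fg' : ∀ i j, i ≠ j → f i * g j = 0 := fun i j hij => by
    show v i * star (v i) * g j = 0
    rw [mul_assoc, svg' i j hij, mul_zero]
  obtain ⟨G, hG⟩ := exists_sup hB g hgs
  have eG : ∀ i, e i * G = (1 / 2 : ℝ) • (e i + star (v i)) := by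
    intro i
    have h5 : (e i * (1 - g i)) * G = 0 := by
      refine hG.2.2 _ fun j => ?_
      by_cases hij : i = j
      · subst hij
        rw [mul_sub, mul_one, sub_mul, eg, smul_mul_assoc, add_mul, eg, svg, ← smul_add,
          smul_smul, sub_eq_zero]
        rw [show e i + star (v i) + (star (v i) + e i) = (2 : ℝ) • (e i + star (v i)) by
          rw [two_smul]; abel, smul_smul]
        norm_num
      · rw [mul_sub, mul_one, sub_mul, eg, smul_mul_assoc, add_mul, eg' i j hij, svg' i j hij]
        simp
    rw [mul_sub, mul_one, sub_mul, sub_eq_zero, mul_assoc (e i) (g i) G, hG.2.1] at h5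
    rw [h5, eg]
  have fG : ∀ i, f i * G = (1 / 2 : ℝ) • (f i + v i) := by
    intro i
    have h5 : (f i * (1 - g i)) * G = 0 := by
      refine hG.2.2 _ fun j => ?_
      by_cases hij : i = j
      · subst hij
        rw [mul_sub, mul_one, sub_mul, fg, smul_mul_assoc, add_mul, fg, vg, ← smul_add,
          smul_smul, sub_eq_zero]
        rw [show f i + v i + (v i + f i) = (2 : ℝ) • (f i + v i) by
          rw [two_smul]; abel, smul_smul]
        norm_num
      · rw [mul_sub, mul_one, sub_mul, fg, smul_mul_assoc, add_mul, fg' i j hij, vg' i j hij]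
        simp
    rw [mul_sub, mul_one, sub_mul, sub_eq_zero, mul_assoc (f i) (g i) G, hG.2.1] at h5
    rw [h5, fg]
  have Ge : ∀ i, G * e i = (1 / 2 : ℝ) • (e i + v i) := fun i => by
    have := congrArg star (eG i)
    rwa [star_mul, hes, hG.1.1, star_smul, star_add, hes, star_star, star_trivial] at this
  have Gf : ∀ i, G * f i = (1 / 2 : ℝ) • (f i + star (v i)) := fun i => by
    have := congrArg star (fG i)
    rwa [star_mul, hfs, hG.1.1, star_smul, star_add, hfs, star_trivial] at this
  have Gv : ∀ i, G * v i = (1 / 2 : ℝ) • (v i + e i) := fun i => by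
    calc G * v i = G * f i * v i := by rw [mul_assoc, hp2]
      _ = (1 / 2 : ℝ) • (f i * v i + star (v i) * v i) := by rw [Gf, smul_mul_assoc, add_mul]
      _ = _ := by rw [hp2]
  have Ev : ∀ i, E * v i = 0 := fun i => hE.zero_left hes fun j => ev j i
  have Fe : ∀ i, F * e i = 0 := fun i => hF.zero_left hfs fun j => fe j i
  have Fv : ∀ i, F * v i = v i := fun i => by
    rw [← hp2 i, ← mul_assoc, hF.left hfs]
  have EE : ∀ i, E * e i = e i := fun i => hE.left hes i
  set x : A := (2 : ℝ) • (F * G * E) with hx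
  have hxe : ∀ i, x * e i = v i := fun i => by
    rw [hx, smul_mul_assoc, mul_assoc, EE, mul_assoc, Ge, mul_smul_comm, mul_add, Fe, Fv,
      smul_smul]
    norm_num
  have hsx : star x = (2 : ℝ) • (E * G * F) := by
    rw [hx, star_smul, star_mul, star_mul, hE.1.1, hF.1.1, hG.1.1, star_trivial, mul_assoc]
  have hsxv : ∀ i, star x * v i = e i := fun i => by
    rw [hsx, smul_mul_assoc, mul_assoc, Fv, mul_assoc, Gv, mul_smul_comm, mul_add, Ev, EE,
      smul_smul]
    norm_num
  have h6 : (star x * x - 1) * E = 0 := by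
    refine hE.2.2 _ fun i => ?_
    rw [sub_mul, mul_assoc, hxe, hsxv, one_mul, sub_self]
  have h7 : x * E = x := by rw [hx, smul_mul_assoc, mul_assoc, hE.1.2]
  refine ⟨x, ?_, ?_⟩
  · rw [sub_mul, one_mul, mul_assoc, h7, sub_eq_zero] at h6
    exact h6
  · rw [hx, mul_smul_comm, ← mul_assoc, ← mul_assoc, hF.1.2]

/-- A prime algebra. -/
def Prime' (A : Type*) [MulZeroClass A] : Prop :=
  ∀ a b : A, (∀ x, a * x * b = 0) → a = 0 ∨ b = 0

/-- a nonzero element has a nonzero spectral projection -/
lemma exists_pi (hB : Baer A) {x f e : A} (he : Pr e) (hx : x ≠ 0) (hfx : f * x = x)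
    (hxe : x * e = x) : ∃ v : A, v ≠ 0 ∧ Pr (star v * v) ∧ f * v = v ∧ v * e = v := by
  have hx0 : 0 < ‖x‖ := norm_pos_iff.2 hx
  obtain ⟨q, y, hq, heq, hyx, hqy, hyn, hsm, hco⟩ := spec hB x he (s := ‖x‖ / 2) (by positivity)
  have hq0 : q ≠ 0 := by
    rintro rfl
    rw [sub_zero, hxe] at hsm
    linarith
  have hyxq : y * x * q = q := by
    have := congrArg (· * q) hyx
    simp only [mul_assoc, heq, hq.2] at this
    rwa [← mul_assoc] at this
  obtain ⟨v, k, m, hv1, hv2, hv3, hv4, -, -⟩ := pol hq hyxq
  refine ⟨v, ?_, by rw [hv1]; exact hq, ?_, ?_⟩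
  · rintro rfl
    apply hq0
    rw [← hv1, mul_zero]
  · rw [hv2, ← mul_assoc, ← mul_assoc, hfx]
  · have h1 : v * q = v := pi_right hq hv1
    have h2 : q * e = q := hq.comm_le he heq
    rw [← h1, mul_assoc, h2]

/-- comparability of orthogonal projections in a prime Baer C*-algebra -/
lemma compar (hB : Baer A) (hA : Prime' A) {e f : A} (he : Pr e) (hf : Pr f) (hef : e * f = 0) :
    Sub e f ∨ Sub f e := by
  have hfe : f * e = 0 := hf.comm_zero he hef
  let C : Set (Set A) := {V | (∀ v ∈ V, v * (star v * v) = v ∧ f * v = v ∧ v * e = v) ∧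
    ∀ v ∈ V, ∀ w ∈ V, v ≠ w → star v * w = 0 ∧ v * star w = 0}
  obtain ⟨V, hV⟩ : ∃ V, Maximal (fun V => V ∈ C) V := by
    refine zorn_subset C ?_
    intro c hc hchain
    refine ⟨⋃₀ c, ⟨?_, ?_⟩, fun s hs => Set.subset_sUnion_of_mem hs⟩
    · rintro v ⟨s, hs, hvs⟩
      exact (hc hs).1 v hvs
    · rintro v ⟨s, hs, hvs⟩ w ⟨t, ht, hwt⟩ hvw
      rcases hchain.total hs ht with h | h
      · exact (hc ht).2 v (h hvs) w hwt hvw
      · exact (hc hs).2 v hvs w (h hwt) hvw
  obtain ⟨⟨hV1, hV2⟩, hVmax⟩ := hV
  let v : V → A := fun w => w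
  have hvp : ∀ i, v i * (star (v i) * v i) = v i := fun i => (hV1 i i.2).1
  have hvf : ∀ i, f * v i = v i := fun i => (hV1 i i.2).2.1
  have hve : ∀ i, v i * e = v i := fun i => (hV1 i i.2).2.2
  have hne : ∀ i j : V, i ≠ j → (i : A) ≠ j := fun i j h h' => h (Subtype.ext h')
  have h1 : ∀ i j, i ≠ j → star (v i) * v j = 0 := fun i j h =>
    (hV2 i i.2 j j.2 (hne i j h)).1
  have h2 : ∀ i j, i ≠ j → v i * star (v j) = 0 := fun i j h =>
    (hV2 i i.2 j j.2 (hne i j h)).2
  have h3 : ∀ i j, v i * v j = 0 := by
    intro i j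
    rw [← hve i, ← hvf j, mul_assoc, ← mul_assoc e, hef]; simp
  have h3' : ∀ i j, star (v i) * star (v j) = 0 := by
    intro i j; rw [← star_mul, h3, star_zero]
  have hvp' : ∀ i, star (v i) * (star (star (v i)) * star (v i)) = star (v i) := by
    intro i
    have := congrArg star (hvp i)
    rw [star_mul, star_mul, star_star] at this
    rw [star_star, ← mul_assoc]; exact this
  obtain ⟨E, hE⟩ := exists_sup hB (fun i => star (v i) * v i) (fun i => by simp)
  obtain ⟨F, hF⟩ := exists_sup hB (fun i => v i * star (v i)) (fun i => by simp)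
  have hEF : Sub E F := orth_add hB v hvp h1 h2 h3 hE hF
  have hFE : Sub F E := by
    refine orth_add hB (fun i => star (v i)) hvp' ?_ ?_ h3' ?_ ?_
    · intro i j hij; rw [star_star]; exact h2 i j hij
    · intro i j hij; rw [star_star]; exact h1 i j hij
    · simpa using hF
    · simpa using hE
  have hEe : e * E = E := by
    have h4 : (1 - e) * E = 0 := by
      refine hE.2.2 _ fun i => ?_
      have : e * star (v i) = star (v i) := by
        have := congrArg star (hve i); rwa [star_mul, he.1] at this
      rw [sub_mul, one_mul, ← mul_assoc, this, sub_self]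
    rw [sub_mul, one_mul, sub_eq_zero] at h4
    exact h4.symm
  have hFf : f * F = F := by
    have h4 : (1 - f) * F = 0 := by
      refine hF.2.2 _ fun i => ?_
      rw [sub_mul, one_mul, ← mul_assoc, hvf, sub_self]
    rw [sub_mul, one_mul, sub_eq_zero] at h4
    exact h4.symm
  by_cases h4 : e - E = 0
  · left
    rw [sub_eq_zero] at h4
    rw [h4]
    exact hEF.mono hFf
  by_cases h5 : f - F = 0
  · right
    rw [sub_eq_zero] at h5
    rw [h5]
    exact hFE.mono hEe
  exfalso
  have he' : Pr (e - E) := hE.1.sub he hEe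
  have hf' : Pr (f - F) := hF.1.sub hf hFf
  obtain ⟨a, ha⟩ : ∃ a, (f - F) * a * (e - E) ≠ 0 := by
    by_contra hcon
    push Not at hcon
    rcases hA _ _ hcon with h | h
    · exact h5 h
    · exact h4 h
  obtain ⟨w, hw0, hwp, hfw, hwe⟩ := exists_pi hB (f := f - F) (e := e - E) he' ha
    (by rw [← mul_assoc, ← mul_assoc, hf'.2]) (by rw [mul_assoc, he'.2])
  have hwp' : w * (star w * w) = w := pi_right hwp rfl
  have hFw : ∀ i, star (v i) * w = 0 := by
    intro i
    have h6 : star (v i) * (f - F) = 0 := by
      have h7 : (v i * star (v i)) * F = v i * star (v i) := hF.2.1 i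
      have h8 : star (v i) * f = star (v i) := by
        have := congrArg star (hvf i); rwa [star_mul, hf.1] at this
      have h9 : star (v i) * F = star (v i) := by
        have : star (v i) * (v i * star (v i)) = star (v i) := by simpa using hvp' i
        calc star (v i) * F = star (v i) * (v i * star (v i)) * F := by rw [this]
          _ = star (v i) * (v i * star (v i)) := by rw [mul_assoc, h7]
          _ = _ := this
      rw [mul_sub, h8, h9, sub_self]
    rw [← hfw, ← mul_assoc, h6, zero_mul]
  have hEw : ∀ i, v i * star w = 0 := by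
    intro i
    have h6 : v i * (e - E) = 0 := by
      have h7 : (star (v i) * v i) * E = star (v i) * v i := hE.2.1 i
      have h9 : v i * E = v i := by
        calc v i * E = v i * (star (v i) * v i) * E := by rw [hvp]
          _ = v i * (star (v i) * v i) := by rw [mul_assoc, h7]
          _ = _ := hvp i
      rw [mul_sub, hve, h9, sub_self]
    have h7 : (e - E) * star w = star w := by
      have := congrArg star hwe; rwa [star_mul, he'.1] at this
    rw [← h7, ← mul_assoc, h6, zero_mul]
  have hwnot : w ∉ V := by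
    intro hwV
    have h6 := hFw ⟨w, hwV⟩
    have h7 : star w * w = 0 := h6
    exact hw0 (star_self_zero h7)
  have hins : insert w V ∈ C := by
    refine ⟨?_, ?_⟩
    · intro u hu
      rcases Set.mem_insert_iff.1 hu with rfl | hu
      · refine ⟨hwp', ?_, ?_⟩
        · have : f * (f - F) = f - F := by rw [mul_sub, hf.2, hFf]
          rw [← hfw, ← mul_assoc, this]
        · have : (e - E) * e = e - E := by rw [sub_mul, he.2, hE.1.comm_le he hEe]
          rw [← hwe, mul_assoc, this]
      · exact hV1 u hu
    · intro u hu u' hu' hne'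
      rcases Set.mem_insert_iff.1 hu with rfl | hu1 <;>
        rcases Set.mem_insert_iff.1 hu' with rfl | hu1'
      · exact absurd rfl hne'
      · constructor
        · have := congrArg star (hFw ⟨u', hu1'⟩)
          rwa [star_mul, star_star, star_zero] at this
        · have := congrArg star (hEw ⟨u', hu1'⟩)
          rwa [star_mul, star_star, star_zero] at this
      · exact ⟨hFw ⟨u, hu1⟩, hEw ⟨u, hu1⟩⟩
      · exact hV2 u hu1 u' hu1' hne'
  have := hVmax hins (Set.subset_insert w V)
  exact hwnot (this (Set.mem_insert w V))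

end Pool.Agent.V11111.AW
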