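import Pool.Agent.V11111.AW.Scal

/-!
Infinite prime Baer C*-algebras are clean.
-/

set_option autoImplicit false
set_option linter.unusedSimpArgs false
set_option linter.unusedVariables false

namespace Pool.Agent.V11111.AW

variable {A : Type*} [CStarAlgebra A]

theorem baer_clean (hB : Baer A) (hA : Prime' A) {v : A} (hv : star v * v = 1)
    (hv' : v * star v ≠ 1) (T : A) : ∃ e : A, e * e = e ∧ IsUnit (T - e) := by
  have hnt : Nontrivial A := by
    by_contra h
    rw [not_nontrivial_iff_subsingleton] at h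
    exact hv' (Subsingleton.elim _ _)
  obtain ⟨s1, s2, hs⟩ := exists_cuntz hB hA hv hv'
  by_cases h1 : CaseA T
  · exact caseA_clean hB hs h1
  by_cases h2 : CaseA (star T)
  · obtain ⟨e, he, hu⟩ := caseA_clean hB hs h2
    refine ⟨star e, by rw [← star_mul, he], ?_⟩
    have := hu.star
    rwa [star_sub, star_star] at this
  obtain ⟨c, hc⟩ := nr6 hB hA hs h1 h2
  by_cases h3 : 1 / 2 ≤ ‖c‖
  · exact scal_clean hB h3 hc
  · have h4 : 1 / 2 ≤ ‖1 - c‖ := by
      have : ‖(1 : ℂ)‖ ≤ ‖1 - c‖ + ‖c‖ := by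
        calc ‖(1 : ℂ)‖ = ‖(1 - c) + c‖ := by rw [sub_add_cancel]
          _ ≤ _ := norm_add_le _ _
      rw [norm_one] at this
      push Not at h3
      linarith
    obtain ⟨e, he, hu⟩ := scal_clean (T := 1 - T) hB h4 (by
      intro ε hε
      obtain ⟨Q, hQ, hb, h5, h6⟩ := hc ε hε
      refine ⟨Q, hQ, hb, ?_, ?_⟩
      · have : (1 - T) * Q - (1 - c) • Q = -(T * Q - c • Q) := by
          rw [sub_mul, one_mul, sub_smul, one_smul]; abel
        rw [this, norm_neg]; exact h5
      · have : Q * (1 - T) - (1 - c) • Q = -(Q * T - c • Q) := by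
          rw [mul_sub, mul_one, sub_smul, one_smul]; abel
        rw [this, norm_neg]; exact h6)
    refine ⟨1 - e, ?_, ?_⟩
    · rw [mul_sub, mul_one, sub_mul, one_mul, he, sub_self, sub_zero]
    · have : T - (1 - e) = -(1 - T - e) := by abel
      rw [this]; exact hu.neg

end Pool.Agent.V11111.AW
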