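import Mathlib

/-!
The matrix computation behind cleanness of operators that are not small perturbations of
scalars.
-/

set_option autoImplicit false
set_option linter.unusedSimpArgs false
set_option linter.unusedVariables false

namespace Pool.Agent.V11111.AW

open Matrix

variable {R : Type*}

section alg

variable [Ring R]

/-- splitting data: `R = R ⊕ q R` -/
structure Absorb (q c₁ c₂ d₁ d₂ : R) : Prop where
  h11 : d₁ * c₁ = 1
  h12 : d₁ * c₂ = 0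
  h21 : d₂ * c₁ = 0
  h22 : d₂ * c₂ = q
  hs : c₁ * d₁ + c₂ * d₂ = 1
  hd : q * d₂ = d₂

/-- exchange data -/
structure Exch (k q α β : R) : Prop where
  ha : α * k = q
  hb : β * (1 - k) = 1 - q
  hqa : q * α = α
  hqb : q * β = 0
  hqq : q * q = q

/-- The limit matrix. -/
def M0 (k w0 z0 t τ : R) : Matrix (Fin 5) (Fin 5) R :=
  !![-1, 0, 0, 0, 0;
     0, 0, z0, 0, 0;
     1, 0, 0, t, τ;
     0, 1, -z0, 0, 0;
     0, 0, (1 - k) * w0, 0, k]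

/-- Its inverse. -/
def N0 (k s1 s2 α β d₁ d₂ e₁ e₂ : R) : Matrix (Fin 5) (Fin 5) R :=
  !![-1, 0, 0, 0, 0;
     0, 1, 0, 1, 0;
     -(s1 * k * e₂), s1 * k * d₂ + s2 * d₁, -(s1 * k * e₂), 0, s1 * (1 - k * (α - β));
     e₁, 0, e₁, 0, 0;
     (1 - k) * e₂, -((1 - k) * d₂), (1 - k) * e₂, 0, 1 + (1 - k) * (α - β)]

lemma assoc_of {a b c : R} (h : a * b = c) (x : R) : a * (b * x) = c * x := by
  rw [← mul_assoc, h]

lemma M0_N0 {k q α β s1 s2 s1' s2' c₁ c₂ d₁ d₂ a₁ a₂ e₁ e₂ : R}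
    (hx : Exch k q α β) (h11 : s1' * s1 = 1) (h12 : s1' * s2 = 0) (h21 : s2' * s1 = 0)
    (h22 : s2' * s2 = 1) (hss : s1 * s1' + s2 * s2' = 1)
    (hc : Absorb q c₁ c₂ d₁ d₂) (ha : Absorb (1 - q) a₁ a₂ e₁ e₂) :
    M0 k s1' (c₁ * s2' + c₂ * α * s1') a₁ (a₂ * β) * N0 k s1 s2 α β d₁ d₂ e₁ e₂ = 1 ∧
    N0 k s1 s2 α β d₁ d₂ e₁ e₂ * M0 k s1' (c₁ * s2' + c₂ * α * s1') a₁ (a₂ * β) = 1 := by
  obtain ⟨x1, x2, x3, x4, x5⟩ := hx
  obtain ⟨c1, c2, c3, c4, c5, c6⟩ := hc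
  obtain ⟨b1, b2, b3, b4, b5, b6⟩ := ha
  have q1 : q * e₂ = 0 := by
    have h : (1 - q) * e₂ = e₂ := b6
    rw [sub_mul, one_mul] at h
    exact sub_eq_self.1 h
  have bk : β * k = β - 1 + q := by
    have : β * (1 - k) = β - β * k := by rw [mul_sub, mul_one]
    rw [this] at x2
    have : β * k = β - (1 - q) := by rw [← x2]; abel
    rw [this]; abel
  have b5' : a₁ * e₁ = 1 - a₂ * e₂ := by rw [← b5]; abel
  have c5' : c₁ * d₁ = 1 - c₂ * d₂ := by rw [← c5]; abel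
  have hss' : s2 * s2' = 1 - s1 * s1' := by rw [← hss]; abel
  constructor
  · ext i j
    fin_cases i <;> fin_cases j <;>
    simp [M0, N0, Matrix.mul_apply, Fin.sum_univ_succ] <;>
    simp only [mul_assoc, mul_add, add_mul, mul_sub, sub_mul, one_mul, mul_one, mul_neg, neg_mul,
      assoc_of x1, assoc_of bk, assoc_of x3, assoc_of x4, assoc_of x5, x1, bk, x3, x4, x5,
      assoc_of c1, assoc_of c2, assoc_of c3, assoc_of c4, assoc_of c5', assoc_of c6, c1, c2, c3,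
      c4, c5', c6,
      assoc_of b1, assoc_of b2, assoc_of b3, assoc_of b4, assoc_of b5', b1, b2, b3,
      b4, b5', assoc_of q1, q1,
      assoc_of h11, assoc_of h12, assoc_of h21, assoc_of h22, assoc_of hss', h11, h12, h21, h22,
      hss', mul_zero, zero_mul] <;> try abel
  · ext i j
    fin_cases i <;> fin_cases j <;>
    simp [M0, N0, Matrix.mul_apply, Fin.sum_univ_succ] <;>
    simp only [mul_assoc, mul_add, add_mul, mul_sub, sub_mul, one_mul, mul_one, mul_neg, neg_mul,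
      assoc_of x1, assoc_of bk, assoc_of x3, assoc_of x4, assoc_of x5, x1, bk, x3, x4, x5,
      assoc_of c1, assoc_of c2, assoc_of c3, assoc_of c4, assoc_of c5', assoc_of c6, c1, c2, c3,
      c4, c5', c6,
      assoc_of b1, assoc_of b2, assoc_of b3, assoc_of b4, assoc_of b5', b1, b2, b3,
      b4, b5', assoc_of q1, q1,
      assoc_of h11, assoc_of h12, assoc_of h21, assoc_of h22, assoc_of hss', h11, h12, h21, h22,
      hss', mul_zero, zero_mul] <;> try abel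

/-- A frame identifies `R` with `M₅(R)`. -/
structure Frame (B d : Fin 5 → R) : Prop where
  h : ∀ i j, d i * B j = if i = j then 1 else 0
  s : ∑ i, B i * d i = 1

/-- The identification. -/
def Psi (B d : Fin 5 → R) (M : Matrix (Fin 5) (Fin 5) R) : R := ∑ i, ∑ j, B i * M i j * d j

lemma Psi_mul {B d : Fin 5 → R} (hf : Frame B d) (M N : Matrix (Fin 5) (Fin 5) R) :
    Psi B d (M * N) = Psi B d M * Psi B d N := by
  unfold Psi
  rw [Finset.sum_mul]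
  refine Finset.sum_congr rfl fun i _ => ?_
  rw [Finset.sum_mul_sum]
  have h1 : ∀ j ∈ (Finset.univ : Finset (Fin 5)), ∑ l, B i * M i j * d j * ∑ m, B l * N l m * d m
      = ∑ m, B i * (M i j * N j m) * d m := by
    intro j _
    rw [Finset.sum_eq_single j]
    · rw [Finset.mul_sum]
      refine Finset.sum_congr rfl fun m _ => ?_
      have : d j * B j = 1 := by rw [hf.h, if_pos rfl]
      calc B i * M i j * d j * (B j * N j m * d m)
          = B i * M i j * (d j * B j) * N j m * d m := by simp only [mul_assoc]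
        _ = _ := by rw [this, mul_one]; simp only [mul_assoc]
    · intro l _ hl
      rw [Finset.mul_sum, Finset.sum_eq_zero]
      intro m _
      have : d j * B l = 0 := by rw [hf.h, if_neg (Ne.symm hl)]
      calc B i * M i j * d j * (B l * N l m * d m)
          = B i * M i j * (d j * B l) * N l m * d m := by simp only [mul_assoc]
        _ = _ := by rw [this]; simp
    · simp
  rw [Finset.sum_congr rfl h1, Finset.sum_comm]
  refine Finset.sum_congr rfl fun m _ => ?_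
  rw [Matrix.mul_apply, Finset.mul_sum, Finset.sum_mul]

lemma Psi_one {B d : Fin 5 → R} (hf : Frame B d) : Psi B d 1 = 1 := by
  unfold Psi
  rw [← hf.s]
  refine Finset.sum_congr rfl fun i _ => ?_
  rw [Finset.sum_eq_single i]
  · rw [Matrix.one_apply_eq, mul_one]
  · intro j _ hj
    rw [Matrix.one_apply_ne (Ne.symm hj), mul_zero, zero_mul]
  · simp

lemma Psi_sub {B d : Fin 5 → R} (M N : Matrix (Fin 5) (Fin 5) R) :
    Psi B d (M - N) = Psi B d M - Psi B d N := by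
  unfold Psi
  simp only [Matrix.sub_apply, mul_sub, sub_mul, Finset.sum_sub_distrib]

lemma Psi_coef {B d : Fin 5 → R} (hf : Frame B d) (x : R) :
    Psi B d (Matrix.of fun i j => d i * x * B j) = x := by
  unfold Psi
  have : ∀ i ∈ (Finset.univ : Finset (Fin 5)), ∑ j, B i * (Matrix.of fun i j => d i * x * B j) i j
      * d j = B i * d i * x := by
    intro i _
    have : ∀ j ∈ (Finset.univ : Finset (Fin 5)), B i * (Matrix.of fun i j => d i * x * B j) i j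
      * d j = B i * d i * x * (B j * d j) := by
      intro j _
      simp only [Matrix.of_apply, mul_assoc]
    rw [Finset.sum_congr rfl this, ← Finset.mul_sum, hf.s, mul_one]
  rw [Finset.sum_congr rfl this, ← Finset.sum_mul, hf.s, one_mul]

lemma Psi_unit {B d : Fin 5 → R} (hf : Frame B d) (M : Matrix (Fin 5) (Fin 5) R) (h : IsUnit M) :
    IsUnit (Psi B d M) := by
  obtain ⟨u, rfl⟩ := h
  refine ⟨⟨Psi B d u, Psi B d (u⁻¹ : (Matrix (Fin 5) (Fin 5) R)ˣ), ?_, ?_⟩, rfl⟩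
  · rw [← Psi_mul hf, Units.mul_inv, Psi_one hf]
  · rw [← Psi_mul hf, Units.inv_mul, Psi_one hf]

end alg

section ban

variable [NormedRing R] [NormedAlgebra ℝ R] [CompleteSpace R]

/-- The scaled matrix. -/
def Md (a1 a2 a3 a4 a5 b1 b2 b3 b4 b5 r1 r2 r3 r4 k w0 z0 t τ : R) (δ : ℝ) :
    Matrix (Fin 5) (Fin 5) R :=
  !![-1, 0, δ ^ 2 • a1 - δ • (r1 * w0), δ ^ 2 • b1, δ • r1;
     0, 0, δ ^ 2 • a2 - δ • (r2 * w0) + z0, δ ^ 2 • b2, δ • r2;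
     1, 0, δ ^ 2 • (a3 - 1) - δ • (r3 * w0), t + δ ^ 2 • b3, τ + δ • r3;
     0, 1, δ ^ 2 • a4 - δ • (r4 * w0) - z0, δ ^ 2 • b4, δ • r4;
     0, 0, δ • a5 + (1 - k) * w0, δ • b5, k]

lemma Md_zero (a1 a2 a3 a4 a5 b1 b2 b3 b4 b5 r1 r2 r3 r4 k w0 z0 t τ : R) :
    Md a1 a2 a3 a4 a5 b1 b2 b3 b4 b5 r1 r2 r3 r4 k w0 z0 t τ 0 = M0 k w0 z0 t τ := by
  ext i j
  fin_cases i <;> fin_cases j <;> simp [Md, M0]

lemma Md_cont (a1 a2 a3 a4 a5 b1 b2 b3 b4 b5 r1 r2 r3 r4 k w0 z0 t τ : R) (i j : Fin 5) :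
    Continuous fun δ => Md a1 a2 a3 a4 a5 b1 b2 b3 b4 b5 r1 r2 r3 r4 k w0 z0 t τ δ i j := by
  fin_cases i <;> fin_cases j <;> simp [Md] <;> fun_prop

lemma exists_unit {B d : Fin 5 → R} (hf : Frame B d)
    (a1 a2 a3 a4 a5 b1 b2 b3 b4 b5 r1 r2 r3 r4 k w0 z0 t τ : R)
    (h : IsUnit (M0 k w0 z0 t τ)) :
    ∃ δ : ℝ, 0 < δ ∧
      IsUnit (Psi B d (Md a1 a2 a3 a4 a5 b1 b2 b3 b4 b5 r1 r2 r3 r4 k w0 z0 t τ δ)) := by
  have ho : IsOpen {x : R | IsUnit x} := Units.isOpen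
  have hc : Continuous fun δ => Psi B d
      (Md a1 a2 a3 a4 a5 b1 b2 b3 b4 b5 r1 r2 r3 r4 k w0 z0 t τ δ) := by
    unfold Psi
    refine continuous_finsetSum _ fun i _ => continuous_finsetSum _ fun j _ => ?_
    exact (continuous_const.mul (Md_cont _ _ _ _ _ _ _ _ _ _ _ _ _ _ _ _ _ _ _ i j)).mul
      continuous_const
  have hpre := ho.preimage hc
  have h0 : (0 : ℝ) ∈ (fun δ => Psi B d
      (Md a1 a2 a3 a4 a5 b1 b2 b3 b4 b5 r1 r2 r3 r4 k w0 z0 t τ δ)) ⁻¹' {x : R | IsUnit x} := by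
    simp only [Set.mem_preimage, Set.mem_ofPred_eq, Md_zero]
    exact Psi_unit hf _ h
  obtain ⟨ε, hε, hb⟩ := Metric.isOpen_iff.1 hpre 0 h0
  refine ⟨ε / 2, by positivity, ?_⟩
  have : ε / 2 ∈ Metric.ball (0 : ℝ) ε := by
    rw [Metric.mem_ball, Real.dist_eq, sub_zero, abs_of_pos (by positivity)]
    linarith
  exact hb this

/-- The change of basis and its inverse. -/
def Qm (w z3 z1 z2 : R) : Matrix (Fin 5) (Fin 5) R :=
  !![1, 0, 0, z1, z2;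
     0, 1, z3, 0, 0;
     0, 0, 1, 0, 0;
     0, 0, 0, 1, 0;
     0, 0, -w, 0, 1]

def Qi (w z3 z1 z2 : R) : Matrix (Fin 5) (Fin 5) R :=
  !![1, 0, -(z2 * w), -z1, -z2;
     0, 1, -z3, 0, 0;
     0, 0, 1, 0, 0;
     0, 0, 0, 1, 0;
     0, 0, w, 0, 1]

def Dm : Matrix (Fin 5) (Fin 5) R :=
  !![1, 0, 0, 0, 0;
     0, 0, 0, 0, 0;
     0, 0, 1, 0, 0;
     0, 0, 0, 0, 0;
     0, 0, 0, 0, 0]

lemma Q_mul_Qi (w z3 z1 z2 : R) : Qm w z3 z1 z2 * Qi w z3 z1 z2 = 1 := by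
  ext i j
  fin_cases i <;> fin_cases j <;> simp [Qm, Qi, Matrix.mul_apply, Fin.sum_univ_succ]

lemma Qi_mul_Q (w z3 z1 z2 : R) : Qi w z3 z1 z2 * Qm w z3 z1 z2 = 1 := by
  ext i j
  fin_cases i <;> fin_cases j <;> simp [Qm, Qi, Matrix.mul_apply, Fin.sum_univ_succ]

lemma D_mul_D : (Dm : Matrix (Fin 5) (Fin 5) R) * Dm = Dm := by
  ext i j
  fin_cases i <;> fin_cases j <;> simp [Dm, Matrix.mul_apply, Fin.sum_univ_succ]

/-- diagonal scalings -/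
noncomputable def Dr (δ : ℝ) : Matrix (Fin 5) (Fin 5) R :=
  Matrix.diagonal ![δ • 1, δ • 1, δ • 1, δ • 1, 1]

noncomputable def Dc (δ : ℝ) : Matrix (Fin 5) (Fin 5) R :=
  Matrix.diagonal ![δ⁻¹ • 1, δ⁻¹ • 1, δ • 1, δ • 1, 1]

lemma Dr_unit {δ : ℝ} (h : δ ≠ 0) : IsUnit (Dr δ : Matrix (Fin 5) (Fin 5) R) := by
  refine ⟨⟨Dr δ, Dr δ⁻¹, ?_, ?_⟩, rfl⟩
  all_goals
    unfold Dr
    rw [Matrix.diagonal_mul_diagonal, ← Matrix.diagonal_one]
    congr 1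
    funext i
    fin_cases i <;> simp [h]

lemma Dc_unit {δ : ℝ} (h : δ ≠ 0) : IsUnit (Dc δ : Matrix (Fin 5) (Fin 5) R) := by
  refine ⟨⟨Dc δ, Dc δ⁻¹, ?_, ?_⟩, rfl⟩
  all_goals
    unfold Dc
    rw [Matrix.diagonal_mul_diagonal, ← Matrix.diagonal_one]
    congr 1
    funext i
    fin_cases i <;> simp [h]

lemma key_eq (a1 a2 a3 a4 a5 b1 b2 b3 b4 b5 r1 r2 r3 r4 k w0 z0 t τ : R) {δ : ℝ} (hδ : δ ≠ 0) :
    Md a1 a2 a3 a4 a5 b1 b2 b3 b4 b5 r1 r2 r3 r4 k w0 z0 t τ δ =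
    Dr δ * ((!![0, 0, a1, b1, r1; 0, 0, a2, b2, r2; 1, 0, a3, b3, r3; 0, 1, a4, b4, r4;
      0, 0, a5, b5, k] : Matrix (Fin 5) (Fin 5) R) *
      Qm (δ⁻¹ • w0) (-(δ⁻¹ ^ 2 • z0)) (δ⁻¹ ^ 2 • t) (δ⁻¹ • τ) -
      Qm (δ⁻¹ • w0) (-(δ⁻¹ ^ 2 • z0)) (δ⁻¹ ^ 2 • t) (δ⁻¹ • τ) * Dm) * Dc δ := by
  have e1 : δ * δ⁻¹ = 1 := mul_inv_cancel₀ hδ
  have e2 : δ * (δ * δ⁻¹ ^ 2) = 1 := by field_simp
  have e3 : δ * (δ * δ⁻¹) = δ := by field_simp
  ext i j
  unfold Dr Dc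
  rw [Matrix.mul_diagonal, Matrix.diagonal_mul]
  fin_cases i <;> fin_cases j <;>
    simp [Md, Qm, Dm, Matrix.mul_apply, Fin.sum_univ_succ, smul_smul, smul_sub, smul_add, e1, e2,
      e3, hδ, mul_sub, sub_mul, mul_add, add_mul, pow_two]
  all_goals abel

/-- An element whose first two columns in a frame are the third and fourth basis vector is
clean, provided there is enough room. -/
theorem clean_of_frame {B d : Fin 5 → R} (hf : Frame B d) (T : R) (hT0 : T * B 0 = B 2)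
    (hT1 : T * B 1 = B 3) {q α β s1 s2 s1' s2' c₁ c₂ d₁ d₂ u₁ u₂ e₁ e₂ : R}
    (hx : Exch (d 4 * T * B 4) q α β) (h11 : s1' * s1 = 1) (h12 : s1' * s2 = 0)
    (h21 : s2' * s1 = 0) (h22 : s2' * s2 = 1) (hss : s1 * s1' + s2 * s2' = 1)
    (hc : Absorb q c₁ c₂ d₁ d₂) (ha : Absorb (1 - q) u₁ u₂ e₁ e₂) :
    ∃ e : R, e * e = e ∧ IsUnit (T - e) := by
  obtain ⟨h1, h2⟩ := M0_N0 hx h11 h12 h21 h22 hss hc ha
  have hu : IsUnit (M0 (d 4 * T * B 4) s1' (c₁ * s2' + c₂ * α * s1') u₁ (u₂ * β)) :=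
    ⟨⟨_, _, h1, h2⟩, rfl⟩
  obtain ⟨δ, hδ, hδu⟩ := exists_unit hf (d 0 * T * B 2) (d 1 * T * B 2) (d 2 * T * B 2)
    (d 3 * T * B 2) (d 4 * T * B 2) (d 0 * T * B 3) (d 1 * T * B 3) (d 2 * T * B 3)
    (d 3 * T * B 3) (d 4 * T * B 3) (d 0 * T * B 4) (d 1 * T * B 4) (d 2 * T * B 4)
    (d 3 * T * B 4) _ _ _ _ _ hu
  rw [key_eq _ _ _ _ _ _ _ _ _ _ _ _ _ _ _ _ _ _ _ hδ.ne'] at hδu
  have hTm : (!![0, 0, d 0 * T * B 2, d 0 * T * B 3, d 0 * T * B 4;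
      0, 0, d 1 * T * B 2, d 1 * T * B 3, d 1 * T * B 4;
      1, 0, d 2 * T * B 2, d 2 * T * B 3, d 2 * T * B 4;
      0, 1, d 3 * T * B 2, d 3 * T * B 3, d 3 * T * B 4;
      0, 0, d 4 * T * B 2, d 4 * T * B 3, d 4 * T * B 4] : Matrix (Fin 5) (Fin 5) R) =
      Matrix.of fun i j => d i * T * B j := by
    ext i j
    fin_cases i <;> fin_cases j <;> simp [mul_assoc, hT0, hT1, hf.h]
  rw [hTm] at hδu
  set Q := Qm (δ⁻¹ • s1') (-(δ⁻¹ ^ 2 • (c₁ * s2' + c₂ * α * s1'))) (δ⁻¹ ^ 2 • u₁)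
    (δ⁻¹ • (u₂ * β)) with hQ
  set Q' := Qi (δ⁻¹ • s1') (-(δ⁻¹ ^ 2 • (c₁ * s2' + c₂ * α * s1'))) (δ⁻¹ ^ 2 • u₁)
    (δ⁻¹ • (u₂ * β)) with hQ'
  have hQQ : Q * Q' = 1 := Q_mul_Qi _ _ _ _
  have hQQ' : Q' * Q = 1 := Qi_mul_Q _ _ _ _
  rw [Psi_mul hf, Psi_mul hf] at hδu
  have hr := Psi_unit hf _ (Dr_unit (R := R) hδ.ne')
  have hcu := Psi_unit hf _ (Dc_unit (R := R) hδ.ne')
  have hmid : IsUnit (Psi B d ((Matrix.of fun i j => d i * T * B j) * Q - Q * Dm)) := by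
    exact (IsUnit.mul_left_iff hr).1 ((IsUnit.mul_right_iff hcu).1 hδu)
  refine ⟨Psi B d (Q * Dm * Q'), ?_, ?_⟩
  · rw [← Psi_mul hf]
    congr 1
    calc Q * Dm * Q' * (Q * Dm * Q') = Q * Dm * (Q' * Q) * Dm * Q' := by
          simp only [Matrix.mul_assoc]
      _ = Q * (Dm * Dm) * Q' := by rw [hQQ', Matrix.mul_one, Matrix.mul_assoc Q]
      _ = Q * Dm * Q' := by rw [D_mul_D]
  · have h4 : T - Psi B d (Q * Dm * Q') =
        Psi B d ((Matrix.of fun i j => d i * T * B j) * Q - Q * Dm) * Psi B d Q' := by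
      rw [← Psi_mul hf, Matrix.sub_mul, Matrix.mul_assoc (Matrix.of _), hQQ, Matrix.mul_one,
        Psi_sub, Psi_coef hf]
    rw [h4]
    exact hmid.mul (Psi_unit hf _ ⟨⟨Q', Q, hQQ', hQQ⟩, rfl⟩)

end ban

end Pool.Agent.V11111.AW
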