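import Pool.Agent.V11111.AW.Dich

/-!
Scalars plus small elements are clean.
-/

set_option autoImplicit false
set_option linter.unusedSimpArgs false
set_option linter.unusedVariables false

namespace Pool.Agent.V11111.AW

section ring

variable {R : Type*} [Ring R] [Algebra ℂ R]

/-- algebraic data: `e = z' z`, `p = z z'` orthogonal to `e`, and `b` -/
structure Dat (e z z' b : R) : Prop where
  ee : e * e = e
  zz : z' * z = e
  ze : z * e = z
  ez : e * z = 0
  ez' : e * z' = z'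
  z'e : z' * e = 0
  be : b * e = b
  z'b : z' * b = 0

variable {e z z' b : R}

lemma Dat.z2 (h : Dat e z z' b) : z * z = 0 := by
  rw [← h.ze, mul_assoc, ← mul_assoc e, h.ez]; simp

lemma Dat.z'2 (h : Dat e z z' b) : z' * z' = 0 := by
  nth_rw 2 [← h.ez']; rw [← mul_assoc, h.z'e, zero_mul]

lemma Dat.bz (h : Dat e z z' b) : b * z = 0 := by
  rw [← h.be, mul_assoc, h.ez, mul_zero]

/-- the rest projection -/
def rho (e z z' : R) : R := 1 - e - z * z'

lemma Dat.rz (h : Dat e z z' b) : rho e z z' * z = 0 := by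
  rw [rho, sub_mul, sub_mul, one_mul, h.ez, mul_assoc, h.zz, h.ze]; simp

lemma Dat.zr (h : Dat e z z' b) : z * rho e z z' = 0 := by
  rw [rho, mul_sub, mul_sub, mul_one, h.ze, ← mul_assoc, h.z2]; simp

lemma Dat.rz' (h : Dat e z z' b) : rho e z z' * z' = 0 := by
  rw [rho, sub_mul, sub_mul, one_mul, h.ez', mul_assoc, h.z'2]; simp

lemma Dat.z'r (h : Dat e z z' b) : z' * rho e z z' = 0 := by
  rw [rho, mul_sub, mul_sub, mul_one, h.z'e, ← mul_assoc, h.zz, h.ez']; simp

lemma Dat.re (h : Dat e z z' b) : rho e z z' * e = 0 := by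
  rw [rho, sub_mul, sub_mul, one_mul, h.ee, mul_assoc, h.z'e]; simp

lemma Dat.er (h : Dat e z z' b) : e * rho e z z' = 0 := by
  rw [rho, mul_sub, mul_sub, mul_one, h.ee, ← mul_assoc, h.ez]; simp

lemma Dat.rr (h : Dat e z z' b) : rho e z z' * rho e z z' = rho e z z' := by
  nth_rw 2 [rho]
  rw [mul_sub, mul_sub, mul_one, h.re, ← mul_assoc, h.rz]; simp

lemma Dat.br (h : Dat e z z' b) : b * rho e z z' = 0 := by
  rw [← h.be, mul_assoc, h.er, mul_zero]

/-- the idempotent -/
def wv (β : ℂ) (e z' b : R) : R := β • e + (e - β • (e * b)) * z'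

lemma Dat.wu (h : Dat e z z' b) (β : ℂ) : wv β e z' b * (z + b) = e := by
  have h1 : e * b * e = e * b := by rw [mul_assoc, h.be]
  simp only [wv, add_mul, mul_add, sub_mul, mul_sub, smul_mul_assoc, mul_smul_comm, mul_assoc,
    h.ez, h.zz, h.z'b, h.ee, h.be, smul_zero, mul_zero]
  abel

lemma Dat.idem (h : Dat e z z' b) (β : ℂ) :
    (z + b) * wv β e z' b * ((z + b) * wv β e z' b) = (z + b) * wv β e z' b := by
  have h1 : (z + b) * e = z + b := by rw [add_mul, h.ze, h.be]
  calc (z + b) * wv β e z' b * ((z + b) * wv β e z' b)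
      = (z + b) * (wv β e z' b * (z + b)) * wv β e z' b := by simp only [mul_assoc]
    _ = _ := by rw [h.wu, h1]

lemma Dat.stepA (h : Dat e z z' b) {β : ℂ} (hβ : β ≠ 0) (T : R) :
    (T - (z + b) * wv β e z' b) *
      (((z + b) - β⁻¹ • e) + (z + b) * z' + rho e z z') =
    T * ((z + b) - β⁻¹ • e) + (T - 1) * ((z + b) * z') + T * rho e z z' := by
  have h1 : wv β e z' b * e = β • e := by
    simp only [wv, add_mul, sub_mul, smul_mul_assoc, mul_assoc, h.ee, h.z'e, mul_zero,
      smul_zero, sub_zero, add_zero]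
  have h2 : wv β e z' b * rho e z z' = 0 := by
    simp only [wv, add_mul, sub_mul, smul_mul_assoc, mul_assoc, h.er, h.z'r, mul_zero,
      smul_zero, sub_zero, add_zero]
  have h3 : (z + b) * wv β e z' b * (((z + b) - β⁻¹ • e) + (z + b) * z' + rho e z z') =
      (z + b) * z' := by
    have h4 : wv β e z' b * (((z + b) - β⁻¹ • e) + (z + b) * z' + rho e z z') = z' := by
      rw [mul_add, mul_add, mul_sub, h.wu, mul_smul_comm, h1, smul_smul, inv_mul_cancel₀ hβ,
        one_smul, h2, ← mul_assoc, h.wu, h.ez']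
      simp
    rw [mul_assoc, h4]
  rw [sub_mul, h3]
  simp only [mul_add, mul_sub, sub_mul, one_mul]
  abel

lemma unit_of_sq_zero {x : R} (h : x * x = 0) : IsUnit (1 - x) := by
  refine ⟨⟨1 - x, 1 + x, ?_, ?_⟩, rfl⟩
  · rw [sub_mul, one_mul, mul_add, mul_one, h]; abel
  · rw [add_mul, one_mul, mul_sub, mul_one, h]; abel

lemma Dat.unitG (h : Dat e z z' b) {β : ℂ} (hβ : β ≠ 0) :
    IsUnit (((z + b) - β⁻¹ • e) + (z + b) * z' + rho e z z') := by
  set G := ((z + b) - β⁻¹ • e) + (z + b) * z' + rho e z z' with hG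
  have h1 : G * (1 - z) = -(β⁻¹ • e) + (z + b) * z' + rho e z z' := by
    have : G * z = z + b := by
      rw [hG]
      simp only [add_mul, sub_mul, smul_mul_assoc, mul_assoc, h.z2, h.bz, h.ez, h.zz, h.ze,
        h.be, h.rz, smul_zero]
      abel
    rw [mul_sub, mul_one, this, hG]; abel
  set G1 := -(β⁻¹ • e) + (z + b) * z' + rho e z z' with hG1
  have hu : IsUnit G1 := by
    refine ⟨⟨G1, -(β • e) + z * z' + rho e z z' - (-(β • (e * b)) + rho e z z' * b) * z',
      ?_, ?_⟩, rfl⟩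
    · have a2 : (z + b) * z' * (z * z') = (z + b) * z' := by
        calc (z + b) * z' * (z * z') = (z + b) * ((z' * z) * z') := by
              simp only [mul_assoc]
          _ = _ := by rw [h.zz, h.ez']
      have a3 : e * (rho e z z' * b) = 0 := by rw [← mul_assoc, h.er, zero_mul]
      have a4 : z' * (rho e z z' * b) = 0 := by rw [← mul_assoc, h.z'r, zero_mul]
      have a5 : z' * (e * b) = 0 := by rw [← mul_assoc, h.z'e, zero_mul]
      have a6 : rho e z z' * (e * b) = 0 := by rw [← mul_assoc, h.re, zero_mul]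
      have a7 : rho e z z' * (rho e z z' * b) = rho e z z' * b := by
        rw [← mul_assoc, h.rr]
      have a8 : e * (z * z') = 0 := by rw [← mul_assoc, h.ez, zero_mul]
      have a9 : rho e z z' * (z * z') = 0 := by rw [← mul_assoc, h.rz, zero_mul]
      have b1 : e * (e * b) = e * b := by rw [← mul_assoc, h.ee]
      have b2 : (z + b) * z' * e = 0 := by rw [mul_assoc, h.z'e, mul_zero]
      have b3 : (z + b) * z' * rho e z z' = 0 := by rw [mul_assoc, h.z'r, mul_zero]
      have b4 : (-(β • (e * b)) + rho e z z' * b) * z' =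
        -(β • (e * b * z')) + rho e z z' * b * z' := by
        rw [add_mul, neg_mul, smul_mul_assoc]
      have b5 : G1 * (e * b * z') = -(β⁻¹ • (e * b * z')) := by
        rw [hG1, add_mul, add_mul, neg_mul, smul_mul_assoc]
        have c1 : e * (e * b * z') = e * b * z' := by rw [← mul_assoc, b1]
        have c2 : (z + b) * z' * (e * b * z') = 0 := by
          rw [mul_assoc, ← mul_assoc z' (e * b), a5]; simp
        have c3 : rho e z z' * (e * b * z') = 0 := by rw [← mul_assoc, a6, zero_mul]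
        rw [c1, c2, c3]; simp
      have b6 : G1 * (rho e z z' * b * z') = rho e z z' * b * z' := by
        rw [hG1, add_mul, add_mul, neg_mul, smul_mul_assoc]
        have c1 : e * (rho e z z' * b * z') = 0 := by rw [← mul_assoc, a3, zero_mul]
        have c2 : (z + b) * z' * (rho e z z' * b * z') = 0 := by
          rw [mul_assoc, ← mul_assoc z' (rho e z z' * b), a4]; simp
        have c3 : rho e z z' * (rho e z z' * b * z') = rho e z z' * b * z' := by
          rw [← mul_assoc, a7]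
        rw [c1, c2, c3]; simp
      have b7 : G1 * e = -(β⁻¹ • e) := by
        rw [hG1, add_mul, add_mul, neg_mul, smul_mul_assoc, h.ee, b2, h.re]; simp
      have b8 : G1 * (z * z') = (z + b) * z' := by
        rw [hG1, add_mul, add_mul, neg_mul, smul_mul_assoc, a8, a2, a9]; simp
      have b9 : G1 * rho e z z' = rho e z z' := by
        rw [hG1, add_mul, add_mul, neg_mul, smul_mul_assoc, h.er, b3, h.rr]; simp
      rw [b4, mul_sub, mul_add, mul_add, mul_neg, mul_smul_comm, b7, b8, b9, mul_add, mul_neg,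
        mul_smul_comm, b5, b6, smul_neg, smul_neg, smul_smul, smul_smul, mul_inv_cancel₀ hβ,
        one_smul, one_smul]
      have c4 : b * z' = e * b * z' + rho e z z' * b * z' := by
        have : rho e z z' * b = b - e * b := by
          rw [rho, sub_mul, sub_mul, one_mul, mul_assoc z, h.z'b]; simp
        rw [this, sub_mul]; abel
      rw [add_mul, c4, rho]; abel
    · have b1 : (-(β • (e * b)) + rho e z z' * b) * z' * G1 =
          (-(β • (e * b)) + rho e z z' * b) * z' := by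
        have : z' * G1 = z' := by
          rw [hG1]
          simp only [mul_add, mul_neg, mul_smul_comm, add_mul, ← mul_assoc, h.z'e, h.zz, h.z'b,
            h.ez', h.z'r]
          simp
        rw [mul_assoc, this]
      have b2 : e * G1 = -(β⁻¹ • e) + e * b * z' := by
        rw [hG1]
        simp only [mul_add, mul_neg, mul_smul_comm, add_mul, ← mul_assoc, h.ee, h.ez, h.er]
        simp
      have b3 : z * z' * G1 = z * z' := by
        have : z' * G1 = z' := by
          rw [hG1]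
          simp only [mul_add, mul_neg, mul_smul_comm, add_mul, ← mul_assoc, h.z'e, h.zz, h.z'b,
            h.ez', h.z'r]
          simp
        rw [mul_assoc, this]
      have b4 : rho e z z' * G1 = rho e z z' * b * z' + rho e z z' := by
        rw [hG1]
        simp only [mul_add, mul_neg, mul_smul_comm, add_mul, ← mul_assoc, h.re, h.rz, h.rr]
        simp
      rw [sub_mul, b1, add_mul, add_mul, neg_mul, smul_mul_assoc, b2, b3, b4, smul_add, smul_neg,
        smul_smul, mul_inv_cancel₀ hβ, one_smul, add_mul, neg_mul, smul_mul_assoc]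
      rw [rho]; abel
  have h2 : IsUnit (1 - z) := unit_of_sq_zero h.z2
  rw [← h1] at hu
  exact (IsUnit.mul_right_iff h2).1 hu

lemma Dat.stepC (h : Dat e z z' b) (β c : ℂ) (T : R) :
    (T * ((z + b) - β⁻¹ • e) + (T - 1) * ((z + b) * z') + T * rho e z z') * (1 - z) *
      (1 - (c - 1) • z') =
    ((z + b) - β⁻¹ • (T * e)) + ((T - c • 1) * (z + b) + ((c - 1) * β⁻¹) • (T * e)) * z' +
      T * rho e z z' := by
  set S := T * ((z + b) - β⁻¹ • e) + (T - 1) * ((z + b) * z') + T * rho e z z' with hS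
  have h1 : S * z = (T - 1) * (z + b) := by
    rw [hS]
    simp only [add_mul, sub_mul, mul_add, mul_sub, mul_smul_comm, smul_mul_assoc, mul_assoc,
      h.z2, h.bz, h.ez, h.zz, h.ze, h.be, h.rz, smul_zero, mul_zero, one_mul]
    abel
  have h2 : S * (1 - z) = ((z + b) - β⁻¹ • (T * e)) + (T - 1) * ((z + b) * z') +
      T * rho e z z' := by
    rw [mul_sub, mul_one, h1, hS]
    simp only [mul_add, mul_sub, sub_mul, one_mul, mul_smul_comm]
    abel
  have h3 : S * (1 - z) * z' = ((z + b) - β⁻¹ • (T * e)) * z' := by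
    rw [h2]
    simp only [add_mul, mul_assoc, h.z'2, h.rz', mul_zero, add_zero]
  rw [mul_sub, mul_one, mul_smul_comm, h3, h2]
  simp only [add_mul, sub_mul, mul_add, mul_sub, smul_mul_assoc, mul_assoc, one_mul, smul_sub,
    smul_add, sub_smul, one_smul, add_smul, mul_smul]
  abel

/-- the limit operator and its inverse -/
lemma Dat.limit (h : Dat e z z' b) {c : ℂ} (hc : c ≠ 0) {κ g g' : R}
    (k1 : κ * rho e z z' = κ) (k4 : z' * κ = 0)
    (hg : g = 1 + c⁻¹ • (κ - e * κ))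
    (hgg : g * g' = 1) (hgg' : g' * g = 1) {n : R}
    (hn : n = z * (g' * b) + c⁻¹ • (rho e z z' * (g' * b)) + z * κ) :
    (z + b + z' + c • rho e z z' + κ) *
      ((1 - n + n * n) * (z + z' + c⁻¹ • rho e z z') * g') = 1 ∧
    ((1 - n + n * n) * (z + z' + c⁻¹ • rho e z z') * g') *
      (z + b + z' + c • rho e z z' + κ) = 1 := by
  have k3 : κ * e = 0 := by rw [← k1, mul_assoc, h.re, mul_zero]
  have k2 : κ * z = 0 := by rw [← k1, mul_assoc, h.rz, mul_zero]
  have k5 : κ * z' = 0 := by rw [← k1, mul_assoc, h.rz', mul_zero]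
  have gr : ∀ x, κ * x = 0 → g * x = x := by
    intro x hx
    rw [hg, add_mul, one_mul, smul_mul_assoc, sub_mul, mul_assoc, hx]; simp
  have gl : ∀ x, x * (κ - e * κ) = 0 → x * g = x := by
    intro x hx
    rw [hg, mul_add, mul_one, mul_smul_comm, hx]; simp
  have gr' : ∀ x, κ * x = 0 → g' * x = x := by
    intro x hx
    calc g' * x = g' * (g * x) := by rw [gr x hx]
      _ = x := by rw [← mul_assoc, hgg', one_mul]
  have gl' : ∀ x, x * (κ - e * κ) = 0 → x * g' = x := by
    intro x hx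
    calc x * g' = (x * g) * g' := by rw [gl x hx]
      _ = x := by rw [mul_assoc, hgg, mul_one]
  have eφ : e * (κ - e * κ) = 0 := by rw [mul_sub, ← mul_assoc, h.ee, sub_self]
  have z'φ : z' * (κ - e * κ) = 0 := by rw [mul_sub, ← mul_assoc, h.z'e, k4]; simp
  set b1 := g' * b with hb1
  have eb : e * b1 = e * b := by rw [hb1, ← mul_assoc, gl' e eφ]
  have z'b1 : z' * b1 = 0 := by rw [hb1, ← mul_assoc, gl' z' z'φ, h.z'b]
  have b1e : b1 * e = b1 := by rw [hb1, mul_assoc, h.be]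
  have b1z : b1 * z = 0 := by rw [hb1, mul_assoc, h.bz, mul_zero]
  have b1r : b1 * rho e z z' = 0 := by rw [hb1, mul_assoc, h.br, mul_zero]
  have gb1 : g * b1 = b := by rw [hb1, ← mul_assoc, hgg, one_mul]
  have b1n : b1 * n = 0 := by
    rw [hn, mul_add, mul_add, mul_smul_comm, ← mul_assoc b1 z, ← mul_assoc b1 (rho e z z'),
      ← mul_assoc b1 z κ, b1z, b1r]
    simp
  have κn : κ * n = c⁻¹ • (κ * b1) := by
    rw [hn, mul_add, mul_add, mul_smul_comm, ← mul_assoc κ z, ← mul_assoc κ (rho e z z'),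
      ← mul_assoc κ z κ, k2, k1]
    simp
  have nn : n * n = c⁻¹ • (z * (κ * b1)) := by
    nth_rw 1 [hn]
    rw [add_mul, add_mul, smul_mul_assoc, mul_assoc z b1, mul_assoc (rho e z z'), b1n,
      mul_assoc z, κn, mul_smul_comm]
    simp
  have nnn : n * n * n = 0 := by
    rw [nn, smul_mul_assoc, mul_assoc z, mul_assoc κ, b1n]; simp
  have n3 : (1 + n) * (1 - n + n * n) = 1 := by
    rw [add_mul, one_mul, mul_add, mul_sub, mul_one, ← mul_assoc, nnn]; abel
  have n3' : (1 - n + n * n) * (1 + n) = 1 := by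
    rw [mul_add, mul_one, add_mul, sub_mul, one_mul, nnn]; abel
  have hsum : e + z * z' + rho e z z' = 1 := by rw [rho]; abel
  have sg : ∀ a a' : ℂ, a * a' = 1 →
      (z + z' + a • rho e z z') * (z + z' + a' • rho e z z') = 1 := by
    intro a a' ha
    have e1 : (z + z') * (z + z') = e + z * z' := by
      rw [add_mul, mul_add, mul_add, h.z2, h.zz, h.z'2]; abel
    have e2 : (z + z') * (a' • rho e z z') = 0 := by
      rw [mul_smul_comm, add_mul, h.zr, h.z'r]; simp
    have e3 : (a • rho e z z') * (z + z') = 0 := by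
      rw [smul_mul_assoc, mul_add, h.rz, h.rz']; simp
    have e4 : (a • rho e z z') * (a' • rho e z z') = rho e z z' := by
      rw [smul_mul_smul_comm, h.rr, ha, one_smul]
    rw [add_mul, mul_add (z + z') (z + z'), mul_add (a • rho e z z') (z + z'), e1, e2, e3, e4]
    rw [← hsum]; abel
  have ss := sg c c⁻¹ (mul_inv_cancel₀ hc)
  have ss' := sg c⁻¹ c (inv_mul_cancel₀ hc)
  have sn : (z + z' + c • rho e z z') * n = b1 + e * κ := by
    have a1 : (z + z' + c • rho e z z') * (z * b1) = e * b1 := by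
      simp only [add_mul, smul_mul_assoc, ← mul_assoc, h.z2, h.zz, h.rz]; simp
    have a2 : (z + z' + c • rho e z z') * (rho e z z' * b1) = c • (rho e z z' * b1) := by
      simp only [add_mul, smul_mul_assoc, ← mul_assoc, h.zr, h.z'r, h.rr]; simp
    have a3 : (z + z' + c • rho e z z') * (z * κ) = e * κ := by
      simp only [add_mul, smul_mul_assoc, ← mul_assoc, h.z2, h.zz, h.rz]; simp
    rw [hn, mul_add, mul_add, mul_smul_comm, a1, a2, a3, smul_smul, inv_mul_cancel₀ hc,
      one_smul]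
    have : rho e z z' * b1 = b1 - e * b1 := by
      rw [rho, sub_mul, sub_mul, one_mul, mul_assoc z, z'b1]; simp
    rw [this]; abel
  have fact : z + b + z' + c • rho e z z' + κ =
      g * ((z + z' + c • rho e z z') * (1 + n)) := by
    rw [mul_add, mul_one, sn]
    simp only [mul_add, mul_smul_comm]
    rw [gr z k2, gr z' k5, gb1]
    have a1 : g * rho e z z' = rho e z z' + c⁻¹ • (κ - e * κ) := by
      rw [hg, add_mul, one_mul, smul_mul_assoc, sub_mul, mul_assoc, k1]
    have a2 : g * (e * κ) = e * κ := by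
      rw [← mul_assoc, gr e k3]
    rw [a1, a2, smul_add, smul_smul, mul_inv_cancel₀ hc, one_smul]
    abel
  rw [fact]
  constructor
  · calc g * ((z + z' + c • rho e z z') * (1 + n)) *
        ((1 - n + n * n) * (z + z' + c⁻¹ • rho e z z') * g')
        = g * ((z + z' + c • rho e z z') * (((1 + n) * (1 - n + n * n)) *
          ((z + z' + c⁻¹ • rho e z z') * g'))) := by simp only [mul_assoc]
      _ = g * (((z + z' + c • rho e z z') * (z + z' + c⁻¹ • rho e z z')) * g') := by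
          rw [n3, one_mul, mul_assoc (z + z' + c • rho e z z')]
      _ = 1 := by rw [ss, one_mul, hgg]
  · calc (1 - n + n * n) * (z + z' + c⁻¹ • rho e z z') * g' *
        (g * ((z + z' + c • rho e z z') * (1 + n)))
        = (1 - n + n * n) * ((z + z' + c⁻¹ • rho e z z') * ((g' * g) *
          ((z + z' + c • rho e z z') * (1 + n)))) := by simp only [mul_assoc]
      _ = (1 - n + n * n) * (((z + z' + c⁻¹ • rho e z z') * (z + z' + c • rho e z z')) *
          (1 + n)) := by rw [hgg', one_mul, mul_assoc (z + z' + c⁻¹ • rho e z z')]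
      _ = 1 := by rw [ss', one_mul, n3']

end ring

lemma isUnit_of_near {R : Type*} [NormedRing R] [CompleteSpace R] {S S0 N0 : R}
    (h1 : S0 * N0 = 1) (h2 : N0 * S0 = 1) (h : ‖S - S0‖ * ‖N0‖ < 1) : IsUnit S := by
  have h3 : ‖N0 * (S0 - S)‖ < 1 := by
    refine (norm_mul_le _ _).trans_lt ?_
    rw [norm_sub_rev, mul_comm]; exact h
  have h4 : IsUnit (1 - N0 * (S0 - S)) := isUnit_one_sub_of_norm_lt_one h3
  have h5 : S = S0 * (1 - N0 * (S0 - S)) := by
    rw [mul_sub, mul_one, ← mul_assoc, h1, one_mul]; abel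
  rw [h5]
  exact IsUnit.mul ⟨⟨S0, N0, h1, h2⟩, rfl⟩ h4

variable {A : Type*} [CStarAlgebra A]

lemma scal_clean (hB : Baer A) {T : A} {c : ℂ} (hc : 1 / 2 ≤ ‖c‖)
    (H : ∀ ε : ℝ, 0 < ε → ∃ Q : A, Pr Q ∧ Sub 1 Q ∧ ‖T * Q - c • Q‖ ≤ ε ∧
      ‖Q * T - c • Q‖ ≤ ε) : ∃ e : A, e * e = e ∧ IsUnit (T - e) := by
  have hc0 : c ≠ 0 := by
    rintro rfl; rw [norm_zero] at hc; norm_num at hc
  set K : A := T - c • 1 with hK
  set k : ℝ := ‖K‖ with hk
  set C : ℝ := (1 + (48 + k) + (48 + k) * (48 + k)) * 4 * 2 with hC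
  set D : ℝ := ‖T‖ * (1 + ‖c - 1‖) + 20 with hD
  have hk0 : 0 ≤ k := norm_nonneg _
  have hC0 : 0 < C := by positivity
  have hD0 : 0 < D := by positivity
  set ε : ℝ := 1 / (2 * (D * C)) with hε
  have hε0 : 0 < ε := by positivity
  have hεDC : ε * D * C < 1 := by
    rw [hε]; field_simp; norm_num
  obtain ⟨Q, hQ, ⟨v, hv, hQv⟩, hTQ, hQT⟩ := H ε hε0
  have hKQ : ‖K * Q‖ ≤ ε := by
    have : K * Q = T * Q - c • Q := by rw [hK, sub_mul, smul_mul_assoc, one_mul]
    rw [this]; exact hTQ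
  have hQK : ‖Q * K‖ ≤ ε := by
    have : Q * K = Q * T - c • Q := by rw [hK, mul_sub, mul_smul_comm, mul_one]
    rw [this]; exact hQT
  set p : A := 1 - Q with hp
  have hpp : Pr p := hQ.compl
  set K0 : A := p * K * p with hK0
  have hpn : ‖p‖ ≤ 1 := hpp.norm_le
  have hKK0 : ‖K - K0‖ ≤ 2 * ε := by
    have : K - K0 = Q * K + p * (K * Q) := by
      rw [hK0, hp]; simp only [sub_mul, mul_sub, one_mul, mul_one, mul_assoc]; abel
    rw [this]
    calc _ ≤ ‖Q * K‖ + ‖p * (K * Q)‖ := norm_add_le _ _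
      _ ≤ ε + 1 * ε := by
          refine add_le_add hQK ((norm_mul_le _ _).trans ?_)
          gcongr
      _ = 2 * ε := by ring
  have hpK0 : p * K0 = K0 := by rw [hK0, ← mul_assoc, ← mul_assoc, hpp.2]
  have hK0p : K0 * p = K0 := by rw [hK0, mul_assoc, hpp.2]
  have hK0n : ‖K0‖ ≤ k := by
    calc ‖K0‖ ≤ ‖p‖ * ‖K‖ * ‖p‖ :=
          (norm_mul_le _ _).trans (mul_le_mul_of_nonneg_right (norm_mul_le _ _) (norm_nonneg _))
      _ ≤ 1 * k * 1 := by gcongr
      _ = k := by ring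
  obtain ⟨e, y, he, hpe, hyx, hey, hyn, hsm, hco⟩ :=
    spec hB (star K0) hpp (s := 1 / 8) (by norm_num)
  have hsK0p : star K0 * p = star K0 := by
    have := congrArg star hpK0; rwa [star_mul, hpp.1] at this
  rw [mul_assoc, hsK0p] at hyx
  have hep : e * p = e := he.comm_le hpp hpe
  have hK0y : K0 * star y = e := by
    have := congrArg star hyx; rwa [star_mul, star_star, he.1] at this
  set b : A := p * star y with hb
  have hK0b : K0 * b = e := by rw [hb, ← mul_assoc, hK0p, hK0y]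
  have hye : star y * e = star y := by
    have := congrArg star hey; rwa [star_mul, he.1] at this
  have hbe : b * e = b := by rw [hb, mul_assoc, hye]
  have hbn : ‖b‖ ≤ 8 := by
    calc ‖b‖ ≤ ‖p‖ * ‖star y‖ := norm_mul_le _ _
      _ ≤ 1 * (1 / (1 / 8)) := by rw [norm_star]; gcongr
      _ = 8 := by norm_num
  have hpv : p * v = 0 := by rw [hp, sub_mul, one_mul, hQv, sub_self]
  have hvp : star v * p = 0 := by
    have := congrArg star hpv; rwa [star_mul, hpp.1, star_zero] at this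
  set z : A := v * e with hz
  have hsz : star z = e * star v := by rw [hz, star_mul, he.1]
  have hszz : star z * z = e := by
    rw [hsz, hz, mul_assoc, ← mul_assoc (star v), hv, one_mul, he.2]
  have hpz : p * z = 0 := by rw [hz, ← mul_assoc, hpv, zero_mul]
  have hszp : star z * p = 0 := by rw [hsz, mul_assoc, hvp, mul_zero]
  have dat : Dat e z (star z) b := by
    refine ⟨he.2, hszz, by rw [hz, mul_assoc, he.2], ?_, by rw [hsz, ← mul_assoc, he.2], ?_,
      hbe, ?_⟩
    · rw [← hep, mul_assoc, hpz, mul_zero]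
    · rw [← hpe, ← mul_assoc, hszp, zero_mul]
    · rw [hb, ← mul_assoc, hszp, zero_mul]
  have hzn : ‖z‖ ≤ 1 := norm_pi_le he hszz
  have hszn : ‖star z‖ ≤ 1 := by rw [norm_star]; exact hzn
  set ρ : A := rho e z (star z) with hρ
  have hρp : Pr ρ := by
    have h1 : Pr (z * star z) := pi_range he hszz
    have h2 : Pr (e + z * star z) := by
      refine he.add h1 ?_
      rw [mul_assoc, dat.z'e, mul_zero]
    have h3 : ρ = 1 - (e + z * star z) := by rw [hρ, rho]; abel
    rw [h3]; exact h2.compl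
  have hρn : ‖ρ‖ ≤ 1 := hρp.norm_le
  set κ : A := K0 * ρ with hκ
  have hκ' : κ = K0 * (p - e) := by
    rw [hκ, hρ, rho, mul_sub, mul_sub, mul_one, mul_sub, hK0p]
    have : K0 * (z * star z) = 0 := by
      rw [← hK0p, mul_assoc, ← mul_assoc p, hpz]; simp
    rw [this, sub_zero]
  have k1 : κ * ρ = κ := by rw [hκ, mul_assoc, hρp.2]
  have k4 : star z * κ = 0 := by
    rw [hκ, ← hpK0]; simp only [← mul_assoc]; rw [hszp]; simp
  have hκn : ‖κ‖ ≤ k := by
    calc ‖κ‖ ≤ ‖K0‖ * ‖ρ‖ := norm_mul_le _ _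
      _ ≤ k * 1 := by gcongr
      _ = k := mul_one k
  have hφn : ‖κ - e * κ‖ ≤ 1 / 8 := by
    have h1 : κ - e * κ = star (star K0 * (p - e)) * ρ := by
      rw [star_mul, star_star, star_sub, hpp.1, he.1, hκ, sub_mul p e K0, sub_mul _ _ ρ, hpK0,
        mul_assoc e]
    rw [h1]
    calc _ ≤ ‖star (star K0 * (p - e))‖ * ‖ρ‖ := norm_mul_le _ _
      _ ≤ 1 / 8 * 1 := by rw [norm_star]; gcongr
      _ = _ := mul_one _
  have hcinv : ‖c⁻¹‖ ≤ 2 := by
    rw [norm_inv]
    have : ‖c‖⁻¹ ≤ (1 / 2)⁻¹ := inv_anti₀ (by norm_num) hc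
    simpa using this
  set φ : A := c⁻¹ • (κ - e * κ) with hφ
  have hφn' : ‖φ‖ ≤ 1 / 4 := by
    rw [hφ, norm_smul]
    calc ‖c⁻¹‖ * ‖κ - e * κ‖ ≤ 2 * (1 / 8) := by gcongr
      _ = _ := by norm_num
  have hgu : IsUnit (1 + φ) := by
    have : IsUnit (1 - (-φ)) := isUnit_one_sub_of_norm_lt_one (by
      rw [norm_neg]; linarith)
    rwa [sub_neg_eq_add] at this
  obtain ⟨g, hg⟩ := hgu
  have hg'n : ‖(↑g⁻¹ : A)‖ ≤ 2 := by
    have h1 : (↑g⁻¹ : A) = 1 - φ * ↑g⁻¹ := by
      have : (1 + φ) * ↑g⁻¹ = 1 := by rw [← hg, Units.mul_inv]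
      rw [add_mul, one_mul] at this
      rw [eq_sub_iff_add_eq]; exact this
    have h2 : ‖(↑g⁻¹ : A)‖ ≤ 1 + 1 / 4 * ‖(↑g⁻¹ : A)‖ := by
      calc ‖(↑g⁻¹ : A)‖ = ‖1 - φ * (↑g⁻¹ : A)‖ := by rw [← h1]
        _ ≤ ‖(1 : A)‖ + ‖φ * (↑g⁻¹ : A)‖ := norm_sub_le _ _
        _ ≤ 1 + 1 / 4 * ‖(↑g⁻¹ : A)‖ := by
            refine add_le_add (Pr.norm_le Pr.one) ((norm_mul_le _ _).trans ?_)
            gcongr
    linarith
  obtain ⟨l1, l2⟩ := dat.limit hc0 (g := (g : A)) (g' := (↑g⁻¹ : A)) k1 k4 hg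
    (Units.mul_inv g) (Units.inv_mul g) rfl
  set n : A := z * ((↑g⁻¹ : A) * b) + c⁻¹ • (ρ * ((↑g⁻¹ : A) * b)) + z * κ with hn
  have hnn : ‖n‖ ≤ 48 + k := by
    have h1 : ‖(↑g⁻¹ : A) * b‖ ≤ 2 * 8 := (norm_mul_le _ _).trans (by gcongr)
    have h2 : ‖z * ((↑g⁻¹ : A) * b)‖ ≤ 1 * (2 * 8) := (norm_mul_le _ _).trans (by gcongr)
    have h3 : ‖c⁻¹ • (ρ * ((↑g⁻¹ : A) * b))‖ ≤ 2 * (1 * (2 * 8)) := by
      rw [norm_smul]
      refine mul_le_mul hcinv ((norm_mul_le _ _).trans (by gcongr)) (norm_nonneg _)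
        (by norm_num)
    have h4 : ‖z * κ‖ ≤ 1 * k := (norm_mul_le _ _).trans (by gcongr)
    calc ‖n‖ ≤ ‖z * ((↑g⁻¹ : A) * b)‖ + ‖c⁻¹ • (ρ * ((↑g⁻¹ : A) * b))‖ + ‖z * κ‖ :=
          norm_add₃_le
      _ ≤ 1 * (2 * 8) + 2 * (1 * (2 * 8)) + 1 * k := add_le_add (add_le_add h2 h3) h4
      _ = _ := by ring
  have hN : ‖(1 - n + n * n) * (z + star z + c⁻¹ • ρ) * (↑g⁻¹ : A)‖ ≤ C := by
    have h1 : ‖1 - n + n * n‖ ≤ 1 + (48 + k) + (48 + k) * (48 + k) := by
      calc ‖1 - n + n * n‖ ≤ ‖1 - n‖ + ‖n * n‖ := norm_add_le _ _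
        _ ≤ (‖(1 : A)‖ + ‖n‖) + ‖n‖ * ‖n‖ :=
            add_le_add (norm_sub_le _ _) (norm_mul_le _ _)
        _ ≤ 1 + (48 + k) + (48 + k) * (48 + k) := by
            have := Pr.norm_le (A := A) Pr.one
            gcongr
    have h2 : ‖z + star z + c⁻¹ • ρ‖ ≤ 4 := by
      calc ‖z + star z + c⁻¹ • ρ‖ ≤ ‖z‖ + ‖star z‖ + ‖c⁻¹ • ρ‖ := norm_add₃_le
        _ ≤ 1 + 1 + 2 * 1 := by
            rw [norm_smul]; gcongr
        _ = 4 := by norm_num
    calc _ ≤ ‖1 - n + n * n‖ * ‖z + star z + c⁻¹ • ρ‖ * ‖(↑g⁻¹ : A)‖ :=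
          (norm_mul_le _ _).trans (mul_le_mul_of_nonneg_right (norm_mul_le _ _) (norm_nonneg _))
      _ ≤ C := by rw [hC]; gcongr
  set β : ℂ := ((ε : ℝ) : ℂ)⁻¹ with hβ
  have hβ0 : β ≠ 0 := by
    rw [hβ]; exact inv_ne_zero (by exact_mod_cast hε0.ne')
  have hβinv : β⁻¹ = (ε : ℂ) := by rw [hβ, inv_inv]
  refine ⟨(z + b) * wv β e (star z) b, dat.idem β, ?_⟩
  have hA := dat.stepA hβ0 T
  have hCc := dat.stepC β c T
  have hG := dat.unitG hβ0
  have hlim : IsUnit (((z + b) - β⁻¹ • (T * e)) + ((T - c • 1) * (z + b) +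
      ((c - 1) * β⁻¹) • (T * e)) * star z + T * ρ) := by
    refine isUnit_of_near l1 l2 ?_
    have h0 : K0 * (z + b) = e := by
      rw [mul_add, hK0b]
      have : K0 * z = 0 := by rw [← hK0p, mul_assoc, hpz, mul_zero]
      rw [this, zero_add]
    have h1 : (((z + b) - β⁻¹ • (T * e)) + ((T - c • 1) * (z + b) +
      ((c - 1) * β⁻¹) • (T * e)) * star z + T * ρ) - (z + b + star z + c • ρ + κ) =
      -(β⁻¹ • (T * e)) + (K - K0) * (z + b) * star z + ((c - 1) * β⁻¹) • (T * e * star z) +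
        (K - K0) * ρ := by
      have h2 : K0 * (z + b) * star z = star z := by rw [h0, dat.ez']
      have h3 : (K - K0) * (z + b) * star z = K * (z + b) * star z - star z := by
        rw [sub_mul, sub_mul, h2]
      have h4 : (K - K0) * ρ = T * ρ - c • ρ - κ := by
        rw [sub_mul, hK, sub_mul, smul_mul_assoc, one_mul]
      rw [h3, h4, add_mul, smul_mul_assoc]
      abel
    rw [h1]
    have hen := he.norm_le
    have hu : ‖z + b‖ ≤ 9 := by
      calc ‖z + b‖ ≤ ‖z‖ + ‖b‖ := norm_add_le _ _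
        _ ≤ 1 + 8 := add_le_add hzn hbn
        _ = 9 := by norm_num
    have hTe : ‖T * e‖ ≤ ‖T‖ * 1 := (norm_mul_le _ _).trans (by gcongr)
    have hβn : ‖β⁻¹‖ = ε := by
      rw [hβinv, Complex.norm_real, Real.norm_of_nonneg hε0.le]
    have n1 : ‖-(β⁻¹ • (T * e))‖ ≤ ε * (‖T‖ * 1) := by
      rw [norm_neg, norm_smul, hβn]; gcongr
    have n2 : ‖(K - K0) * (z + b) * star z‖ ≤ 2 * ε * 9 * 1 :=
      (norm_mul_le _ _).trans (mul_le_mul ((norm_mul_le _ _).trans (by gcongr)) hszn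
        (norm_nonneg _) (by positivity))
    have n3 : ‖((c - 1) * β⁻¹) • (T * e * star z)‖ ≤ ‖c - 1‖ * ε * (‖T‖ * 1 * 1) := by
      rw [norm_smul, norm_mul, hβn]
      refine mul_le_mul_of_nonneg_left ?_ (by positivity)
      exact (norm_mul_le _ _).trans (mul_le_mul hTe hszn (norm_nonneg _) (by positivity))
    have n4 : ‖(K - K0) * ρ‖ ≤ 2 * ε * 1 := (norm_mul_le _ _).trans (by gcongr)
    have htot : ‖-(β⁻¹ • (T * e)) + (K - K0) * (z + b) * star z +
        ((c - 1) * β⁻¹) • (T * e * star z) + (K - K0) * ρ‖ ≤ ε * D := by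
      calc _ ≤ ‖-(β⁻¹ • (T * e))‖ + ‖(K - K0) * (z + b) * star z‖ +
            ‖((c - 1) * β⁻¹) • (T * e * star z)‖ + ‖(K - K0) * ρ‖ := by
            refine (norm_add_le _ _).trans (add_le_add ?_ le_rfl)
            exact norm_add₃_le
        _ ≤ ε * (‖T‖ * 1) + 2 * ε * 9 * 1 + ‖c - 1‖ * ε * (‖T‖ * 1 * 1) + 2 * ε * 1 := by
            gcongr
        _ = ε * D := by rw [hD]; ring
    calc _ ≤ (ε * D) * C := mul_le_mul htot hN (norm_nonneg _) (by positivity)
      _ < 1 := hεDC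
  rw [← hCc] at hlim
  have u1 : IsUnit (1 - z) := unit_of_sq_zero dat.z2
  have u2 : IsUnit (1 - (c - 1) • star z) := by
    refine unit_of_sq_zero ?_
    rw [smul_mul_assoc, mul_smul_comm, dat.z'2]; simp
  have hS := (IsUnit.mul_right_iff u1).1 ((IsUnit.mul_right_iff u2).1 hlim)
  rw [← hA] at hS
  exact (IsUnit.mul_right_iff hG).1 hS

end Pool.Agent.V11111.AW
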