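import Pool.Agent.V11111.AW.Base

/-!
Spectral projections of `x* x`, halving, polar decomposition, exchange.
-/

set_option autoImplicit false
set_option linter.unusedSimpArgs false
set_option linter.unusedVariables false

namespace Pool.Agent.V11111.AW

variable {A : Type*} [CStarAlgebra A]

section order

variable [PartialOrder A] [StarOrderedRing A]

lemma unit_inv_nonneg {u : Aˣ} (hu : (0 : A) ≤ u) : (0 : A) ≤ (↑u⁻¹ : A) := by
  have h1 : star (u : A) = u := hu.isSelfAdjoint.star_eq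
  have h2 : star (↑u⁻¹ : A) = ↑u⁻¹ := by
    have h3 : star (↑u⁻¹ : A) * u = 1 := by
      have := congrArg star (Units.mul_inv u)
      rwa [star_mul, star_one, h1] at this
    calc star (↑u⁻¹ : A) = star (↑u⁻¹ : A) * (u * ↑u⁻¹) := by rw [Units.mul_inv, mul_one]
      _ = _ := by rw [← mul_assoc, h3, one_mul]
  have h3 := star_left_conjugate_nonneg hu (↑u⁻¹ : A)
  rwa [h2, Units.inv_mul, one_mul] at h3

lemma norm_le_of_both {z : A} (hz : IsSelfAdjoint z) {r : ℝ} (hr : 0 ≤ r)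
    (h1 : -(algebraMap ℝ A r) ≤ z) (h2 : z ≤ algebraMap ℝ A r) : ‖z‖ ≤ r := by
  obtain (h | _) := subsingleton_or_nontrivial A
  · rw [Subsingleton.elim z 0, norm_zero]; exact hr
  have h1' : algebraMap ℝ A (-r) ≤ z := by rwa [map_neg]
  rcases CStarAlgebra.norm_or_neg_norm_mem_spectrum (a := z) hz with h | h
  · exact (le_algebraMap_iff_spectrum_le hz).1 h2 _ h
  · have := (algebraMap_le_iff_le_spectrum hz).1 h1' _ h
    linarith

lemma spec_aux (hB : Baer A) (x : A) {Q : A} (hQ : Pr Q) {s : ℝ} (hs : 0 < s) :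
    ∃ e y : A, Pr e ∧ Q * e = e ∧ y * x * Q = e ∧ e * y = y ∧ ‖y‖ ≤ 1 / s ∧
      ‖x * (Q - e)‖ ≤ s ∧ (Q - e) * (star x * x) * e = 0 := by
  set w : A := star (x * Q) * (x * Q) with hw
  have hQw : Q * w = w := by
    rw [hw, star_mul, hQ.1]; simp only [← mul_assoc, hQ.2]
  have hwQ : w * Q = w := by
    rw [hw]; rw [mul_assoc, mul_assoc, hQ.2]
  have hwsa : star w = w := by rw [hw, star_mul, star_star]
  set a : A := w - (s ^ 2 : ℝ) • Q with ha
  have hasa : star a = a := by
    rw [ha, star_sub, star_smul, hQ.1, hwsa]; simp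
  have hQa : Q * a = a := by
    rw [ha, mul_sub, hQw, mul_smul_comm, hQ.2]
  have haQ : a * Q = a := by
    rw [ha, sub_mul, hwQ, smul_mul_assoc, hQ.2]
  obtain ⟨e, he, hQe, hae, hea, hec, hce⟩ := split_aux hB hasa hQ hQa
  have heQ : e * Q = e := he.comm_le hQ hQe
  have hwa : w = a + (s ^ 2 : ℝ) • Q := by rw [ha]; abel
  set c : A := a⁺ with hc
  have hc0 : 0 ≤ c := CFC.posPart_nonneg a
  have hcsa : star c = c := hc0.isSelfAdjoint.star_eq
  have hs2 : (0:ℝ) < s ^ 2 := by positivity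
  have hwe : w * e = c + (s ^ 2 : ℝ) • e := by
    rw [hwa, add_mul, hae, smul_mul_assoc, hQe]
  have hew : e * w = c + (s ^ 2 : ℝ) • e := by
    rw [hwa, mul_add, hea, mul_smul_comm, heQ]
  have hb1 : (1 : A) ≤ 1 + ((s ^ 2)⁻¹ : ℝ) • c := by
    have : (0 : A) ≤ ((s ^ 2)⁻¹ : ℝ) • c := smul_nonneg (by positivity) hc0
    exact le_add_of_nonneg_right this
  have hbu : IsUnit (1 + ((s ^ 2)⁻¹ : ℝ) • c) :=
    CStarAlgebra.isUnit_of_le (1 : A) hb1 (by
      rw [IsStrictlyPositive.iff_of_unital]; exact ⟨zero_le_one, isUnit_one⟩)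
  obtain ⟨u, hu⟩ := hbu
  have hu1 : (1 : A) ≤ u := by rw [hu]; exact hb1
  have hinv1 : (↑u⁻¹ : A) ≤ 1 := CStarAlgebra.inv_le_one hu1
  have hinv0 : (0 : A) ≤ (↑u⁻¹ : A) := unit_inv_nonneg (zero_le_one.trans hu1)
  have hinvn : ‖(↑u⁻¹ : A)‖ ≤ 1 := (CStarAlgebra.norm_le_one_iff_of_nonneg _ hinv0).2 hinv1
  have hinvsa : star (↑u⁻¹ : A) = ↑u⁻¹ := hinv0.isSelfAdjoint.star_eq
  have hcomm : e * (u : A) = u * e := by
    rw [hu, mul_add, add_mul, mul_smul_comm, smul_mul_assoc, hec, hce, one_mul, mul_one]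
  have hcomm' : e * (↑u⁻¹ : A) = ↑u⁻¹ * e := by
    have : Commute e (u : A) := hcomm
    exact this.units_inv_right.eq
  have hue : (u : A) * e = e + ((s ^ 2)⁻¹ : ℝ) • c := by
    rw [hu, add_mul, smul_mul_assoc, hce, one_mul]
  have hwe' : e * w = (s ^ 2 : ℝ) • ((u : A) * e) := by
    rw [hue, hew, smul_add, smul_smul, mul_inv_cancel₀ hs2.ne', one_smul]; abel
  have hexQ : e * star x = e * star (x * Q) := by
    rw [star_mul, hQ.1, ← mul_assoc, heQ]
  set y : A := ((s ^ 2)⁻¹ : ℝ) • ((↑u⁻¹ : A) * (e * star x)) with hy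
  have hey : e * y = y := by
    rw [hy, mul_smul_comm, ← mul_assoc, hcomm', mul_assoc, ← mul_assoc e, he.2]
  have hyxQ : y * x * Q = e := by
    have h1 : y * x * Q = ((s ^ 2)⁻¹ : ℝ) • ((↑u⁻¹ : A) * (e * w)) := by
      rw [hy, hexQ, hw]; simp only [smul_mul_assoc, mul_assoc]
    rw [h1, hwe', mul_smul_comm, smul_smul, inv_mul_cancel₀ hs2.ne', one_smul, ← mul_assoc,
      Units.inv_mul, one_mul]
  refine ⟨e, y, he, hQe, hyxQ, hey, ?_, ?_, ?_⟩
  · have h1 : y * star y = ((s ^ 2)⁻¹ : ℝ) • (e * (↑u⁻¹ : A)) := by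
      have h2 : star y = ((s ^ 2)⁻¹ : ℝ) • ((x * Q) * e * (↑u⁻¹ : A)) := by
        rw [hy, hexQ, star_smul, star_mul, star_mul, star_star, hinvsa, he.1]; simp
      calc y * star y = y * x * Q * (((s ^ 2)⁻¹ : ℝ) • (e * (↑u⁻¹ : A))) := by
            rw [h2]; simp only [mul_smul_comm, mul_assoc]
        _ = _ := by rw [hyxQ, mul_smul_comm, ← mul_assoc, he.2]
    have h3 : ‖y‖ * ‖y‖ ≤ (s ^ 2)⁻¹ := by
      rw [← CStarRing.norm_self_mul_star, h1, norm_smul, Real.norm_of_nonneg (by positivity)]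
      calc (s ^ 2)⁻¹ * ‖e * (↑u⁻¹ : A)‖ ≤ (s ^ 2)⁻¹ * (1 * 1) := by
            gcongr
            exact (norm_mul_le _ _).trans (mul_le_mul he.norm_le hinvn (norm_nonneg _)
              zero_le_one)
        _ = _ := by ring
    have h4 : (1 / s) ^ 2 = (s ^ 2)⁻¹ := by field_simp
    have h5 : (0 : ℝ) ≤ 1 / s := by positivity
    nlinarith [norm_nonneg y]
  · have hd0 : 0 ≤ a⁻ := CFC.negPart_nonneg a
    have haeq : c - a⁻ = a := CFC.posPart_sub_negPart a hasa
    have hneg : a * (Q - e) = - a⁻ := by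
      rw [mul_sub, haQ, hae]; nth_rw 1 [← haeq]; abel
    have hneg' : (Q - e) * a = - a⁻ := by
      rw [sub_mul, hQa, hea]; nth_rw 1 [← haeq]; abel
    have hQeQe : (Q - e) * (Q - e) = Q - e := (he.sub hQ hQe).2
    have h1 : star (x * (Q - e)) * (x * (Q - e)) = (s ^ 2 : ℝ) • (Q - e) - a⁻ := by
      have h2 : x * (Q - e) = x * Q * (Q - e) := by
        rw [mul_assoc, mul_sub Q, hQ.2, hQe]
      rw [h2, star_mul (x * Q), (he.sub hQ hQe).1]
      have h3 : (Q - e) * star (x * Q) * (x * Q * (Q - e)) = (Q - e) * (w * (Q - e)) := by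
        rw [hw]; simp only [mul_assoc]
      rw [h3, hwa, add_mul, hneg, smul_mul_assoc, mul_sub Q, hQ.2, hQe, mul_add, mul_smul_comm,
        hQeQe, ← hneg, ← mul_assoc, hneg']
      have h4 : a⁻ * (Q - e) = a⁻ := by
        have h5 : (a * (Q - e)) * (Q - e) = a * (Q - e) := by rw [mul_assoc, hQeQe]
        rw [hneg] at h5
        have := neg_injective (a₁ := a⁻ * (Q - e)) (a₂ := a⁻) (by simpa using h5)
        exact this
      rw [neg_mul, h4]; abel
    have h0 : (0:A) ≤ (s ^ 2 : ℝ) • (Q - e) - a⁻ := by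
      rw [← h1]; exact star_mul_self_nonneg _
    have h6 : (s ^ 2 : ℝ) • (Q - e) - a⁻ ≤ algebraMap ℝ A (s ^ 2) := by
      have h7 : (0:A) ≤ 1 - (Q - e) := by
        have hp := (he.sub hQ hQe).compl
        rw [← hp.2]; nth_rw 1 [← hp.1]
        exact star_mul_self_nonneg _
      have h8 : (0 : A) ≤ (s ^ 2 : ℝ) • (1 - (Q - e)) := smul_nonneg hs2.le h7
      rw [Algebra.algebraMap_eq_smul_one]
      rw [smul_sub] at h8
      have h9 : (s ^ 2 : ℝ) • (Q - e) ≤ (s ^ 2 : ℝ) • (1 : A) := sub_nonneg.1 h8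
      exact (sub_le_self _ hd0).trans h9
    have h10 : ‖(s ^ 2 : ℝ) • (Q - e) - a⁻‖ ≤ s ^ 2 :=
      (CStarAlgebra.norm_le_iff_le_algebraMap _ hs2.le h0).2 h6
    rw [← h1, CStarRing.norm_star_mul_self] at h10
    nlinarith [norm_nonneg (x * (Q - e))]
  · have h1 : (Q - e) * (star x * x) * e = (Q - e) * (w * e) := by
      have h2 : (Q - e) * star x = (Q - e) * star (x * Q) := by
        rw [star_mul, hQ.1, ← mul_assoc, sub_mul Q e Q, hQ.2, heQ]
      have h3 : x * e = x * Q * e := by rw [mul_assoc, hQe]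
      calc (Q - e) * (star x * x) * e = ((Q - e) * star x) * (x * e) := by
            simp only [mul_assoc]
        _ = _ := by rw [h2, h3, hw]; simp only [mul_assoc]
    have hQc : Q * c = c := by rw [← hec, ← mul_assoc, hQe]
    rw [h1, hwe, mul_add, sub_mul, hQc, hec, sub_self, mul_smul_comm, sub_mul, hQe, he.2]
    simp

lemma halve_aux (hB : Baer A) {a P : A} (ha : star a = a) (hP : Pr P) {c l : ℝ}
    (hl : ‖P * a * P - c • P‖ ≤ l) :
    ∃ e : A, Pr e ∧ P * e = e ∧ ‖e * a * e - (c + l / 2) • e‖ ≤ l / 2 ∧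
      ‖(P - e) * a * (P - e) - (c - l / 2) • (P - e)‖ ≤ l / 2 := by
  set d : A := P * a * P - c • P with hd
  have hl0 : 0 ≤ l := (norm_nonneg _).trans hl
  have hdsa : star d = d := by
    rw [hd, star_sub, star_mul, star_mul, hP.1, ha, star_smul, hP.1]; simp [mul_assoc]
  have hPd : P * d = d := by
    rw [hd, mul_sub, ← mul_assoc, ← mul_assoc, hP.2, mul_smul_comm, hP.2]
  obtain ⟨e, he, hPe, hde, hed, hec, hce⟩ := split_aux hB hdsa hP hPd
  have heP : e * P = e := he.comm_le hP hPe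
  have hf := he.sub hP hPe
  have hdn : ‖d‖ ≤ l := hl
  have hdP : d * P = d := by
    have := congrArg star hPd
    rwa [star_mul, hP.1, hdsa] at this
  have hsub : d⁺ - d⁻ = d := CFC.posPart_sub_negPart d hdsa
  -- general bound
  have key : ∀ (z f : A), Pr f → 0 ≤ z → z ≤ l • f → ‖z - (l / 2) • f‖ ≤ l / 2 := by
    intro z f hf' hz0 hz1
    have h1 : (0:A) ≤ 1 - f := by
      have hp := hf'.compl
      rw [← hp.2]; nth_rw 1 [← hp.1]
      exact star_mul_self_nonneg _
    have h2 : (0:A) ≤ f := by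
      rw [← hf'.2]; nth_rw 1 [← hf'.1]
      exact star_mul_self_nonneg _
    have hsa : IsSelfAdjoint (z - (l / 2) • f) := by
      refine IsSelfAdjoint.sub hz0.isSelfAdjoint ?_
      exact (IsSelfAdjoint.smul (IsSelfAdjoint.all _) hf'.1)
    have h3 : z - (l / 2) • f ≤ algebraMap ℝ A (l / 2) := by
      rw [Algebra.algebraMap_eq_smul_one]
      have h4 : (0 : A) ≤ (l / 2) • (1 - f) := smul_nonneg (by positivity) h1
      have h5 : (l / 2) • f ≤ (l / 2) • (1 : A) := by
        rw [smul_sub] at h4; exact sub_nonneg.1 h4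
      calc z - (l / 2) • f ≤ l • f - (l / 2) • f := sub_le_sub_right hz1 _
        _ = (l / 2) • f := by rw [← sub_smul]; congr 1; ring
        _ ≤ _ := h5
    have h6 : -(algebraMap ℝ A (l / 2)) ≤ z - (l / 2) • f := by
      rw [Algebra.algebraMap_eq_smul_one]
      have h4 : (0 : A) ≤ (l / 2) • (1 - f) := smul_nonneg (by positivity) h1
      have h5 : (l / 2) • f ≤ (l / 2) • (1 : A) := by
        rw [smul_sub] at h4; exact sub_nonneg.1 h4
      calc -((l / 2) • (1:A)) ≤ - ((l / 2) • f) := neg_le_neg h5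
        _ = 0 - (l / 2) • f := by rw [zero_sub]
        _ ≤ _ := sub_le_sub_right hz0 _
    exact norm_le_of_both hsa (by positivity) h6 h3
  have hdle : ∀ z : A, 0 ≤ z → ‖z‖ ≤ l → ∀ f : A, Pr f → f * z = z → z * f = z → z ≤ l • f := by
    intro z hz0 hzl f hf' h1 h2
    have h3 : z ≤ algebraMap ℝ A l := (CStarAlgebra.norm_le_iff_le_algebraMap _ hl0 hz0).1 hzl
    have h4 := star_left_conjugate_le_conjugate h3 f
    rw [hf'.1, h1, h2, Algebra.algebraMap_eq_smul_one, mul_smul_comm, mul_one, smul_mul_assoc,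
      hf'.2] at h4
    exact h4
  have hc0 : 0 ≤ d⁺ := CFC.posPart_nonneg d
  have hd0 : 0 ≤ d⁻ := CFC.negPart_nonneg d
  have hcn : ‖d⁺‖ ≤ l := (CStarAlgebra.norm_posPart_le d).trans hdn
  have hdn' : ‖d⁻‖ ≤ l := (CStarAlgebra.norm_negPart_le d).trans hdn
  have hneg : d * (P - e) = - d⁻ := by
    rw [mul_sub, hdP, hde]; nth_rw 1 [← hsub]; abel
  have hneg' : (P - e) * d = - d⁻ := by
    rw [sub_mul, hPd, hed]; nth_rw 1 [← hsub]; abel
  have hPeq : P * a * P = d + c • P := by rw [hd]; abel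
  have hee : ∀ g : A, Pr g → P * g = g → g * a * g = g * d * g + c • g := by
    intro g hg hPg
    have hgP : g * P = g := hg.comm_le hP hPg
    calc g * a * g = (g * P) * a * (P * g) := by rw [hPg, hgP]
      _ = g * (P * a * P) * g := by simp only [mul_assoc]
      _ = _ := by rw [hPeq, mul_add, add_mul, mul_smul_comm, hgP, smul_mul_assoc, hg.2]
  have hPf : P * (P - e) = P - e := by rw [mul_sub, hP.2, hPe]
  refine ⟨e, he, hPe, ?_, ?_⟩
  · have h1 : e * a * e - (c + l / 2) • e = d⁺ - (l / 2) • e := by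
      rw [hee e he hPe, hed, hce, add_smul]; abel
    rw [h1]
    exact key _ _ he hc0 (hdle _ hc0 hcn e he hec hce)
  · have h2 : (P - e) * d * (P - e) = - d⁻ := by
      rw [hneg', neg_mul]
      have h5 : (d * (P - e)) * (P - e) = d * (P - e) := by rw [mul_assoc, hf.2]
      rw [hneg] at h5
      rwa [neg_mul] at h5
    have h3 : d⁻ * (P - e) = d⁻ := by
      rw [hneg', neg_mul] at h2
      exact neg_injective h2
    have h4 : (P - e) * d⁻ = d⁻ := by
      have := congrArg star h3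
      rwa [star_mul, hf.1, hd0.isSelfAdjoint.star_eq] at this
    have h1 : (P - e) * a * (P - e) - (c - l / 2) • (P - e) = -(d⁻ - (l / 2) • (P - e)) := by
      rw [hee _ hf hPf, h2, sub_smul]; abel
    rw [h1, norm_neg]
    exact key _ _ hf hd0 (hdle _ hd0 hdn' _ hf h4 h3)

lemma pol_aux {x e y : A} (he : Pr e) (hy : y * x * e = e) :
    ∃ v k m : A, star v * v = e ∧ v = x * e * k ∧ x * e = v * m ∧ e * k = k * e ∧
      star (x * e) * (x * e) * k = k * (star (x * e) * (x * e)) ∧ star k = k := by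
  set w : A := star (x * e) * (x * e) with hw
  have hew : e * w = w := by rw [hw, star_mul, he.1]; simp only [← mul_assoc, he.2]
  have hwe : w * e = w := by rw [hw, mul_assoc, mul_assoc, he.2]
  set C : ℝ := ‖y‖ ^ 2 + 1 with hC
  have hC0 : 0 < C := by positivity
  have h1 : e ≤ C • w := by
    have h2 : e = star (y * (x * e)) * (y * (x * e)) := by
      rw [← mul_assoc y, hy, he.1, he.2]
    have h3 : star (y * (x * e)) * (y * (x * e)) = star (x * e) * (star y * y) * (x * e) := by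
      rw [star_mul]; simp only [mul_assoc]
    have h4 : star y * y ≤ algebraMap ℝ A (‖y‖ ^ 2) := CStarAlgebra.star_mul_le_algebraMap_norm_sq
    have h5 := star_left_conjugate_le_conjugate h4 (x * e)
    rw [← h3, ← h2, Algebra.algebraMap_eq_smul_one, mul_smul_comm, mul_one, smul_mul_assoc,
      ← hw] at h5
    have h6 : (0 : A) ≤ w := star_mul_self_nonneg _
    calc e ≤ (‖y‖ ^ 2) • w := h5
      _ ≤ C • w := by rw [hC, add_smul, one_smul]; exact le_add_of_nonneg_right h6
  set m : A := w + (1 - e) with hm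
  have hmc : algebraMap ℝ A C⁻¹ ≤ m := by
    have h7 : (1 : A) ≤ C • m := by
      have h8 : (0:A) ≤ 1 - e := by
        have hp := he.compl
        rw [← hp.2]; nth_rw 1 [← hp.1]
        exact star_mul_self_nonneg _
      have hC1 : 0 ≤ C - 1 := by rw [hC]; simp
      have h9 : (0 : A) ≤ (C - 1) • (1 - e) := smul_nonneg hC1 h8
      calc (1 : A) = e + (1 - e) := by abel
        _ ≤ C • w + (1 - e) := by gcongr
        _ ≤ C • w + (1 - e) + (C - 1) • (1 - e) := le_add_of_nonneg_right h9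
        _ = C • m := by rw [hm, smul_add, sub_smul, one_smul]; abel
    have h8 : C⁻¹ • (1 : A) ≤ C⁻¹ • (C • m) := smul_le_smul_of_nonneg_left h7 (by positivity)
    rw [smul_smul, inv_mul_cancel₀ hC0.ne', one_smul] at h8
    rw [Algebra.algebraMap_eq_smul_one]
    exact h8
  obtain ⟨g, hg1, hg2, hg3⟩ := root_aux (by positivity) hmc
  have hem : e * m = m * e := by
    rw [hm, mul_add, add_mul, hew, hwe, mul_sub, sub_mul, mul_one, one_mul]
  have heg : e * g = g * e := hg3 e hem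
  have hwm : w * m = m * w := by
    rw [hm, mul_add, add_mul, mul_sub, sub_mul, mul_one, one_mul, hew, hwe]
  refine ⟨x * e * g, g, m * g, ?_, rfl, ?_, heg, hg3 w hwm, hg1⟩
  · have h3 : m * e = w := by rw [hm, add_mul, hwe, sub_mul, one_mul, he.2, sub_self, add_zero]
    calc star (x * e * g) * (x * e * g) = g * w * g := by
          rw [star_mul, hg1, hw]; simp only [mul_assoc]
      _ = g * m * (e * g) := by rw [← h3]; simp only [mul_assoc]
      _ = (g * m * g) * e := by rw [heg]; simp only [mul_assoc]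
      _ = e := by rw [hg2, one_mul]
  · rw [mul_assoc (x * e), ← mul_assoc g, hg2, mul_one]

lemma exch_root (k : A) : ∃ g g' : A, star g = g ∧ g * g' = 1 ∧ g' * g = 1 ∧
    star (k * g) * (k * g) + star ((1 - k) * g) * ((1 - k) * g) = 1 := by
  set m : A := star k * k + star (1 - k) * (1 - k) with hm
  have hm' : m = (1 / 2 : ℝ) • (1 : A) +
      (2 : ℝ) • (star (k - (1 / 2 : ℝ) • (1 : A)) * (k - (1 / 2 : ℝ) • (1 : A))) := by
    rw [hm]
    simp only [star_sub, star_one, star_smul, sub_mul, mul_sub, one_mul, mul_one, smul_sub,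
      mul_smul_comm, smul_mul_assoc, star_trivial, smul_smul]
    norm_num
    module
  have hle : algebraMap ℝ A (1 / 2) ≤ m := by
    rw [hm', Algebra.algebraMap_eq_smul_one]
    exact le_add_of_nonneg_right (smul_nonneg (by norm_num) (star_mul_self_nonneg _))
  obtain ⟨g, hg1, hg2, hg3⟩ := root_aux (by norm_num) hle
  have hmg : m * g = g * m := hg3 m rfl
  refine ⟨g, m * g, hg1, ?_, ?_, ?_⟩
  · rw [← mul_assoc, hg2]
  · rw [hmg, hg2]
  · have : star (k * g) * (k * g) + star ((1 - k) * g) * ((1 - k) * g) = g * m * g := by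
      rw [star_mul, star_mul, hg1, hm]; simp only [mul_add, add_mul, mul_assoc]
    rw [this, hg2]

lemma compl_above_aux {x x' e y : A} (he : Pr e) (hy : y * x * e = e) {s : ℝ} (hs : 0 < s)
    (hs1 : s < 1) (hyn : ‖y‖ ≤ 1 / s) (h1 : e * (star x * x + star x' * x') * e = e) :
    ‖x' * e‖ ^ 2 ≤ 1 - s ^ 2 := by
  set w : A := star (x * e) * (x * e) with hw
  set w' : A := star (x' * e) * (x' * e) with hw'
  have hsum : w + w' = e := by
    rw [hw, hw', star_mul, star_mul, he.1]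
    have : e * star x * (x * e) + e * star x' * (x' * e) =
        e * (star x * x + star x' * x') * e := by simp only [mul_add, add_mul, mul_assoc]
    rw [this, h1]
  have h0 : (0 : A) ≤ w := star_mul_self_nonneg _
  have h0' : (0 : A) ≤ w' := star_mul_self_nonneg _
  have h2 : e = star (y * (x * e)) * (y * (x * e)) := by
    rw [← mul_assoc y, hy, he.1, he.2]
  have h3 : star (y * (x * e)) * (y * (x * e)) = star (x * e) * (star y * y) * (x * e) := by
    rw [star_mul]; simp only [mul_assoc]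
  have h4 : star y * y ≤ algebraMap ℝ A (‖y‖ ^ 2) := CStarAlgebra.star_mul_le_algebraMap_norm_sq
  have h5 := star_left_conjugate_le_conjugate h4 (x * e)
  rw [← h3, ← h2, Algebra.algebraMap_eq_smul_one, mul_smul_comm, mul_one, smul_mul_assoc,
    ← hw] at h5
  have h6 : ‖y‖ ^ 2 ≤ (s ^ 2)⁻¹ := by
    have : (1 / s) ^ 2 = (s ^ 2)⁻¹ := by field_simp
    rw [← this]
    exact pow_le_pow_left₀ (norm_nonneg _) hyn 2
  have h7 : e ≤ (s ^ 2)⁻¹ • w := h5.trans (smul_le_smul_of_nonneg_right h6 h0)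
  have hs2 : (0 : ℝ) < s ^ 2 := by positivity
  have h8 : (s ^ 2) • e ≤ w := by
    have := smul_le_smul_of_nonneg_left h7 hs2.le
    rwa [smul_smul, mul_inv_cancel₀ hs2.ne', one_smul] at this
  have hs3 : 0 ≤ 1 - s ^ 2 := by nlinarith
  have h9 : w' ≤ (1 - s ^ 2) • e := by
    have : w' = e - w := by rw [← hsum]; abel
    rw [this, sub_smul, one_smul]
    exact sub_le_sub_left h8 e
  have h10 : e ≤ 1 := by
    have h8 : (0:A) ≤ 1 - e := by
      have hp := he.compl
      rw [← hp.2]; nth_rw 1 [← hp.1]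
      exact star_mul_self_nonneg _
    exact sub_nonneg.1 h8
  have h11 : w' ≤ algebraMap ℝ A (1 - s ^ 2) := by
    rw [Algebra.algebraMap_eq_smul_one]
    exact h9.trans (smul_le_smul_of_nonneg_left h10 hs3)
  have h12 := (CStarAlgebra.norm_le_iff_le_algebraMap _ hs3 h0').2 h11
  rwa [hw', CStarRing.norm_star_mul_self, ← sq] at h12

end order

lemma compl_above {x x' e y : A} (he : Pr e) (hy : y * x * e = e) {s : ℝ} (hs : 0 < s)
    (hs1 : s < 1) (hyn : ‖y‖ ≤ 1 / s) (h1 : e * (star x * x + star x' * x') * e = e) :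
    ‖x' * e‖ ^ 2 ≤ 1 - s ^ 2 := by
  let _ := CStarAlgebra.spectralOrder A
  have _ := CStarAlgebra.spectralOrderedRing A
  exact compl_above_aux he hy hs hs1 hyn h1

lemma exch_root' (k : A) : ∃ g g' : A, star g = g ∧ g * g' = 1 ∧ g' * g = 1 ∧
    star (k * g) * (k * g) + star ((1 - k) * g) * ((1 - k) * g) = 1 := by
  let _ := CStarAlgebra.spectralOrder A
  have _ := CStarAlgebra.spectralOrderedRing A
  exact exch_root k

lemma spec (hB : Baer A) (x : A) {Q : A} (hQ : Pr Q) {s : ℝ} (hs : 0 < s) :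
    ∃ e y : A, Pr e ∧ Q * e = e ∧ y * x * Q = e ∧ e * y = y ∧ ‖y‖ ≤ 1 / s ∧
      ‖x * (Q - e)‖ ≤ s ∧ (Q - e) * (star x * x) * e = 0 := by
  let _ := CStarAlgebra.spectralOrder A
  have _ := CStarAlgebra.spectralOrderedRing A
  exact spec_aux hB x hQ hs

lemma halve (hB : Baer A) {a P : A} (ha : star a = a) (hP : Pr P) {c l : ℝ}
    (hl : ‖P * a * P - c • P‖ ≤ l) :
    ∃ e : A, Pr e ∧ P * e = e ∧ ‖e * a * e - (c + l / 2) • e‖ ≤ l / 2 ∧
      ‖(P - e) * a * (P - e) - (c - l / 2) • (P - e)‖ ≤ l / 2 := by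
  let _ := CStarAlgebra.spectralOrder A
  have _ := CStarAlgebra.spectralOrderedRing A
  exact halve_aux hB ha hP hl

lemma pol {x e y : A} (he : Pr e) (hy : y * x * e = e) :
    ∃ v k m : A, star v * v = e ∧ v = x * e * k ∧ x * e = v * m ∧ e * k = k * e ∧
      star (x * e) * (x * e) * k = k * (star (x * e) * (x * e)) ∧ star k = k := by
  let _ := CStarAlgebra.spectralOrder A
  have _ := CStarAlgebra.spectralOrderedRing A
  exact pol_aux he hy

/-- complementary lower bound -/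
lemma compl_below {x x' f : A} (hf : Pr f) (h1 : f * (star x * x + star x' * x') * f = f)
    {s : ℝ} (hs : s < 1) (hs0 : 0 ≤ s) (hx : ‖x * f‖ ≤ s) :
    ∃ y : A, y * (x' * f) = f ∧ f * y = y ∧ ∃ z : A, y = z * star (x' * f) := by
  set c : A := star (x * f) * (x * f) with hc
  have hcn : ‖c‖ < 1 := by
    rw [hc, CStarRing.norm_star_mul_self]
    nlinarith [norm_nonneg (x * f)]
  have hu : IsUnit (1 - c) := isUnit_one_sub_of_norm_lt_one hcn
  obtain ⟨u, hu⟩ := hu
  have hcf : c * f = c := by rw [hc, mul_assoc, mul_assoc, hf.2]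
  have hfc : f * c = c := by rw [hc, star_mul, hf.1]; simp only [← mul_assoc, hf.2]
  have h2 : star (x' * f) * (x' * f) = f - c := by
    have h3 : f * (star x * x + star x' * x') * f = c + star (x' * f) * (x' * f) := by
      rw [hc, star_mul, star_mul, hf.1]; simp only [mul_add, add_mul, mul_assoc]
    rw [h1] at h3
    rw [eq_sub_iff_add_eq, add_comm]; exact h3.symm
  have h4 : (u : A) * f = f - c := by rw [hu, sub_mul, one_mul, hcf]
  have h5 : f * (u : A) = u * f := by
    rw [hu, sub_mul, mul_sub, one_mul, mul_one, hcf, hfc]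
  have h5' : f * (↑u⁻¹ : A) = ↑u⁻¹ * f := by
    have : Commute f (u : A) := h5
    exact this.units_inv_right.eq
  refine ⟨↑u⁻¹ * star (x' * f), ?_, ?_, _, rfl⟩
  · rw [mul_assoc, h2, ← h4, ← mul_assoc, Units.inv_mul, one_mul]
  · rw [star_mul, hf.1, ← mul_assoc, ← mul_assoc, h5', mul_assoc (↑u⁻¹ : A), hf.2, mul_assoc]

end Pool.Agent.V11111.AW
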