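import Pool.Agent.V11111.AW.Eqv
import Pool.Agent.V11111.AW.Mat

/-!
Infinite prime Baer C*-algebras contain a Cuntz pair; absorption.
-/

set_option autoImplicit false
set_option linter.unusedSimpArgs false
set_option linter.unusedVariables false

namespace Pool.Agent.V11111.AW

variable {A : Type*} [CStarAlgebra A]

/-- a wandering projection can be absorbed -/
lemma wander (hB : Baer A) {t ρ : A} (ht : star t * t = 1) (hρ : Pr ρ) (h : star t * ρ = 0) :
    ∃ u : A, star u * u = 1 ∧ u * star u = 1 - ρ := by
  have hρt : ρ * t = 0 := by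
    have := congrArg star h; rwa [star_mul, star_star, hρ.1, star_zero] at this
  set r : ℕ → A := fun n => t ^ n * ρ * star (t ^ n) with hr
  have hrs : ∀ n, star (r n) = r n := fun n => by
    rw [hr]; simp [mul_assoc, hρ.1]
  have hr0 : r 0 = ρ := by rw [hr]; simp
  have htr : ∀ n, t * r n * star t = r (n + 1) := fun n => by
    rw [hr]; simp only [pow_succ' t n, star_mul, mul_assoc]
  have htr' : ∀ n, r (n + 1) * t = t * r n := fun n => by
    rw [← htr, mul_assoc, ht, mul_one]
  obtain ⟨P, hP⟩ := exists_sup hB r hrs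
  have hPr : ∀ n, P * r n = r n := fun n => hP.left hrs n
  have H1 : (1 - P) * t * P = 0 := by
    refine hP.2.2 _ fun n => ?_
    rw [mul_assoc, ← htr' n, ← mul_assoc, sub_mul, one_mul, hPr, sub_self, zero_mul]
  have H1' : P * star t * (1 - P) = 0 := by
    have := congrArg star H1
    rwa [star_mul, star_mul, hP.1.1, hP.1.compl.1, star_zero, ← mul_assoc] at this
  have hρP : ρ * P = ρ := by rw [← hr0]; exact hP.2.1 0
  have hPtP : P * star t * P = P * star t := by
    rw [mul_sub, mul_one, sub_eq_zero] at H1'; exact H1'.symm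
  have hy : P - ρ - t * P * star t = 0 := by
    have h1 : (P - ρ - t * P * star t) * P = 0 := by
      refine hP.2.2 _ fun n => ?_
      cases n with
      | zero =>
        rw [hr0, sub_mul, sub_mul, hρ.2, mul_assoc (t * P), h, mul_zero, sub_zero]
        rw [← hr0, hPr, sub_self]
      | succ m =>
        have h2 : ρ * r (m + 1) = 0 := by
          rw [← htr, ← mul_assoc, ← mul_assoc, hρt]; simp
        have h3 : t * P * star t * r (m + 1) = r (m + 1) := by
          calc t * P * star t * r (m + 1) = t * P * (star t * t) * r m * star t := by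
                rw [← htr]; simp only [mul_assoc]
            _ = t * (P * r m) * star t := by rw [ht, mul_one]; simp only [mul_assoc]
            _ = _ := by rw [hPr, htr]
        rw [sub_mul, sub_mul, h2, h3, hPr]; simp
    rw [sub_mul, sub_mul, hP.1.2, hρP, mul_assoc t, mul_assoc t, hPtP, ← mul_assoc] at h1
    exact h1
  have hy' : t * P * star t = P - ρ := (sub_eq_zero.1 hy).symm
  refine ⟨t * P + (1 - P), ?_, ?_⟩
  · have e1 : star (t * P + (1 - P)) = P * star t + (1 - P) := by
      rw [star_add, star_mul, hP.1.1, hP.1.compl.1]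
    rw [e1, add_mul, mul_add, mul_add, ← mul_assoc (1 - P), H1, hP.1.compl.2, H1']
    have : P * star t * (t * P) = P := by
      rw [mul_assoc, ← mul_assoc (star t), ht, one_mul, hP.1.2]
    rw [this]; abel
  · have e1 : star (t * P + (1 - P)) = P * star t + (1 - P) := by
      rw [star_add, star_mul, hP.1.1, hP.1.compl.1]
    have e2 : P * (1 - P) = 0 := by rw [mul_sub, mul_one, hP.1.2, sub_self]
    have e3 : (1 - P) * P = 0 := by rw [sub_mul, one_mul, hP.1.2, sub_self]
    rw [e1, add_mul, mul_add, mul_add, hP.1.compl.2]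
    have h1 : t * P * (P * star t) = P - ρ := by
      rw [← hy', mul_assoc, ← mul_assoc P, hP.1.2, ← mul_assoc]
    have h2 : t * P * (1 - P) = 0 := by rw [mul_assoc, e2, mul_zero]
    have h3 : (1 - P) * (P * star t) = 0 := by rw [← mul_assoc, e3, zero_mul]
    rw [h1, h2, h3]; abel

/-- Cuntz pair -/
structure Cz (s1 s2 : A) : Prop where
  h11 : star s1 * s1 = 1
  h22 : star s2 * s2 = 1
  h12 : star s1 * s2 = 0
  h21 : star s2 * s1 = 0
  hs : s1 * star s1 + s2 * star s2 = 1

lemma cuntz_of_toeplitz (hB : Baer A) {t1 t2 : A} (h1 : star t1 * t1 = 1)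
    (h2 : star t2 * t2 = 1) (h12 : star t1 * t2 = 0) : ∃ s1 s2 : A, Cz s1 s2 := by
  have h21 : star t2 * t1 = 0 := by
    have := congrArg star h12; rwa [star_mul, star_star, star_zero] at this
  have hp1 : Pr (t1 * star t1) := pi_range Pr.one h1
  have hp2 : Pr (t2 * star t2) := pi_range Pr.one h2
  have hpp : Pr (t1 * star t1 + t2 * star t2) := by
    refine hp1.add hp2 ?_
    rw [mul_assoc, ← mul_assoc (star t2), h21]; simp
  set r : A := 1 - (t1 * star t1 + t2 * star t2) with hr
  have hrp : Pr r := hpp.compl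
  have hrt1 : r * t1 = 0 := by
    rw [hr, sub_mul, add_mul, mul_assoc, h1, mul_assoc, h21]; simp
  have hrt2 : r * t2 = 0 := by
    rw [hr, sub_mul, add_mul, mul_assoc, h12, mul_assoc, h2]; simp
  have ht1r : star t1 * r = 0 := by
    have := congrArg star hrt1; rwa [star_mul, hrp.1, star_zero] at this
  have ht2r : star t2 * r = 0 := by
    have := congrArg star hrt2; rwa [star_mul, hrp.1, star_zero] at this
  have hρ : Pr (t1 * r * star t1) := by
    refine ⟨by simp [mul_assoc, hrp.1], ?_⟩
    calc t1 * r * star t1 * (t1 * r * star t1) = t1 * r * (star t1 * t1) * r * star t1 := by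
          simp only [mul_assoc]
      _ = t1 * (r * r) * star t1 := by rw [h1, mul_one]; simp only [mul_assoc]
      _ = _ := by rw [hrp.2]
  obtain ⟨u, hu1, hu2⟩ := wander hB h2 hρ (by
    rw [← mul_assoc, ← mul_assoc, h21]; simp)
  have hut : star u * (t1 * r) = 0 := by
    have e1 : star u * (t1 * r * star t1) = 0 := by
      have e2 : star u * (u * star u) = star u := by rw [← mul_assoc, hu1, one_mul]
      rw [hu2, mul_sub, mul_one] at e2
      have := sub_eq_self.1 e2
      exact this
    calc star u * (t1 * r) = star u * (t1 * r * star t1) * t1 := by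
          simp only [mul_assoc]; rw [h1, mul_one]
      _ = 0 := by rw [e1, zero_mul]
  have hut' : r * (star t1 * u) = 0 := by
    have := congrArg star hut
    rwa [star_mul, star_star, star_mul, hrp.1, star_zero, mul_assoc] at this
  refine ⟨t1, t2 * star u + r * star t1, h1, ?_, ?_, ?_, ?_⟩
  · have : star (t2 * star u + r * star t1) * (t2 * star u + r * star t1) =
        u * (star t2 * t2) * star u + u * (star t2 * r) * star t1 +
          t1 * (r * t2) * star u + t1 * (r * r) * star t1 := by
      simp only [star_add, star_mul, star_star, hrp.1, add_mul, mul_add, mul_assoc]; abel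
    rw [this, h2, ht2r, hrt2, hrp.2, mul_one, hu2]; simp
  · rw [mul_add, ← mul_assoc, h12, ← mul_assoc, ht1r]; simp
  · simp only [star_add, star_mul, star_star, hrp.1, add_mul, mul_assoc, h21, hrt1, mul_zero,
      add_zero]
  · have : (t2 * star u + r * star t1) * star (t2 * star u + r * star t1) =
        t2 * (star u * u) * star t2 + t2 * (star u * (t1 * r)) +
          (r * (star t1 * u)) * star t2 + r * (star t1 * t1) * r := by
      simp only [star_add, star_mul, star_star, hrp.1, add_mul, mul_add, mul_assoc]; abel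
    rw [this, hu1, hut, hut', h1, mul_one, mul_one, hrp.2, hr]; simp only [mul_zero, zero_mul]; abel

/-- left projection of an idempotent -/
lemma idem_lp (hB : Baer A) {q : A} (hq : q * q = q) : ∃ r, Pr r ∧ r * q = q ∧ q * r = r := by
  obtain ⟨p, hp, h⟩ := hB {star q}
  have h1 : p * q = 0 := by
    have h2 := (h p).2 hp.2 _ rfl
    have := congrArg star h2
    rwa [star_mul, star_star, hp.1, star_zero] at this
  have h3 : p * (1 - star q) = 1 - star q := by
    refine (h _).1 ?_
    intro s hs
    rw [Set.mem_singleton_iff.1 hs, mul_sub, mul_one, ← star_mul, hq, sub_self]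
  have h4 : (1 - q) * p = 1 - q := by
    have := congrArg star h3
    rwa [star_mul, star_sub, star_star, star_one, hp.1] at this
  refine ⟨1 - p, hp.compl, by rw [sub_mul, h1]; simp, ?_⟩
  have h5 : (1 - q) * (1 - p) = 0 := by rw [mul_sub, mul_one, h4, sub_self]
  rw [sub_mul, one_mul, sub_eq_zero] at h5
  exact h5.symm

lemma exists_absorb (hB : Baer A) {s1 s2 : A} (hs : Cz s1 s2) {q : A} (hq : q * q = q) :
    ∃ c₁ c₂ d₁ d₂ : A, Absorb q c₁ c₂ d₁ d₂ := by
  obtain ⟨r, hr, hrq, hqr⟩ := idem_lp hB hq
  obtain ⟨h11, h22, h12, h21, hss⟩ := hs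
  have hρ : Pr (s1 * r * star s1) := by
    refine ⟨by simp [mul_assoc, hr.1], ?_⟩
    calc s1 * r * star s1 * (s1 * r * star s1) = s1 * r * (star s1 * s1) * r * star s1 := by
          simp only [mul_assoc]
      _ = s1 * (r * r) * star s1 := by rw [h11, mul_one]; simp only [mul_assoc]
      _ = _ := by rw [hr.2]
  obtain ⟨u, hu1, hu2⟩ := wander hB h22 hρ (by
    rw [← mul_assoc, ← mul_assoc, h21]; simp)
  have hut : star u * (s1 * r) = 0 := by
    have e1 : star u * (s1 * r * star s1) = 0 := by
      have e2 : star u * (u * star u) = star u := by rw [← mul_assoc, hu1, one_mul]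
      rw [hu2, mul_sub, mul_one] at e2
      exact sub_eq_self.1 e2
    calc star u * (s1 * r) = star u * (s1 * r * star s1) * s1 := by
          simp only [mul_assoc]; rw [h11, mul_one]
      _ = 0 := by rw [e1, zero_mul]
  have hut' : r * (star s1 * u) = 0 := by
    have := congrArg star hut
    rwa [star_mul, star_star, star_mul, hr.1, star_zero, mul_assoc] at this
  refine ⟨u, s1 * q, star u, r * star s1, hu1, ?_, ?_, ?_, ?_, ?_⟩
  · rw [← hrq, ← mul_assoc s1, ← mul_assoc, hut, zero_mul]
  · rw [mul_assoc, hut']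
  · rw [mul_assoc, ← mul_assoc (star s1), h11, one_mul, hrq]
  · have : s1 * q * (r * star s1) = s1 * r * star s1 := by
      rw [mul_assoc, ← mul_assoc q, hqr, ← mul_assoc]
    rw [hu2, this]; abel
  · rw [← mul_assoc, hqr]

/-- Infinite prime Baer C*-algebras contain a pair of isometries with orthogonal ranges. -/
lemma exists_toeplitz (hB : Baer A) (hA : Prime' A) {v : A} (hv : star v * v = 1)
    (hv' : v * star v ≠ 1) :
    ∃ t1 t2 : A, star t1 * t1 = 1 ∧ star t2 * t2 = 1 ∧ star t1 * t2 = 0 := by
  set p : A := 1 - v * star v with hp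
  have hpp : Pr p := (pi_range Pr.one hv).compl
  have hp0 : p ≠ 0 := by
    intro h; rw [hp, sub_eq_zero] at h; exact hv' h.symm
  have hpv : p * v = 0 := by rw [hp, sub_mul, mul_assoc, hv]; simp
  have hvp : star v * p = 0 := by
    have := congrArg star hpv; rwa [star_mul, hpp.1, star_zero] at this
  have hpow : ∀ n, star (v ^ n) * v ^ n = 1 := by
    intro n
    induction n with
    | zero => simp
    | succ n ih =>
      rw [pow_succ' v n, star_mul, mul_assoc, ← mul_assoc (star v), hv, one_mul, ih]
  let w0 : ℕ → A := fun n => v ^ n * p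
  have hw0 : ∀ n, star (w0 n) * w0 n = p := by
    intro n
    show star (v ^ n * p) * (v ^ n * p) = p
    rw [star_mul, hpp.1, mul_assoc, ← mul_assoc (star (v ^ n)), hpow, one_mul, hpp.2]
  have hw0' : ∀ n m, n < m → star (w0 n) * w0 m = 0 := by
    intro n m hnm
    obtain ⟨k, rfl⟩ := Nat.exists_eq_add_of_lt hnm
    show star (v ^ n * p) * (v ^ (n + k + 1) * p) = 0
    rw [star_mul, hpp.1, add_assoc, pow_add v n (k + 1), pow_succ' v k]
    calc p * star (v ^ n) * (v ^ n * (v * v ^ k) * p)
        = p * (star (v ^ n) * v ^ n) * (v * v ^ k) * p := by simp only [mul_assoc]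
      _ = (p * v) * v ^ k * p := by rw [hpow, mul_one]; simp only [mul_assoc]
      _ = 0 := by rw [hpv]; simp
  have hw0'' : ∀ n m, n ≠ m → star (w0 n) * w0 m = 0 := by
    intro n m hnm
    rcases lt_or_gt_of_ne hnm with h | h
    · exact hw0' n m h
    · have := congrArg star (hw0' m n h)
      rwa [star_mul, star_star, star_zero] at this
  let C : Set (Set A) := {W | (∀ w ∈ W, star w * w = p) ∧
    ∀ w ∈ W, ∀ w' ∈ W, w ≠ w' → star w * w' = 0}
  have hW0 : Set.range w0 ∈ C := by
    refine ⟨?_, ?_⟩
    · rintro _ ⟨n, rfl⟩; exact hw0 n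
    · rintro _ ⟨n, rfl⟩ _ ⟨m, rfl⟩ hnm
      exact hw0'' n m (fun h => hnm (by rw [h]))
  obtain ⟨W, hW0W, hW⟩ := zorn_subset_nonempty C (by
    intro c hc hchain hne
    refine ⟨⋃₀ c, ⟨?_, ?_⟩, fun s hs => Set.subset_sUnion_of_mem hs⟩
    · rintro v ⟨s, hs, hvs⟩
      exact (hc hs).1 v hvs
    · rintro v ⟨s, hs, hvs⟩ w ⟨t, ht, hwt⟩ hvw
      rcases hchain.total hs ht with h | h
      · exact (hc ht).2 v (h hvs) w hwt hvw
      · exact (hc hs).2 v hvs w (h hwt) hvw) _ hW0
  obtain ⟨⟨hW1, hW2⟩, hWmax⟩ := hW
  have hinj0 : Function.Injective w0 := by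
    intro n m hnm
    by_contra h
    apply hp0
    have := hw0'' n m h
    rw [← hnm, hw0] at this
    exact this
  have _ : Infinite W := by
    refine Infinite.of_injective (fun n : ℕ => (⟨w0 n, hW0W ⟨n, rfl⟩⟩ : W)) ?_
    intro n m h
    exact hinj0 (congrArg Subtype.val h)
  obtain ⟨g⟩ : Nonempty (Fin 4 × Option W ≃ W) := by
    rw [← Cardinal.eq]
    simp only [Cardinal.mk_prod, Cardinal.lift_id', Cardinal.mk_option, Cardinal.mk_fin,
      Cardinal.lift_id]
    have hinf : Cardinal.aleph0 ≤ Cardinal.mk W := Cardinal.aleph0_le_mk W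
    have h1 : Cardinal.mk W + 1 = Cardinal.mk W := Cardinal.add_one_eq hinf
    rw [h1]
    have h4 : Cardinal.lift.{_, 0} ((4 : ℕ) : Cardinal.{0}) < Cardinal.aleph0 := by
      simp
    exact Cardinal.mul_eq_right hinf (h4.le.trans hinf) (by simp)
  set w : Fin 4 × Option W → A := fun k => (g k : A) with hw
  have hww : ∀ k, star (w k) * w k = p := fun k => hW1 _ (g k).2
  have hww' : ∀ k l, k ≠ l → star (w k) * w l = 0 := fun k l hkl =>
    hW2 _ (g k).2 _ (g l).2 (fun h => hkl (g.injective (Subtype.ext h)))
  have hwp : ∀ k, w k * p = w k := fun k => pi_right hpp (hww k)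
  have hpw : ∀ k, p * star (w k) = star (w k) := fun k => by
    have := congrArg star (hwp k); rwa [star_mul, hpp.1] at this
  set f : Fin 4 × Option W → A := fun k => w k * star (w k) with hf
  have hfs : ∀ k, star (f k) = f k := fun k => by simp [hf]
  have hff : ∀ k, f k * f k = f k := fun k => by
    show w k * star (w k) * (w k * star (w k)) = w k * star (w k)
    rw [mul_assoc, ← mul_assoc (star (w k)), hww, hpw]
  have hff' : ∀ k l, k ≠ l → f k * f l = 0 := fun k l hkl => by
    show w k * star (w k) * (w l * star (w l)) = 0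
    rw [mul_assoc, ← mul_assoc (star (w k)), hww' k l hkl]; simp
  have hex : ∀ S : Set (Fin 4 × Option W), ∃ P : A, IsSup (fun k : S => f k) P :=
    fun S => exists_sup hB _ (fun k => hfs k)
  choose P hP using hex
  have Pf : ∀ (S : Set (Fin 4 × Option W)) k, k ∈ S → P S * f k = f k := fun S k hk =>
    (hP S).left (fun k => hfs k) ⟨k, hk⟩
  have Pf' : ∀ (S : Set (Fin 4 × Option W)) k, k ∉ S → P S * f k = 0 := fun S k hk =>
    (hP S).zero_left (fun k => hfs k) fun j => hff' j k (fun h => hk (h ▸ j.2))
  have PP : ∀ S T : Set (Fin 4 × Option W), Disjoint S T → P S * P T = 0 := by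
    intro S T hST
    refine (hP T).2.2 _ fun k => Pf' S k fun h => ?_
    exact Set.disjoint_left.1 hST h k.2
  have PP' : ∀ S T : Set (Fin 4 × Option W), S ⊆ T → P T * P S = P S := by
    intro S T hST
    have : (1 - P T) * P S = 0 := by
      refine (hP S).2.2 _ fun k => ?_
      rw [sub_mul, one_mul, Pf T k (hST k.2), sub_self]
    rw [sub_mul, one_mul, sub_eq_zero] at this
    exact this.symm
  have key : ∀ (S T : Set (Fin 4 × Option W)) (φ : Fin 4 × Option W → Fin 4 × Option W),
      Disjoint S T → Function.Injective φ → (∀ k ∈ S, φ k ∈ T) → Sub (P S) (P T) := by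
    intro S T φ hST hφ hφT
    obtain ⟨F, hF⟩ := exists_sup hB (fun k : S => f (φ k)) (fun k => hfs _)
    let vv : S → A := fun k => w (φ k) * star (w k)
    have e1 : ∀ k : S, star (vv k) * vv k = f k := fun k => by
      show star (w (φ k) * star (w k)) * (w (φ k) * star (w k)) = w k * star (w k)
      rw [star_mul, star_star, mul_assoc, ← mul_assoc (star (w (φ k))), hww, hpw]
    have e2 : ∀ k : S, vv k * star (vv k) = f (φ k) := fun k => by
      show w (φ k) * star (w k) * star (w (φ k) * star (w k)) = w (φ k) * star (w (φ k))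
      rw [star_mul, star_star, mul_assoc, ← mul_assoc (star (w k)), hww, hpw]
    have hne : ∀ k l : S, k ≠ l → (k : Fin 4 × Option W) ≠ l := fun k l h h' =>
      h (Subtype.ext h')
    have h1 : Sub (P S) F := by
      refine orth_add hB vv ?_ ?_ ?_ ?_ ?_ ?_
      · intro k
        rw [e1]
        show w (φ k) * star (w k) * (w k * star (w k)) = w (φ k) * star (w k)
        rw [mul_assoc, ← mul_assoc (star (w k)), hww, hpw]
      · intro k l hkl
        show star (w (φ k) * star (w k)) * (w (φ l) * star (w l)) = 0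
        rw [star_mul, star_star, mul_assoc, ← mul_assoc (star (w (φ k))),
          hww' _ _ (fun h => hne k l hkl (hφ h))]; simp
      · intro k l hkl
        show w (φ k) * star (w k) * star (w (φ l) * star (w l)) = 0
        rw [star_mul, star_star, mul_assoc, ← mul_assoc (star (w k)),
          hww' _ _ (hne k l hkl)]; simp
      · intro k l
        show w (φ k) * star (w k) * (w (φ l) * star (w l)) = 0
        have : (k : Fin 4 × Option W) ≠ φ l := by
          intro h
          exact Set.disjoint_left.1 hST k.2 (h ▸ hφT l l.2)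
        rw [mul_assoc, ← mul_assoc (star (w k)), hww' _ _ this]; simp
      · have : (fun k : S => star (vv k) * vv k) = fun k : S => f k := funext e1
        rw [this]; exact hP S
      · have : (fun k : S => vv k * star (vv k)) = fun k : S => f (φ k) := funext e2
        rw [this]; exact hF
    refine h1.mono ?_
    have : (1 - P T) * F = 0 := by
      refine hF.2.2 _ fun k => ?_
      rw [sub_mul, one_mul, Pf T _ (hφT k k.2), sub_self]
    rw [sub_mul, one_mul, sub_eq_zero] at this
    exact this.symm
  -- remainder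
  set r : A := 1 - P Set.univ with hr
  have hrp : Pr r := (hP _).1.compl
  have hrf : ∀ k, r * f k = 0 := fun k => by
    rw [hr, sub_mul, one_mul, Pf _ k (Set.mem_univ k), sub_self]
  have hrw : ∀ k, r * w k = 0 := fun k => by
    have h1 : f k * w k = w k := by
      show w k * star (w k) * w k = w k
      rw [mul_assoc, hww, hwp]
    rw [← h1, ← mul_assoc, hrf, zero_mul]
  have hfp : ∀ k, Pr (f k) := fun k => ⟨hfs k, hff k⟩
  have hrsub : ∀ k, Sub r (f k) := by
    intro k
    rcases compar hB hA hrp (hfp k) (hrf k) with h | h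
    · exact h
    exfalso
    obtain ⟨x, hx1, hx2⟩ := h
    have hwx : star (x * w k) * (x * w k) = p := by
      rw [star_mul, mul_assoc, ← mul_assoc (star x), hx1]
      show star (w k) * (w k * star (w k) * w k) = p
      rw [mul_assoc, hww, hwp, hww]
    have hwx' : ∀ l, star (w l) * (x * w k) = 0 := by
      intro l
      have : star (w l) * r = 0 := by
        have := congrArg star (hrw l); rwa [star_mul, hrp.1, star_zero] at this
      rw [← hx2]
      simp only [← mul_assoc]
      rw [this]; simp
    have hnot : x * w k ∉ W := by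
      intro hmem
      have h1 := hwx' (g.symm ⟨_, hmem⟩)
      have h2 : w (g.symm ⟨_, hmem⟩) = x * w k := by
        show ((g (g.symm ⟨_, hmem⟩) : W) : A) = _
        rw [Equiv.apply_symm_apply]
      rw [h2, hwx] at h1
      exact hp0 h1
    have hins : insert (x * w k) W ∈ C := by
      refine ⟨?_, ?_⟩
      · intro u hu
        rcases Set.mem_insert_iff.1 hu with rfl | hu
        · exact hwx
        · exact hW1 u hu
      · have hl : ∀ u ∈ W, star u * (x * w k) = 0 := by
          intro u hu
          have h1 := hwx' (g.symm ⟨u, hu⟩)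
          have h2 : w (g.symm ⟨u, hu⟩) = u := by
            show ((g (g.symm ⟨_, hu⟩) : W) : A) = _
            rw [Equiv.apply_symm_apply]
          rwa [h2] at h1
        intro u hu u' hu' hne'
        rcases Set.mem_insert_iff.1 hu with h1 | hu1 <;>
          rcases Set.mem_insert_iff.1 hu' with h2 | hu1'
        · exact absurd (h1.trans h2.symm) hne'
        · rw [h1]
          have := congrArg star (hl u' hu1')
          rwa [star_mul, star_star, star_zero] at this
        · rw [h2]; exact hl u hu1
        · exact hW2 u hu1 u' hu1' hne'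
    exact hnot (hWmax hins (Set.subset_insert _ W) (Set.mem_insert _ W))
  -- blocks
  have hφ : ∀ a : Fin 4, Function.Injective
      (fun k : Fin 4 × Option W => ((a, some (g k)) : Fin 4 × Option W)) := by
    intro a k l hkl
    simp only [Prod.mk.injEq, true_and, Option.some.injEq] at hkl
    exact g.injective hkl
  let B : Fin 4 → Set (Fin 4 × Option W) := fun a => {k | k.1 = a}
  let S01 : Set (Fin 4 × Option W) := {k | k.1 = 0 ∨ k.1 = 1}
  let S23 : Set (Fin 4 × Option W) := {k | k.1 = 2 ∨ k.1 = 3}
  let S1' : Set (Fin 4 × Option W) := {k | k.1 = 1 ∧ k.2 ≠ none}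
  have dis : ∀ S T : Set (Fin 4 × Option W), (∀ k ∈ S, k ∉ T) → Disjoint S T := fun S T h =>
    Set.disjoint_left.2 fun k hk => h k hk
  have s1 : Sub (P S01) (P (B 2)) := by
    refine key _ _ (fun k => (2, some (g k))) (dis _ _ ?_) (hφ 2) ?_
    · intro k hk hk'
      have h2 : k.1 = 2 := hk'
      rcases hk with h | h <;> rw [h2] at h <;> exact absurd h (by decide)
    · intro k hk; exact rfl
  have s2 : Sub (P (B 2)) (P (B 0)) := by
    refine key _ _ (fun k => (0, some (g k))) (dis _ _ ?_) (hφ 0) ?_
    · intro k hk hk'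
      have h2 : k.1 = 2 := hk
      have h0 : k.1 = 0 := hk'
      rw [h2] at h0; exact absurd h0 (by decide)
    · intro k hk; exact rfl
  have s3 : Sub (P S23) (P S1') := by
    refine key _ _ (fun k => (1, some (g k))) (dis _ _ ?_) (hφ 1) ?_
    · intro k hk hk'
      have h2 : k.1 = 1 := hk'.1
      rcases hk with h | h <;> rw [h2] at h <;> exact absurd h (by decide)
    · intro k hk; exact ⟨rfl, by simp⟩
  set k0 : Fin 4 × Option W := (1, none) with hk0
  have s4 : Sub (P S23 + r) (P S1' + f k0) := by
    refine Sub.add (hP _).1 (hfp k0) ?_ s3 (hrsub k0)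
    exact Pf' _ _ (fun h => h.2 rfl)
  have s5 : Sub (P S23 + r) (P (B 1)) := by
    refine s4.mono ?_
    rw [mul_add, PP' S1' (B 1) (fun k hk => hk.1), Pf (B 1) k0 rfl]
  have s6 : Sub (P S01 + (P S23 + r)) (P (B 0) + P (B 1)) := by
    refine Sub.add (hP _).1 (hP _).1 ?_ (s1.trans (hP _).1 s2) s5
    refine PP _ _ (dis _ _ ?_)
    intro k hk hk'
    have h2 : k.1 = 0 := hk
    have h0 : k.1 = 1 := hk'
    rw [h2] at h0; exact absurd h0 (by decide)
  have hone : P S01 + (P S23 + r) = 1 := by
    have h1 : (P Set.univ - P S01 - P S23) * P Set.univ = 0 := by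
      refine (hP _).2.2 _ fun k => ?_
      rw [sub_mul, sub_mul, Pf _ _ (Set.mem_univ _)]
      by_cases hk : (k : Fin 4 × Option W) ∈ S01
      · have hk' : (k : Fin 4 × Option W) ∉ S23 := by
          intro h
          rcases hk with hk | hk <;> rcases h with h | h <;> rw [hk] at h <;>
            exact absurd h (by decide)
        rw [Pf _ _ hk, Pf' _ _ hk']; simp
      · have hk' : (k : Fin 4 × Option W) ∈ S23 := by
          have : ∀ a : Fin 4, ¬ (a = 0 ∨ a = 1) → (a = 2 ∨ a = 3) := by decide
          exact this _ hk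
        rw [Pf' _ _ hk, Pf _ _ hk']; simp
    have h2 : ∀ S, P S * P Set.univ = P S := fun S =>
      (hP S).1.comm_le (hP _).1 (PP' S _ (Set.subset_univ S))
    rw [sub_mul, sub_mul, h2, h2, h2] at h1
    have h3 : P Set.univ = P S01 + P S23 := by
      rw [sub_sub, sub_eq_zero] at h1; exact h1
    rw [hr, h3]; abel
  rw [hone] at s6
  have s7 : Sub 1 (P S01) := by
    refine s6.mono ?_
    rw [mul_add, PP' (B 0) S01 (fun k hk => Or.inl hk), PP' (B 1) S01 (fun k hk => Or.inr hk)]
  have s8 : Sub 1 (P (B 2)) := s7.trans Pr.one s1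
  obtain ⟨t1, h11, h12⟩ := s7
  obtain ⟨t2, h21, h22⟩ := s8
  refine ⟨t1, t2, h11, h21, ?_⟩
  have h3 : star t1 * P S01 = star t1 := by
    have := congrArg star h12; rwa [star_mul, (hP S01).1.1] at this
  have h4 : P S01 * P (B 2) = 0 := by
    refine PP _ _ (dis _ _ ?_)
    intro k hk hk'
    have h2 : k.1 = 2 := hk'
    rcases hk with h | h <;> rw [h2] at h <;> exact absurd h (by decide)
  rw [← h3, ← h22, mul_assoc, ← mul_assoc (P S01), h4]; simp

lemma exists_cuntz (hB : Baer A) (hA : Prime' A) {v : A} (hv : star v * v = 1)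
    (hv' : v * star v ≠ 1) : ∃ s1 s2 : A, Cz s1 s2 := by
  obtain ⟨t1, t2, h1, h2, h3⟩ := exists_toeplitz hB hA hv hv'
  exact cuntz_of_toeplitz hB h1 h2 h3

end Pool.Agent.V11111.AW
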